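import Mathlib

set_option autoImplicit false

namespace Pool.Agent.H869

open RingTheory.Sequence IsLocalRing

/-- A commutative ring is a Cohen–Macaulay local ring if it is a Noetherian local ring and there is
a regular sequence (automatically contained in the maximal ideal) whose length is the Krull
dimension of the ring. -/
structure IsCMLocal (R : Type*) [CommRing R] : Prop where
  noeth : IsNoetherianRing R
  loc : IsLocalRing R
  exists_reg : ∃ rs : List R, IsRegular R rs ∧ (rs.length : WithBot ℕ∞) = ringKrullDim R

/-- All localisations at primes are Cohen–Macaulay. -/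
structure IsCMRing (R : Type*) [CommRing R] : Prop where
  noeth : IsNoetherianRing R
  at_prime : ∀ (p : Ideal R) [p.IsPrime], IsCMLocal (Localization.AtPrime p)

lemma IsCMLocal.of_ringEquiv {R R' : Type*} [CommRing R] [CommRing R'] (e : R ≃+* R')
    (h : IsCMLocal R) : IsCMLocal R' := by
  obtain ⟨h1, h2, rs, hrs, hlen⟩ := h
  refine ⟨isNoetherianRing_of_ringEquiv R e, e.isLocalRing, rs.map e, ?_, ?_⟩
  · let σ : R →+* R' := e
    let σ' : R' →+* R := e.symm
    have : RingHomInvPair σ σ' := RingHomInvPair.of_ringEquiv e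
    have : RingHomInvPair σ' σ := RingHomInvPair.symm σ σ'
    let l : R ≃ₛₗ[σ] R' :=
      { e.toAddEquiv with
        map_smul' := fun a b => by
          simp [σ] }
    exact (LinearEquiv.isRegular_congr' l rs).1 hrs
  · rw [List.length_map, hlen]
    exact ringKrullDim_eq_of_ringEquiv e

/-- A local ring, all of whose primes containing a regular sequence are maximal, is
Cohen-Macaulay. -/
lemma IsCMLocal.of_regular {C : Type*} [CommRing C] [IsLocalRing C] [IsNoetherianRing C]
    (rs : List C) (hrs : IsRegular C rs)
    (h : ∀ P : Ideal C, P.IsPrime → Ideal.ofList rs ≤ P → P = maximalIdeal C) : IsCMLocal C := by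
  refine ⟨inferInstance, inferInstance, rs, hrs, ?_⟩
  have h1 := ringKrullDim_add_length_eq_ringKrullDim_of_isRegular rs hrs
  have hne : Ideal.ofList rs ≠ ⊤ := by
    intro h2
    apply hrs.2
    rw [h2]
    simp
  have : Nontrivial (C ⧸ Ideal.ofList rs) := Ideal.Quotient.nontrivial_iff.2 hne
  have h0 : ringKrullDim (C ⧸ Ideal.ofList rs) = 0 := by
    rw [← ringKrullDimZero_iff_ringKrullDim_eq_zero, Ring.krullDimLE_zero_iff]
    intro Q hQ
    have h3 : (Q.comap (Ideal.Quotient.mk (Ideal.ofList rs))).IsPrime := Ideal.IsPrime.comap _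
    have h4 := h _ h3 (by
      intro x hx
      rw [Ideal.mem_comap, Ideal.Quotient.eq_zero_iff_mem.2 hx]
      exact Q.zero_mem)
    have h5 : (Q.comap (Ideal.Quotient.mk (Ideal.ofList rs))).IsMaximal := by
      rw [h4]; infer_instance
    have h6 := Ideal.IsMaximal.map_of_surjective_of_ker_le
      (f := Ideal.Quotient.mk (Ideal.ofList rs)) Ideal.Quotient.mk_surjective
      (m := Q.comap (Ideal.Quotient.mk (Ideal.ofList rs))) (Ideal.comap_mono bot_le)
    rwa [Ideal.map_comap_of_surjective _ Ideal.Quotient.mk_surjective] at h6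
  rw [h0, zero_add] at h1
  exact h1

/-- In a Cohen-Macaulay local ring, with a regular sequence of length the dimension, the only prime
containing the sequence is the maximal ideal. -/
lemma IsCMLocal.exists_seq {A : Type*} [CommRing A] [IsLocalRing A] (hA : IsCMLocal A) :
    ∃ rs : List A, IsRegular A rs ∧
      ∀ P : Ideal A, P.IsPrime → Ideal.ofList rs ≤ P → P = maximalIdeal A := by
  obtain ⟨h1, h2, rs, hrs, hlen⟩ := hA
  refine ⟨rs, hrs, ?_⟩
  intro P hP hle
  have h3 := ringKrullDim_add_length_eq_ringKrullDim_of_isRegular rs hrs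
  have hne : Ideal.ofList rs ≠ ⊤ := fun h => hP.ne_top (top_le_iff.1 (h ▸ hle))
  have : Nontrivial (A ⧸ Ideal.ofList rs) := Ideal.Quotient.nontrivial_iff.2 hne
  have h0 : ringKrullDim (A ⧸ Ideal.ofList rs) = 0 := by
    rw [hlen] at h3
    have h6 : ringKrullDim (A ⧸ Ideal.ofList rs) + rs.length = 0 + rs.length := by
      rw [zero_add, hlen]
      exact h3
    exact ENat.WithBot.add_natCast_cancel.1 h6
  rw [← ringKrullDimZero_iff_ringKrullDim_eq_zero, Ring.krullDimLE_zero_iff] at h0
  have h5 : (P.map (Ideal.Quotient.mk (Ideal.ofList rs))).IsPrime :=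
    Ideal.map_isPrime_of_surjective Ideal.Quotient.mk_surjective (by
      rw [Ideal.mk_ker]; exact hle)
  have h6 := h0 _ h5
  have h7 : P = (P.map (Ideal.Quotient.mk (Ideal.ofList rs))).comap
      (Ideal.Quotient.mk (Ideal.ofList rs)) := by
    rw [Ideal.comap_map_of_surjective _ Ideal.Quotient.mk_surjective, ← RingHom.ker_eq_comap_bot,
      Ideal.mk_ker, sup_eq_left.2 hle]
  have h8 : P.IsMaximal := by
    rw [h7]
    exact Ideal.comap_isMaximal_of_surjective _ Ideal.Quotient.mk_surjective
  exact IsLocalRing.eq_maximalIdeal h8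

/-- flat local extension with zero-dimensional closed fibre -/
lemma IsCMLocal.of_flat {A C : Type*} [CommRing A] [CommRing C] [Algebra A C] [Module.Flat A C]
    [IsLocalRing A] [IsLocalRing C] [IsLocalHom (algebraMap A C)] [IsNoetherianRing C]
    (hA : IsCMLocal A)
    (h : ∀ P : Ideal C, P.IsPrime → (maximalIdeal A).map (algebraMap A C) ≤ P →
      P = maximalIdeal C) : IsCMLocal C := by
  obtain ⟨rs, hrs, hP⟩ := hA.exists_seq
  have : Module.FaithfullyFlat A C := Module.FaithfullyFlat.of_flat_of_isLocalHom
  refine IsCMLocal.of_regular (rs.map (algebraMap A C)) (hrs.of_faithfullyFlat) ?_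
  intro P hPp hle
  apply h P hPp
  rw [← Ideal.map_ofList, Ideal.map_le_iff_le_comap] at hle
  rw [Ideal.map_le_iff_le_comap, hP _ (hPp.comap _) hle]

lemma IsCMLocal.of_isLocalization {R : Type*} [CommRing R] (p : Ideal R) [p.IsPrime]
    (N : Type*) [CommRing N] [Algebra R N] [IsLocalization.AtPrime N p]
    (h : IsCMLocal (Localization.AtPrime p)) : IsCMLocal N :=
  h.of_ringEquiv (IsLocalization.algEquiv p.primeCompl (Localization.AtPrime p) N).toRingEquiv

/-- quasi-finite flat ascent -/
lemma IsCMLocal.of_flat_quasiFinite {A C : Type*} [CommRing A] [CommRing C] [Algebra A C]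
    [Module.Flat A C] [IsNoetherianRing C] (P : Ideal C) [P.IsPrime]
    (hinc : ∀ Q : Ideal C, Q.IsPrime → Q ≤ P → Q.under A = P.under A → Q = P)
    (hA : IsCMLocal (Localization.AtPrime (P.under A))) : IsCMLocal (Localization.AtPrime P) := by
  let := Localization.AtPrime.algebraOfLiesOver (P.under A) P
  have : IsLocalHom (algebraMap (Localization.AtPrime <| P.under A) (Localization.AtPrime P)) := by
    rw [RingHom.algebraMap_toAlgebra]
    exact Localization.isLocalHom_localRingHom (P.under A) P (algebraMap A C) Ideal.LiesOver.over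
  refine IsCMLocal.of_flat hA ?_
  intro Q' hQ' hle
  have h1 : Q'.under C ≤ P := by
    have := Ideal.comap_mono (f := algebraMap C (Localization.AtPrime P))
      (IsLocalRing.le_maximalIdeal_of_isPrime Q')
    rwa [← Ideal.under_def, ← Ideal.under_def, IsLocalization.AtPrime.under_maximalIdeal _ P] at this
  have h2 : (Q'.under C).under A = P.under A := by
    apply le_antisymm
    · exact Ideal.comap_mono h1
    · intro a ha
      rw [Ideal.under_def, Ideal.mem_comap, Ideal.under_def, Ideal.mem_comap]
      have h3 : algebraMap A (Localization.AtPrime (P.under A)) a ∈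
          maximalIdeal (Localization.AtPrime (P.under A)) := by
        rw [IsLocalization.AtPrime.to_map_mem_maximal_iff _ (P.under A)]
        exact ha
      have h4 := hle (Ideal.mem_map_of_mem _ h3)
      rwa [← IsScalarTower.algebraMap_apply, IsScalarTower.algebraMap_apply A C] at h4
  have h3 := hinc _ (Ideal.IsPrime.comap _) h1 h2
  have h4 := IsLocalization.map_under P.primeCompl (Localization.AtPrime P) Q'
  rw [Ideal.under_def, h3] at h4
  rw [← h4]
  exact Localization.AtPrime.map_eq_maximalIdeal

lemma IsCMRing.of_flat_quasiFinite {A C : Type*} [CommRing A] [CommRing C] [Algebra A C]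
    [Module.Flat A C] [IsNoetherianRing C] [Algebra.QuasiFinite A C] (hA : IsCMRing A) :
    IsCMRing C := by
  refine ⟨inferInstance, fun P hP => ?_⟩
  apply IsCMLocal.of_flat_quasiFinite (A := A) P
  · intro Q hQ hle h
    exact Algebra.QuasiFinite.eq_of_le_of_under_eq (R := A) Q P hle h
  · exact hA.at_prime _

lemma IsCMLocal.of_weaklyRegular {R : Type*} [CommRing R] [IsNoetherianRing R] (p : Ideal R)
    [p.IsPrime] (L : List R) (h1 : IsWeaklyRegular R L) (h2 : ∀ r ∈ L, r ∈ p)
    (h3 : ∀ Q : Ideal R, Q.IsPrime → Q ≤ p → Ideal.ofList L ≤ Q → Q = p) :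
    IsCMLocal (Localization.AtPrime p) := by
  have h4 := h1.isRegular_of_isLocalization_of_mem (S := Localization.AtPrime p) p h2
  refine IsCMLocal.of_regular _ h4 ?_
  intro Q' hQ' hle
  have h5 : Q'.under R ≤ p := by
    have := Ideal.comap_mono (f := algebraMap R (Localization.AtPrime p))
      (IsLocalRing.le_maximalIdeal_of_isPrime Q')
    rwa [← Ideal.under_def, ← Ideal.under_def, IsLocalization.AtPrime.under_maximalIdeal _ p] at this
  rw [← Ideal.map_ofList, Ideal.map_le_iff_le_comap] at hle
  have h6 := h3 _ (Ideal.IsPrime.comap _) h5 hle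
  have h7 := IsLocalization.map_under p.primeCompl (Localization.AtPrime p) Q'
  rw [Ideal.under_def, h6] at h7
  rw [← h7]
  exact Localization.AtPrime.map_eq_maximalIdeal

section poly
open Polynomial

lemma isWeaklyRegular_append_monic {R : Type*} [CommRing R] (rs : List R)
    (h : IsWeaklyRegular R rs) (y : R[X]) (hy : y.Monic) :
    IsWeaklyRegular R[X] (rs.map C ++ [y]) := by
  rw [isWeaklyRegular_append_iff]
  refine ⟨?_, ?_⟩
  · exact IsWeaklyRegular.of_flat (S := R[X]) h
  · rw [isWeaklyRegular_singleton_iff]
    rw [isSMulRegular_on_quot_iff_lsmul_comap_le]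
    have e : (Ideal.ofList (rs.map C) • (⊤ : Submodule R[X] R[X])) = (Ideal.ofList rs).map C := by
      rw [← Ideal.map_ofList]
      simp
    rw [e]
    intro f hf
    rw [Submodule.mem_comap] at hf
    simp only [LinearMap.lsmul_apply, smul_eq_mul] at hf
    have key : ∀ g : R[X], g ∈ (Ideal.ofList rs).map C ↔
        g.map (Ideal.Quotient.mk (Ideal.ofList rs)) = 0 := by
      intro g
      rw [Ideal.mem_map_C_iff, Polynomial.ext_iff]
      simp [Ideal.Quotient.eq_zero_iff_mem]
    rw [key] at hf ⊢
    rw [Polynomial.map_mul] at hf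
    exact ((hy.map _).mul_right_eq_zero_iff).1 hf

lemma IsCMLocal.polynomial_local {R : Type*} [CommRing R] [IsLocalRing R] (hR : IsCMLocal R)
    (p : Ideal R[X]) [p.IsPrime] (hmax : p.comap C = maximalIdeal R) :
    IsCMLocal (Localization.AtPrime p) := by
  have := hR.noeth
  obtain ⟨rs, hrs, hP⟩ := hR.exists_seq
  have hrsmem : ∀ r ∈ rs, r ∈ maximalIdeal R := by
    intro r hr
    by_contra hcon
    have hu : IsUnit r := by simpa using hcon
    apply hrs.2
    have : Ideal.ofList rs = ⊤ := by
      rw [Ideal.eq_top_iff_one]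
      obtain ⟨u, rfl⟩ := hu
      have h1 : (u : R) ∈ Ideal.ofList rs := Ideal.subset_span hr
      simpa using (Ideal.ofList rs).mul_mem_left (↑u⁻¹ : R) h1
    rw [this]; simp
  have qle : (maximalIdeal R).map C ≤ p := by simpa [← hmax] using Ideal.map_comap_le
  by_cases eq : p = (maximalIdeal R).map C
  · refine IsCMLocal.of_weaklyRegular p (rs.map C) (IsWeaklyRegular.of_flat (S := R[X]) hrs.1) ?_ ?_
    · intro r' hr'
      obtain ⟨r, hr, rfl⟩ := List.mem_map.1 hr'
      exact qle (Ideal.mem_map_of_mem _ (hrsmem r hr))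
    · intro Q hQ hle hQ2
      rw [← Ideal.map_ofList, Ideal.map_le_iff_le_comap] at hQ2
      have h3 := hP _ (hQ.comap C) hQ2
      apply le_antisymm hle
      rw [eq, ← h3]
      exact Ideal.map_comap_le
  · have : (p.comap C).IsMaximal := by simpa [hmax] using maximalIdeal.isMaximal R
    obtain ⟨y, hy, hsup⟩ := Polynomial.exists_monic_span_sup_map_eq R p this (by
      rw [hmax]; exact eq)
    have hyp : y ∈ p := by
      rw [hsup]
      exact Ideal.mem_sup_right (Ideal.mem_span_singleton_self y)
    refine IsCMLocal.of_weaklyRegular p (rs.map C ++ [y])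
      (isWeaklyRegular_append_monic rs hrs.1 y hy) ?_ ?_
    · intro r' hr'
      rcases List.mem_append.1 hr' with hr' | hr'
      · obtain ⟨r, hr, rfl⟩ := List.mem_map.1 hr'
        exact qle (Ideal.mem_map_of_mem _ (hrsmem r hr))
      · rw [List.mem_singleton.1 hr']
        exact hyp
    · intro Q hQ hle hQ2
      rw [Ideal.ofList_append, sup_le_iff] at hQ2
      obtain ⟨hQ3, hQ4⟩ := hQ2
      rw [← Ideal.map_ofList, Ideal.map_le_iff_le_comap] at hQ3
      have h3 := hP _ (hQ.comap C) hQ3
      apply le_antisymm hle
      rw [hsup, sup_le_iff]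
      constructor
      · rw [hmax, ← h3]
        exact Ideal.map_comap_le
      · rwa [Ideal.ofList_singleton] at hQ4

lemma IsCMRing.polynomial {R : Type*} [CommRing R] (hR : IsCMRing R) : IsCMRing R[X] := by
  have := hR.noeth
  refine ⟨inferInstance, fun p hp ↦ ?_⟩
  let q := p.comap C
  let S := (Localization.AtPrime q)[X]
  let pc := Submonoid.map Polynomial.C.toMonoidHom q.primeCompl
  let : Algebra R[X] S := algebra R (Localization.AtPrime q)
  have : IsLocalization pc S := Polynomial.isLocalization _ _
  let pS := p.map (algebraMap R[X] S)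
  have disj : Disjoint (pc : Set R[X]) (p : Set R[X]) := by
    simpa [pc, q] using! Set.disjoint_image_left.mpr
      (Set.disjoint_compl_left_iff_subset.mpr (fun _ a ↦ a))
  have : pS.IsPrime := IsLocalization.isPrime_of_isPrime_disjoint pc _ _ ‹_› disj
  have : IsLocalization.AtPrime (Localization.AtPrime pS) p := by
    convert IsLocalization.isLocalization_isLocalization_atPrime_isLocalization pc
      (Localization.AtPrime pS) pS
    exact (IsLocalization.under_map_of_isPrime_disjoint pc _ ‹_› disj).symm
  have hloc := hR.at_prime q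
  have eq : Ideal.comap C pS = maximalIdeal (Localization.AtPrime q) := by
    rw [← IsLocalization.map_under q.primeCompl _ (Ideal.comap C pS),
      ← IsLocalization.map_under q.primeCompl _ (maximalIdeal (Localization.AtPrime q))]
    simp only [Ideal.comap_comap, S, pS]
    rw [← Polynomial.algebraMap_eq (R := Localization.AtPrime q),
      ← IsScalarTower.algebraMap_eq R (Localization.AtPrime q) (Localization.AtPrime q)[X],
      IsScalarTower.algebraMap_eq R R[X] (Localization.AtPrime q)[X], ← Ideal.comap_comap,
      ← Ideal.under_def R[X], IsLocalization.under_map_of_isPrime_disjoint pc _ ‹_› disj]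
    simp [q, IsLocalization.AtPrime.under_maximalIdeal (Localization.AtPrime q) q]
  have := IsCMLocal.polynomial_local hloc pS eq
  exact IsCMLocal.of_ringEquiv (IsLocalization.algEquiv p.primeCompl
    (Localization.AtPrime pS) (Localization.AtPrime p)).toRingEquiv this

end poly

lemma IsCMRing.of_ringEquiv {R R' : Type*} [CommRing R] [CommRing R'] (e : R ≃+* R')
    (h : IsCMRing R) : IsCMRing R' := by
  have := h.noeth
  have := isNoetherianRing_of_ringEquiv R e
  refine ⟨this, fun p hp => ?_⟩
  exact IsCMLocal.of_ringEquiv (IsLocalization.ringEquivOfRingEquiv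
    (Localization.AtPrime (p.comap e)) (Localization.AtPrime p) e (e.map_primeCompl_comap_eq p))
    (h.at_prime _)

lemma IsCMRing.mvPolynomial {R : Type*} [CommRing R] (hR : IsCMRing R) (ι : Type*) [Finite ι] :
    IsCMRing (MvPolynomial ι R) := by
  induction ι using Finite.induction_empty_option with
  | of_equiv e H => exact IsCMRing.of_ringEquiv (MvPolynomial.renameEquiv _ e).toRingEquiv H
  | h_empty => exact IsCMRing.of_ringEquiv (MvPolynomial.isEmptyRingEquiv R _).symm hR
  | h_option IH =>
    exact IsCMRing.of_ringEquiv (MvPolynomial.optionEquivLeft _ _).toRingEquiv.symm IH.polynomial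

lemma IsCMLocal.of_field (K : Type*) [Field K] : IsCMLocal K := by
  refine ⟨inferInstance, inferInstance, [], IsRegular.nil K K, ?_⟩
  simp

lemma IsCMRing.of_field (K : Type*) [Field K] : IsCMRing K := by
  refine ⟨inferInstance, fun p hp => ?_⟩
  have hp0 : p = ⊥ := by
    rcases Ideal.eq_bot_or_top p with h | h
    · exact h
    · exact absurd h hp.ne_top
  subst hp0
  have e : K ≃ₐ[K] Localization.AtPrime (⊥ : Ideal K) :=
    IsLocalization.atUnits K (⊥ : Ideal K).primeCompl (fun x hx => by
      have : x ≠ 0 := fun h => hx (by rw [h]; exact Ideal.zero_mem _)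
      exact isUnit_iff_ne_zero.2 this)
  exact (IsCMLocal.of_field K).of_ringEquiv e.toRingEquiv

/-- localisation of a CM ring at a submonoid -/
lemma IsCMRing.of_isLocalization {R N : Type*} [CommRing R] [CommRing N] [Algebra R N]
    (M : Submonoid R) [IsLocalization M N] (hR : IsCMRing R) : IsCMRing N := by
  have := hR.noeth
  have : IsNoetherianRing N := IsLocalization.isNoetherianRing M N inferInstance
  refine ⟨this, fun P hP => ?_⟩
  have : IsLocalization.AtPrime (Localization.AtPrime P) (P.under R) :=
    IsLocalization.isLocalization_isLocalization_atPrime_isLocalization M _ P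
  exact IsCMLocal.of_isLocalization (P.under R) _ (hR.at_prime _)

end Pool.Agent.H869
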