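import Mathlib
import Pool.Agent.H869.CM

set_option autoImplicit false

namespace Pool.Agent.H869

open RingTheory.Sequence IsLocalRing TensorProduct

/-- passing between localisations -/
lemma localAway_prime {S : Type*} [CommRing S] (p : Ideal S) [p.IsPrime] (f : S) (hf : f ∉ p)
    (Sf : Type*) [CommRing Sf] [Algebra S Sf] [IsLocalization.Away f Sf] :
    ∃ (P : Ideal Sf) (_ : P.IsPrime), P.under S = p ∧
      Nonempty (Localization.AtPrime P ≃ₐ[S] Localization.AtPrime p) := by
  have disj : Disjoint (Submonoid.powers f : Set S) (p : Set S) :=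
    (Ideal.disjoint_powers_iff_notMem_of_isPrime _).mpr hf
  have hP : (p.map (algebraMap S Sf)).IsPrime :=
    IsLocalization.isPrime_of_isPrime_disjoint (.powers f) _ _ ‹_› disj
  have hu : (p.map (algebraMap S Sf)).under S = p :=
    IsLocalization.under_map_of_isPrime_disjoint (.powers f) _ ‹_› disj
  refine ⟨p.map (algebraMap S Sf), hP, hu, ?_⟩
  have : IsLocalization.AtPrime (Localization.AtPrime (p.map (algebraMap S Sf))) p := by
    convert IsLocalization.isLocalization_isLocalization_atPrime_isLocalization (.powers f)
      (Localization.AtPrime (p.map (algebraMap S Sf))) (p.map (algebraMap S Sf))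
    exact hu.symm
  exact ⟨IsLocalization.algEquiv p.primeCompl _ _⟩

theorem IsCMRing.of_smooth {R S : Type*} [CommRing R] [CommRing S] [Algebra R S]
    [Algebra.Smooth R S] (hR : IsCMRing R) : IsCMRing S := by
  have := hR.noeth
  have hN : IsNoetherianRing S := Algebra.FiniteType.isNoetherianRing R S
  refine ⟨hN, fun p hp => ?_⟩
  obtain ⟨f, hfm, n, _, _, _⟩ :=
      Algebra.IsSmoothAt.exists_isStandardEtale_mvPolynomial (R := R) (p := p)
  have h1 : IsCMRing (MvPolynomial (Fin n) R) := hR.mvPolynomial (Fin n)
  have h2 : IsNoetherianRing (Localization.Away f) :=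
    IsLocalization.isNoetherianRing (Submonoid.powers f) _ hN
  have h3 : Algebra.Etale (MvPolynomial (Fin n) R) (Localization.Away f) := inferInstance
  have h4 : IsCMRing (Localization.Away f) := h1.of_flat_quasiFinite
  obtain ⟨P, hP, hu, ⟨e⟩⟩ := localAway_prime p f hfm (Localization.Away f)
  exact (h4.at_prime P).of_ringEquiv e.toRingEquiv

end Pool.Agent.H869
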