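import Mathlib
import Pool.Agent.H869.Smooth

set_option autoImplicit false

namespace Pool.Agent.H869

open IsLocalRing TensorProduct

lemma isField_of_trivial_idem (W : Type*) [CommRing W] [IsArtinianRing W] [IsReduced W]
    [Nontrivial W] (h : ∀ e : W, e * e = e → e = 0 ∨ e = 1) : IsField W := by
  classical
  let E := IsArtinianRing.equivPi W
  refine ⟨exists_pair_ne W, mul_comm, ?_⟩
  intro a ha
  let f : ∀ I : MaximalSpectrum W, W ⧸ I.asIdeal := fun I => if E a I = 0 then 0 else 1
  have hf : f * f = f := by
    ext I
    simp only [f, Pi.mul_apply]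
    split_ifs <;> simp
  have he : E.symm f * E.symm f = E.symm f := by
    rw [← map_mul, hf]
  rcases h _ he with h0 | h1
  · exfalso
    apply ha
    apply E.injective
    rw [map_zero]
    ext I
    have h2 : f = 0 := by
      apply E.symm.injective
      rw [h0, map_zero]
    have h3 := congrFun h2 I
    simp only [f, Pi.zero_apply] at h3
    by_contra hne
    rw [if_neg (by simpa using hne)] at h3
    have : Nontrivial (W ⧸ I.asIdeal) := Ideal.Quotient.nontrivial_iff.2 I.isMaximal.ne_top
    exact one_ne_zero h3
  · have h2 : f = 1 := by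
      apply E.symm.injective
      rw [h1, map_one]
    have h3 : ∀ I, ∃ b, E a I * b = 1 := by
      intro I
      have h4 := congrFun h2 I
      simp only [f, Pi.one_apply] at h4
      have hne : E a I ≠ 0 := by
        intro h5
        rw [if_pos h5] at h4
        have : Nontrivial (W ⧸ I.asIdeal) := Ideal.Quotient.nontrivial_iff.2 I.isMaximal.ne_top
        exact zero_ne_one h4
      let := Ideal.Quotient.field I.asIdeal
      exact ⟨(E a I)⁻¹, mul_inv_cancel₀ hne⟩
    choose b hb using h3
    refine ⟨E.symm b, ?_⟩
    apply E.injective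
    rw [map_mul, map_one, AlgEquiv.apply_symm_apply]
    ext I
    exact hb I

/-- A local ring integrally closed in a reduced Artinian ring is an integrally closed domain. -/
lemma normal_of_integrallyClosedIn {C W : Type*} [CommRing C] [CommRing W] [Algebra C W]
    [IsLocalRing C] [IsArtinianRing W] [IsReduced W]
    (hinj : Function.Injective (algebraMap C W))
    (hint : ∀ x : W, IsIntegral C x → ∃ c, algebraMap C W c = x) :
    IsDomain C ∧ IsIntegrallyClosed C := by
  have hnW : Nontrivial W := hinj.nontrivial
  have hidem : ∀ e : W, e * e = e → e = 0 ∨ e = 1 := by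
    intro e he
    have hi : IsIntegral C e := by
      refine ⟨Polynomial.X ^ 2 - Polynomial.X, ?_, ?_⟩
      · apply Polynomial.monic_X_pow_sub (n := 2)
        simp
      · simp [pow_two, he]
    obtain ⟨c, rfl⟩ := hint e hi
    have hc : c * c = c := hinj (by rw [map_mul, he])
    have h1 : c * (1 - c) = 0 := by rw [mul_sub, hc, mul_one, sub_self]
    rcases IsLocalRing.isUnit_or_isUnit_one_sub_self c with h | h
    · right
      have : 1 - c = 0 := (h.mul_right_eq_zero).1 h1
      rw [sub_eq_zero] at this
      rw [← this, map_one]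
    · left
      have : c = 0 := (h.mul_left_eq_zero).1 h1
      rw [this, map_zero]
  have hF := isField_of_trivial_idem W hidem
  let := hF.toField
  have hdom : IsDomain C := hinj.isDomain (algebraMap C W)
  refine ⟨hdom, ?_⟩
  rw [isIntegrallyClosed_iff (FractionRing C)]
  intro x hx
  let g : FractionRing C →ₐ[C] W := IsFractionRing.liftAlgHom (g := Algebra.ofId C W) hinj
  obtain ⟨c, hc⟩ := hint (g x) (hx.map g)
  refine ⟨c, ?_⟩
  have hg : Function.Injective g := g.toRingHom.injective
  apply hg
  rw [← hc]
  exact g.commutes c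

universe u

lemma isIntegrallyClosed_mvPolynomial {R : Type*} [CommRing R] [IsDomain R]
    [IsIntegrallyClosed R] (n : ℕ) : IsIntegrallyClosed (MvPolynomial (Fin n) R) := by
  induction n with
  | zero => exact IsIntegrallyClosed.of_equiv (MvPolynomial.isEmptyRingEquiv R (Fin 0)).symm
  | succ n ih =>
    exact IsIntegrallyClosed.of_equiv (MvPolynomial.finSuccEquiv R n).toRingEquiv.symm

lemma normal_of_etale {T E : Type u} [CommRing T] [IsDomain T] [IsIntegrallyClosed T]
    [CommRing E] [Algebra T E] [Algebra.Etale T E] (Q : Ideal E) [Q.IsPrime] :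
    IsDomain (Localization.AtPrime Q) ∧ IsIntegrallyClosed (Localization.AtPrime Q) := by
  let L := FractionRing T
  let C := Localization.AtPrime Q
  have h1 : Function.Bijective (TensorProduct.toIntegralClosure T C L) :=
    TensorProduct.toIntegralClosure_bijective_of_tower (S := E)
      TensorProduct.toIntegralClosure_bijective_of_smooth
      (TensorProduct.toIntegralClosure_bijective_of_isLocalization Q.primeCompl)
  have hfl : Module.Flat T C := inferInstance
  have hinj : Function.Injective (algebraMap C (C ⊗[T] L)) := by
    have h2 : Function.Injective (Algebra.linearMap T L) := IsFractionRing.injective T L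
    have h3 := Module.Flat.lTensor_preserves_injective_linearMap (M := C) _ h2
    have h4 : ∀ c : C, algebraMap C (C ⊗[T] L) c =
        LinearMap.lTensor C (Algebra.linearMap T L) ((TensorProduct.rid T C).symm c) := by
      intro c
      simp [Algebra.TensorProduct.algebraMap_apply]
    intro a b hab
    rw [h4, h4] at hab
    exact (TensorProduct.rid T C).symm.injective (h3 hab)
  have hint : ∀ x : C ⊗[T] L, IsIntegral C x → ∃ c, algebraMap C (C ⊗[T] L) c = x := by
    intro x hx
    obtain ⟨z, hz⟩ := h1.2 ⟨x, hx⟩
    have hz' : (Algebra.TensorProduct.map (.id C C) (integralClosure T L).val) z = x :=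
      congrArg Subtype.val hz
    rw [← hz']
    clear hz hz'
    induction z using TensorProduct.induction_on with
    | zero => exact ⟨0, by simp⟩
    | add a b ha hb =>
      obtain ⟨c, hc⟩ := ha
      obtain ⟨d, hd⟩ := hb
      exact ⟨c + d, by rw [map_add, map_add, hc, hd]⟩
    | tmul c t =>
      obtain ⟨y, hy⟩ := IsIntegrallyClosed.algebraMap_eq_of_integral (R := T) t.2
      refine ⟨y • c, ?_⟩
      rw [Algebra.TensorProduct.map_tmul, Algebra.TensorProduct.algebraMap_apply]
      simp only [AlgHom.coe_id, id_eq, Subalgebra.coe_val, ← hy, Algebra.algebraMap_self,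
        RingHom.id_apply]
      rw [TensorProduct.smul_tmul, Algebra.smul_def, mul_one]
  have hfinL : Algebra.EssFiniteType L (L ⊗[T] C) := inferInstance
  have hunrL : Algebra.FormallyUnramified L (L ⊗[T] C) := inferInstance
  have hred : IsReduced (L ⊗[T] C) := Algebra.FormallyUnramified.isReduced_of_field L _
  have hfin : Module.Finite L (L ⊗[T] C) := Algebra.FormallyUnramified.finite_of_free L _
  have hart : IsArtinianRing (L ⊗[T] C) := .of_finite L _
  let e : C ⊗[T] L ≃ₐ[T] L ⊗[T] C := Algebra.TensorProduct.comm T C L
  have hart' : IsArtinianRing (C ⊗[T] L) := e.symm.toRingEquiv.surjective.isArtinianRing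
  have hred' : IsReduced (C ⊗[T] L) := isReduced_of_injective e e.injective
  exact normal_of_integrallyClosedIn hinj hint

theorem normal_of_smooth {R S : Type u} [CommRing R] [IsDomain R] [IsIntegrallyClosed R]
    [CommRing S] [Algebra R S] [Algebra.Smooth R S] (p : Ideal S) [p.IsPrime] :
    IsDomain (Localization.AtPrime p) ∧ IsIntegrallyClosed (Localization.AtPrime p) := by
  obtain ⟨f, hfm, n, _, _, _⟩ :=
      Algebra.IsSmoothAt.exists_isStandardEtale_mvPolynomial (R := R) (p := p)
  have h1 : IsIntegrallyClosed (MvPolynomial (Fin n) R) := isIntegrallyClosed_mvPolynomial n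
  have h3 : Algebra.Etale (MvPolynomial (Fin n) R) (Localization.Away f) := inferInstance
  obtain ⟨P, hP, hu, ⟨e⟩⟩ := localAway_prime p f hfm (Localization.Away f)
  obtain ⟨h4, h5⟩ := normal_of_etale (T := MvPolynomial (Fin n) R) P
  exact ⟨MulEquiv.isDomain _ e.symm.toMulEquiv, IsIntegrallyClosed.of_equiv e.toRingEquiv⟩

end Pool.Agent.H869
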