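import Mathlib
import Pool.Agent.H869.CM
import Pool.Agent.H869.Smooth

set_option autoImplicit false
set_option linter.style.haveILetI false

/-!
Descent of the Cohen–Macaulay property and of normality along flat local homomorphisms.
-/

universe u

namespace Pool.Agent.H869

open RingTheory.Sequence IsLocalRing CategoryTheory Abelian Limits

lemma smul_top_quot_ne_top {R M : Type*} [CommRing R] [AddCommGroup M]
    [Module R M] {I : Ideal R} {r : R} (hr : r ∈ I)
    (hI : I • (⊤ : Submodule R M) ≠ ⊤) :
    I • (⊤ : Submodule R (QuotSMulTop r M)) ≠ ⊤ := by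
  by_contra eq
  absurd congrArg (Submodule.comap (Submodule.mkQ _)) eq
  simpa [Submodule.comap_smul_top_of_surjective I _ (Submodule.mkQ_surjective _),
    Submodule.smul_mono_left ((Ideal.span_singleton_le_iff_mem I).mpr hr),
    ← Submodule.ideal_span_singleton_smul] using hI

lemma exists_isRegular_quot {S : Type u} [CommRing S] [IsNoetherianRing S] (I : Ideal S)
    (M : Type u) [AddCommGroup M] [Module S M] [Module.Finite S M]
    (hI : I • (⊤ : Submodule S M) ≠ ⊤) (x : S) (hx : x ∈ I) (hxM : IsSMulRegular M x) (n : ℕ)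
    (h : ∃ rs : List S, rs.length = n + 1 ∧ (∀ r ∈ rs, r ∈ I) ∧ IsRegular M rs) :
    ∃ rs : List S, rs.length = n ∧ (∀ r ∈ rs, r ∈ I) ∧ IsRegular (QuotSMulTop x M) rs := by
  have hI' := smul_top_quot_ne_top hx hI
  have h1 := ((ModuleCat.exists_isRegular_tfae I (n + 1) (ModuleCat.of S M) hI.lt_top).out 3 1).1 h
  refine ((ModuleCat.exists_isRegular_tfae I n (ModuleCat.of S (QuotSMulTop x M))
    hI'.lt_top).out 3 1).2 ?_
  intro i hi
  let N := ModuleCat.of S (Shrink.{u} (S ⧸ I))
  have zero1 := AddCommGrpCat.isZero_of_iff_subsingleton.mpr (h1 i (by omega))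
  have zero2 := AddCommGrpCat.isZero_of_iff_subsingleton.mpr (h1 (i + 1) (by omega))
  have hs := IsSMulRegular.smulShortComplex_shortExact (M := ModuleCat.of S M) hxM
  exact AddCommGrpCat.subsingleton_of_isZero <| ShortComplex.Exact.isZero_of_both_zeros
    ((Ext.covariant_sequence_exact₃' N hs) i (i + 1) rfl)
    (zero1.eq_zero_of_src _) (zero2.eq_zero_of_tgt _)

/-- A regular sequence shorter than some other one can be extended. -/
lemma exists_isWeaklyRegular_append {S : Type u} [CommRing S] [IsNoetherianRing S] (I : Ideal S)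
    (rs : List S) : ∀ (M : Type u) [AddCommGroup M] [Module S M] [Module.Finite S M]
    (_ : I • (⊤ : Submodule S M) ≠ ⊤) (_ : ∀ r ∈ rs, r ∈ I) (_ : IsWeaklyRegular M rs) (n : ℕ)
    (_ : rs.length < n)
    (_ : ∃ rs : List S, rs.length = n ∧ (∀ r ∈ rs, r ∈ I) ∧ IsRegular M rs),
    ∃ y ∈ I, IsWeaklyRegular M (rs ++ [y]) := by
  induction rs with
  | nil =>
    intro M _ _ _ hI hr hw n hn h
    obtain ⟨ss, hlen, hmem, hss⟩ := h
    cases ss with
    | nil => simp at hlen; simp [← hlen] at hn
    | cons y ss =>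
      refine ⟨y, hmem y List.mem_cons_self, ?_⟩
      have := (isRegular_cons_iff M y ss).1 hss
      rw [List.nil_append, isWeaklyRegular_cons_iff]
      exact ⟨this.1, IsWeaklyRegular.nil _ _⟩
  | cons x rs ih =>
    intro M _ _ _ hI hr hw n hn h
    rw [isWeaklyRegular_cons_iff] at hw
    obtain ⟨n, rfl⟩ : ∃ m, n = m + 1 := ⟨n - 1, by simp at hn; omega⟩
    have h2 := exists_isRegular_quot I M hI x (hr x List.mem_cons_self) hw.1 n h
    obtain ⟨y, hy, hy2⟩ := ih (QuotSMulTop x M)
      (smul_top_quot_ne_top (hr x List.mem_cons_self) hI)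
      (fun r h => hr r (List.mem_cons_of_mem _ h)) hw.2 n (by simpa using hn) h2
    refine ⟨y, hy, ?_⟩
    rw [List.cons_append, isWeaklyRegular_cons_iff]
    exact ⟨hw.1, hy2⟩

lemma append_iff {A : Type*} [CommRing A] (rs : List A) (h : IsWeaklyRegular A rs) (y : A) :
    IsWeaklyRegular A (rs ++ [y]) ↔ ∀ a, y * a ∈ Ideal.ofList rs → a ∈ Ideal.ofList rs := by
  rw [isWeaklyRegular_append_iff, isWeaklyRegular_singleton_iff,
    isSMulRegular_on_quot_iff_lsmul_comap_le]
  have e : (Ideal.ofList rs • (⊤ : Submodule A A)) = Ideal.ofList rs := by simp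
  rw [e]
  constructor
  · rintro ⟨_, h2⟩ a ha
    exact h2 ha
  · intro h2
    exact ⟨h, fun a ha => h2 a ha⟩

lemma exists_socle {A : Type*} [CommRing A] [IsLocalRing A] [IsNoetherianRing A] (rs : List A)
    (h : IsWeaklyRegular A rs)
    (hmax : ∀ y ∈ maximalIdeal A, ¬ IsWeaklyRegular A (rs ++ [y])) :
    ∃ z, z ∉ Ideal.ofList rs ∧ ∀ a ∈ maximalIdeal A, a * z ∈ Ideal.ofList rs := by
  by_contra hcon
  push Not at hcon
  have hs : Subsingleton ((A ⧸ maximalIdeal A) →ₗ[A] (A ⧸ Ideal.ofList rs)) := by
    refine subsingleton_of_forall_eq 0 fun f => ?_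
    obtain ⟨z, hz⟩ := Ideal.Quotient.mk_surjective (f 1)
    have h1 : z ∈ Ideal.ofList rs := by
      by_contra hz2
      obtain ⟨a, ha, ha2⟩ := hcon z hz2
      apply ha2
      rw [← Ideal.Quotient.eq_zero_iff_mem, map_mul, hz]
      have h3 : a • f 1 = f (a • 1) := (map_smul f a 1).symm
      have h4 : a • (1 : A ⧸ maximalIdeal A) = 0 := by
        rw [Algebra.smul_def, mul_one]
        exact Ideal.Quotient.eq_zero_iff_mem.2 ha
      rw [h4, map_zero] at h3
      exact h3
    rw [← Ideal.Quotient.eq_zero_iff_mem, hz] at h1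
    ext
    simpa using! h1
  obtain ⟨y, hy, hy2⟩ := IsSMulRegular.subsingleton_linearMap_iff.1 hs
  rw [Ideal.annihilator_quotient] at hy
  apply hmax y hy
  rw [append_iff rs h]
  intro a ha
  rw [← Ideal.Quotient.eq_zero_iff_mem]
  apply hy2
  change y • _ = y • (0 : A ⧸ Ideal.ofList rs)
  rw [smul_zero]
  exact Ideal.Quotient.eq_zero_iff_mem.2 ha

lemma eq_maximal_of_length {A : Type*} [CommRing A] [IsLocalRing A] [IsNoetherianRing A]
    (rs : List A) (hrs : IsRegular A rs) (hlen : (rs.length : WithBot ℕ∞) = ringKrullDim A)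
    (P : Ideal A) (hP : P.IsPrime) (hle : Ideal.ofList rs ≤ P) : P = maximalIdeal A := by
  have h3 := ringKrullDim_add_length_eq_ringKrullDim_of_isRegular rs hrs
  have hne : Ideal.ofList rs ≠ ⊤ := fun h => hP.ne_top (top_le_iff.1 (h ▸ hle))
  have : Nontrivial (A ⧸ Ideal.ofList rs) := Ideal.Quotient.nontrivial_iff.2 hne
  have h0 : ringKrullDim (A ⧸ Ideal.ofList rs) = 0 := by
    rw [← hlen] at h3
    have h6 : ringKrullDim (A ⧸ Ideal.ofList rs) + rs.length = 0 + rs.length := by
      rw [zero_add]
      exact h3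
    exact ENat.WithBot.add_natCast_cancel.1 h6
  rw [← ringKrullDimZero_iff_ringKrullDim_eq_zero, Ring.krullDimLE_zero_iff] at h0
  have h5 : (P.map (Ideal.Quotient.mk (Ideal.ofList rs))).IsPrime :=
    Ideal.map_isPrime_of_surjective Ideal.Quotient.mk_surjective (by
      rw [Ideal.mk_ker]; exact hle)
  have h6 := h0 _ h5
  have h7 : P = (P.map (Ideal.Quotient.mk (Ideal.ofList rs))).comap
      (Ideal.Quotient.mk (Ideal.ofList rs)) := by
    rw [Ideal.comap_map_of_surjective _ Ideal.Quotient.mk_surjective, ← RingHom.ker_eq_comap_bot,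
      Ideal.mk_ker, sup_eq_left.2 hle]
  have h8 : P.IsMaximal := by
    rw [h7]
    exact Ideal.comap_isMaximal_of_surjective _ Ideal.Quotient.mk_surjective
  exact IsLocalRing.eq_maximalIdeal h8

lemma mem_maximal_of_isRegular {C : Type*} [CommRing C] [IsLocalRing C] (rs : List C)
    (h : IsRegular C rs) : ∀ r ∈ rs, r ∈ maximalIdeal C := by
  intro r hr
  by_contra hcon
  have hu : IsUnit r := by simpa using hcon
  apply h.2
  have : Ideal.ofList rs = ⊤ := by
    rw [Ideal.eq_top_iff_one]
    obtain ⟨u, rfl⟩ := hu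
    have h1 : (u : C) ∈ Ideal.ofList rs := Ideal.subset_span hr
    simpa using (Ideal.ofList rs).mul_mem_left (↑u⁻¹ : C) h1
  rw [this]; simp

/-- descent of the Cohen–Macaulay property along flat local maps with `m_A C = m_C` -/
theorem IsCMLocal.descend {A C : Type u} [CommRing A] [CommRing C] [Algebra A C] [Module.Flat A C]
    [IsLocalRing A] [IsLocalRing C] [IsLocalHom (algebraMap A C)] [IsNoetherianRing A]
    (hm : (maximalIdeal A).map (algebraMap A C) = maximalIdeal C)
    (hC : IsCMLocal C) : IsCMLocal A := by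
  have := hC.noeth
  have : Module.FaithfullyFlat A C := Module.FaithfullyFlat.of_flat_of_isLocalHom
  obtain ⟨ss, hss, hlen⟩ := hC.exists_reg
  have hne : maximalIdeal C • (⊤ : Submodule C C) ≠ ⊤ := by
    simpa using (maximalIdeal.isMaximal C).ne_top
  have key : ∀ m ≤ ss.length, ∃ rs : List A, rs.length = m ∧ (∀ r ∈ rs, r ∈ maximalIdeal A) ∧
      IsWeaklyRegular A rs := by
    intro m
    induction m with
    | zero => intro _; exact ⟨[], rfl, by simp, IsWeaklyRegular.nil _ _⟩
    | succ m ih =>
      intro hm2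
      obtain ⟨rs, h1, h2, h3⟩ := ih (by omega)
      by_cases hex : ∃ y ∈ maximalIdeal A, IsWeaklyRegular A (rs ++ [y])
      · obtain ⟨y, hy, hy2⟩ := hex
        refine ⟨rs ++ [y], by simp [h1], ?_, hy2⟩
        intro r hr
        rcases List.mem_append.1 hr with hr | hr
        · exact h2 r hr
        · rw [List.mem_singleton.1 hr]
          exact hy
      · exfalso
        push Not at hex
        obtain ⟨z, hz1, hz2⟩ := exists_socle rs h3 hex
        have h3' : IsWeaklyRegular C (rs.map (algebraMap A C)) := IsWeaklyRegular.of_flat (S := C) h3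
        obtain ⟨y, hy, hy2⟩ := exists_isWeaklyRegular_append (maximalIdeal C)
          (rs.map (algebraMap A C)) C hne (by
            intro r' hr'
            obtain ⟨r, hr, rfl⟩ := List.mem_map.1 hr'
            rw [← hm]
            exact Ideal.mem_map_of_mem _ (h2 r hr)) h3' ss.length
          (by rw [List.length_map, h1]; omega)
          ⟨ss, rfl, mem_maximal_of_isRegular ss hss, hss⟩
        rw [append_iff _ h3', ← Ideal.map_ofList] at hy2
        apply hz1
        have h5 : algebraMap A C z ∈ (Ideal.ofList rs).map (algebraMap A C) := by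
          apply hy2
          have h6 : y ∈ (maximalIdeal A).map (algebraMap A C) := by rw [hm]; exact hy
          have h7 : (maximalIdeal A).map (algebraMap A C) ≤
              ((Ideal.ofList rs).map (algebraMap A C)).colon {algebraMap A C z} := by
            rw [Ideal.map_le_iff_le_comap]
            intro a ha
            rw [Ideal.mem_comap, Submodule.mem_colon_singleton, smul_eq_mul, ← map_mul]
            exact Ideal.mem_map_of_mem _ (hz2 a ha)
          have h8 := h7 h6
          rwa [Submodule.mem_colon_singleton, smul_eq_mul] at h8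
        rw [← Ideal.mem_comap, Ideal.comap_map_eq_self_of_faithfullyFlat] at h5
        exact h5
  obtain ⟨rs, h1, h2, h3⟩ := key ss.length le_rfl
  have hle : Ideal.ofList rs ≤ maximalIdeal A := Ideal.span_le.2 h2
  have hreg : IsRegular A rs := by
    refine ⟨h3, ?_⟩
    intro h
    have h4 : Ideal.ofList rs = ⊤ := by simpa using h.symm
    exact (maximalIdeal.isMaximal A).ne_top (top_le_iff.1 (h4 ▸ hle))
  refine IsCMLocal.of_regular rs hreg ?_
  intro P hP hPle
  have h6 := eq_maximal_of_length (rs.map (algebraMap A C)) (hreg.of_faithfullyFlat (S := C))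
    (by rw [List.length_map, h1, hlen])
  obtain ⟨⟨Q, hQ⟩, hQP⟩ := PrimeSpectrum.comap_surjective_of_faithfullyFlat (A := A) (B := C) ⟨P, hP⟩
  have hQP' : Q.comap (algebraMap A C) = P := congrArg PrimeSpectrum.asIdeal hQP
  have h7 := h6 Q hQ (by
    rw [← Ideal.map_ofList, Ideal.map_le_iff_le_comap, hQP']
    exact hPle)
  rw [← hQP', h7]
  exact IsLocalRing.maximalIdeal_comap (algebraMap A C)

lemma isDomain_descend {A C : Type*} [CommRing A] [CommRing C] [Algebra A C]
    [Module.FaithfullyFlat A C] [IsDomain C] : IsDomain A :=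
  (FaithfulSMul.algebraMap_injective A C).isDomain (algebraMap A C)

lemma isIntegrallyClosed_descend {A C : Type*} [CommRing A] [CommRing C] [Algebra A C]
    [Module.FaithfullyFlat A C] [IsDomain A] [IsDomain C] [IsIntegrallyClosed C] :
    IsIntegrallyClosed A := by
  have hinj : Function.Injective (algebraMap A C) := FaithfulSMul.algebraMap_injective A C
  rw [isIntegrallyClosed_iff (FractionRing A)]
  intro x hx
  obtain ⟨a, b, hb, rfl⟩ := IsFractionRing.div_surjective (A := A) x
  have hb0 : b ≠ 0 := nonZeroDivisors.ne_zero hb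
  let φ : FractionRing A →+* FractionRing C := IsFractionRing.map hinj
  have hφ : ∀ a : A, φ (algebraMap A _ a) = algebraMap C _ (algebraMap A C a) := fun a =>
    IsLocalization.map_eq _ a
  have h1 : IsIntegral C (φ (algebraMap A _ a / algebraMap A _ b)) := by
    refine IsIntegral.map_of_comp_eq (algebraMap A C) φ ?_ hx
    ext a
    simp [hφ]
  obtain ⟨s, hs⟩ := (isIntegrallyClosed_iff (FractionRing C)).1 inferInstance h1
  rw [map_div₀, hφ, hφ] at hs
  have hb1 : algebraMap C (FractionRing C) (algebraMap A C b) ≠ 0 := by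
    rw [Ne, FaithfulSMul.algebraMap_eq_zero_iff, map_eq_zero_iff _ hinj]
    exact hb0
  rw [eq_div_iff hb1, ← map_mul] at hs
  have h2 : s * algebraMap A C b = algebraMap A C a := IsFractionRing.injective C _ hs
  have h3 : a ∈ ((Ideal.span {b}).map (algebraMap A C)).comap (algebraMap A C) := by
    rw [Ideal.mem_comap, ← h2]
    exact Ideal.mul_mem_left _ _ (Ideal.mem_map_of_mem _ (Ideal.mem_span_singleton_self b))
  rw [Ideal.comap_map_eq_self_of_faithfullyFlat, Ideal.mem_span_singleton] at h3
  obtain ⟨c, rfl⟩ := h3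
  refine ⟨c, ?_⟩
  rw [eq_div_iff (by
    rw [Ne, FaithfulSMul.algebraMap_eq_zero_iff]
    exact hb0), ← map_mul, mul_comm]

/-- normal Cohen–Macaulay local domains -/
structure NCM (A : Type*) [CommRing A] : Prop where
  dom : IsDomain A
  ic : IsIntegrallyClosed A
  cm : IsCMLocal A

lemma NCM.of_ringEquiv {A A' : Type*} [CommRing A] [CommRing A'] (e : A ≃+* A') (h : NCM A) :
    NCM A' := by
  obtain ⟨h1, h2, h3⟩ := h
  have h4 : IsDomain A' := e.symm.injective.isDomain e.symm.toRingHom
  refine ⟨h4, ?_, h3.of_ringEquiv e⟩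
  exact IsIntegrallyClosed.of_equiv e

/-- descent of normal Cohen–Macaulay local domains -/
theorem NCM.descend {A C : Type u} [CommRing A] [CommRing C] [Algebra A C] [Module.Flat A C]
    [IsLocalRing A] [IsLocalRing C] [IsLocalHom (algebraMap A C)] [IsNoetherianRing A]
    (hm : (maximalIdeal A).map (algebraMap A C) = maximalIdeal C)
    (hC : NCM C) : NCM A := by
  obtain ⟨h1, h2, h3⟩ := hC
  have : Module.FaithfullyFlat A C := Module.FaithfullyFlat.of_flat_of_isLocalHom
  have h4 : IsDomain A := isDomain_descend (C := C)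
  exact ⟨h4, isIntegrallyClosed_descend (C := C), h3.descend hm⟩

/-- all localisations at primes are normal Cohen–Macaulay domains -/
def Good (R : Type*) [CommRing R] : Prop :=
  ∀ (p : Ideal R) [p.IsPrime], NCM (Localization.AtPrime p)

lemma Good.of_ringEquiv {R R' : Type*} [CommRing R] [CommRing R'] (e : R ≃+* R')
    (h : Good R) : Good R' := fun p hp =>
  NCM.of_ringEquiv (IsLocalization.ringEquivOfRingEquiv
    (Localization.AtPrime (p.comap e)) (Localization.AtPrime p) e (e.map_primeCompl_comap_eq p))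
    (h _)

/-- localisation of a good ring at a submonoid -/
lemma Good.of_isLocalization {R N : Type*} [CommRing R] [CommRing N] [Algebra R N]
    (M : Submonoid R) [IsLocalization M N] (hR : Good R) : Good N := by
  intro P hP
  have h1 : IsLocalization.AtPrime (Localization.AtPrime P) (P.under R) :=
    IsLocalization.isLocalization_isLocalization_atPrime_isLocalization M
      (Localization.AtPrime P) P
  exact (hR (P.under R)).of_ringEquiv (IsLocalization.algEquiv (P.under R).primeCompl
    (Localization.AtPrime (P.under R)) (Localization.AtPrime P)).toRingEquiv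

lemma NCM.of_away {R : Type*} [CommRing R] (f : R) {N : Type*} [CommRing N] [Algebra R N]
    [IsLocalization.Away f N] (hN : Good N) (p : Ideal R) [p.IsPrime] (hf : f ∉ p) :
    NCM (Localization.AtPrime p) := by
  obtain ⟨P, hP, h1, ⟨e⟩⟩ := localAway_prime p f hf N
  exact (hN P).of_ringEquiv e.toRingEquiv

end Pool.Agent.H869
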