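import Mathlib

set_option autoImplicit false

/-!
The multiplication table of the homogeneous coordinate ring of the Grassmannian `Gr(2, 6)` over the
polynomial ring on nine rank sums of Plücker coordinates (14 basis elements), as data, and the
kernel checks that the six multiplication matrices commute and satisfy the Plücker relations, and
that the table holds in the coordinate ring.
-/

namespace Pool.Agent.H869.GrTab

/-- integer polynomials in variables indexed by primes: lists of (code of the monomial,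
coefficient) -/
abbrev Poly := List (ℕ × ℤ)

/-- product -/
def pmul (p q : Poly) : Poly := p.flatMap fun x => q.map fun y => (x.1 * y.1, x.2 * y.2)

/-- negative -/
def pneg (p : Poly) : Poly := p.map fun x => (x.1, -x.2)

/-- search trees -/
inductive Tr where
  | nil : Tr
  | node : Tr → ℕ → ℤ → Tr → Tr

/-- insertion -/
def Tr.ins : Tr → ℕ → ℤ → Tr
  | .nil, m, c => .node .nil m c .nil
  | .node l m' c' r, m, c =>
    if m = m' then .node l m' (c + c') r
    else if m < m' then .node (l.ins m c) m' c' r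
    else .node l m' c' (r.ins m c)

/-- all coefficients vanish -/
def Tr.allZ : Tr → Bool
  | .nil => true
  | .node l _ c r => l.allZ && (decide (c = 0) && r.allZ)

/-- vanishing test -/
def isZ (L : Poly) : Bool := (L.foldl (fun (T : Tr) (x : ℕ × ℤ) => T.ins x.1 x.2) Tr.nil).allZ

/-- the six matrices (rows of lists of polynomials) -/
def data : List (List (List Poly)) := [
  [[[], [(22, 1), (21, -1)], [(26, 1)], [], [], [], [], [(114, -1), (170, -1), (182, 1), (153, 1)], [(190, -1)], [], [(230, -1), (207, 1), (285, -1)], [(322, -1)], [], [(1564, -1), (1444, 1), (1794, -2), (1938, -1), (2530, 1), (2470, -1), (2254, -1), (2277, -1), (2223, 1)]],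
    [[(1, 1)], [(5, 1)], [], [], [], [], [], [(34, 1), (39, -1)], [(38, 1)], [(46, -1)], [(46, 1), (57, 1)], [], [], [(506, -1), (494, 2), (483, 1)]],
    [[], [(3, 1)], [(5, 1)], [], [], [], [], [(26, -1), (33, 1)], [], [(38, 1)], [], [(46, 1)], [], [(322, 1), (418, -1), (345, -2), (399, 1)]],
    [[], [(2, -1)], [], [(5, 1)], [], [], [], [(21, -1)], [], [(34, -1)], [(39, 1)], [], [], [(266, 1), (207, 1), (357, -1)]],
    [[], [(2, -1)], [(3, -1)], [], [], [], [], [(21, -1)], [], [], [], [(38, 1)], [], [(230, -1), (266, 1), (207, 3)]],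
    [[], [], [(2, -1)], [(3, -1)], [], [], [], [(14, -1)], [(21, -1)], [], [(33, -1)], [(34, -1)], [], [(138, 1), (190, 1), (238, -1), (171, -1)]],
    [[], [], [], [(2, 1)], [], [], [], [(10, 1), (9, -1)], [(14, 1)], [(22, 1), (21, -1)], [(21, 1)], [(26, 1)], [], [(92, 2), (182, 1)]],
    [[], [], [], [], [(1, 1)], [], [], [(5, 1)], [], [], [], [], [], [(46, 2), (57, -2)]],
    [[], [], [], [], [], [(1, 1)], [], [(3, 2)], [(5, 1)], [], [], [], [], [(38, -3), (51, 2)]],
    [[], [], [], [], [], [], [(1, 1)], [(2, -1)], [], [(5, 1)], [], [], [], [(39, -1)]],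
    [[], [], [], [], [], [], [], [(2, 1)], [(3, 1)], [], [(5, 1)], [], [], [(34, 1)]],
    [[], [], [], [], [], [], [], [], [(2, -1)], [(3, 1)], [(3, -2)], [(5, 1)], [], [(26, -1), (33, 1)]],
    [[], [], [], [], [], [], [], [], [], [(2, -1)], [(2, 1)], [(3, -1)], [], [(21, -1)]],
    [[], [], [], [], [], [], [], [], [], [], [], [], [(1, 1)], [(5, 1)]]],
  [[[], [(26, 1)], [(34, 1)], [(38, 1)], [(38, -1), (51, 1)], [], [], [(190, -2), (273, 1)], [(230, -1), (207, 1), (285, -1)], [(322, -1)], [(322, 1), (418, 1), (399, -1)], [(506, -1), (494, 1)], [(598, -2), (759, -1), (741, 1)], [(2166, 2), (2990, -2), (3458, -1), (2907, -2), (3381, -1)]],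
    [[], [], [], [], [(13, -1)], [], [], [(38, 1), (51, 1), (65, -1)], [(46, 1), (57, 1)], [], [(69, 1)], [], [(161, 1)], [(598, -1), (759, -1), (741, 3), (805, 1)]],
    [[(1, 1)], [(5, 1)], [(7, 1)], [], [(11, 1)], [], [], [(39, -1), (55, 1)], [], [(46, 1)], [(46, -1), (57, 1)], [], [(115, -2), (133, 1)], [(506, 1), (494, 1), (483, 1), (627, -2), (575, -2), (665, 1)]],
    [[], [], [], [(7, 1)], [(7, -1)], [], [], [(26, 1), (35, -1)], [(39, 1)], [], [(38, -1), (65, 1)], [(46, 1)], [(69, 1), (119, -1)], [(322, -1), (442, 1), (345, 1), (399, 2), (595, -1)]],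
    [[], [(3, -1)], [], [], [], [], [], [(26, 1), (33, -1)], [], [(38, 1)], [(38, -2)], [(46, 1)], [(69, 3)], [(322, -1), (418, 1), (345, 2), (399, 1)]],
    [[], [(2, -1)], [], [], [], [], [], [(22, -1), (21, -1)], [(33, -1)], [(34, -1)], [(34, 2), (39, -1)], [(38, -1)], [(46, 2), (57, -1)], [(230, 2), (266, 1), (374, -1), (207, -1), (357, -1)]],
    [[], [], [(2, -1)], [], [(3, -1)], [], [], [(14, 1)], [(21, 1)], [(26, 1)], [(26, -1)], [], [(38, -1)], [(138, 1), (190, -2), (238, 1), (171, 2), (273, 1)]],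
    [[], [], [(1, -1)], [], [], [], [], [], [], [], [], [], [(19, -2)], [(69, 3), (95, -2)]],
    [[], [], [], [(1, -1)], [(1, 2)], [], [], [(5, 2)], [], [], [(11, -1)], [], [(17, 2)], [(46, 2), (57, -5), (85, 2)]],
    [[], [], [], [], [], [], [], [(3, -1)], [], [], [(7, 1)], [], [(13, -1)], [(38, 1), (65, -1)]],
    [[], [], [], [], [], [(1, 1)], [], [(3, 2)], [(5, 1)], [], [(7, 1)], [], [], [(38, -2), (51, 2)]],
    [[], [], [], [], [], [], [(1, 1)], [(2, -2)], [(3, -2)], [(5, 1)], [(5, -2)], [(7, 1)], [(11, 1)], [(34, -2), (39, -1), (55, 1)]],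
    [[], [], [], [], [], [], [], [], [(2, 1)], [(3, -1)], [(3, 2)], [], [], [(26, 1), (33, -1)]],
    [[], [], [], [], [], [], [], [], [], [], [], [(1, -1)], [], []]],
  [[[], [], [(38, 1)], [(46, 1), (57, 1)], [(46, -1)], [(69, 1)], [], [(230, -1), (207, 1), (285, -1)], [(322, 1)], [(506, 1), (494, -1), (483, -1)], [(506, 1)], [(598, 1)], [(782, -1), (722, 1), (969, -1)], [(2622, -1), (3910, -2), (3610, 2), (4186, 1), (3519, 2), (4845, -1), (5187, -1)]],
    [[], [], [], [], [], [], [(23, 1)], [(57, 1)], [(69, 1)], [(115, 1)], [], [], [(247, 1)], [(782, 1), (722, -1), (897, -1), (1235, 1)]],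
    [[], [], [], [], [], [], [(19, -1)], [], [(46, -1)], [(69, 1), (95, -1)], [(69, 1)], [(115, 1), (133, -1)], [(209, -1)], [(598, -1), (759, 1), (741, 1), (1045, -1)]],
    [[(1, 1)], [(5, 1)], [(7, 1)], [(11, 1)], [], [(13, 1)], [(17, 1)], [(39, 1)], [(65, 1)], [(46, -1), (85, 1)], [(46, -1), (91, 1)], [(119, 1)], [(133, 1)], [(494, -1), (483, -1), (663, 1), (665, 1)]],
    [[], [], [], [], [], [], [], [], [(38, -1)], [(46, -1), (57, 1)], [(46, -1)], [(69, -1)], [], [(494, -1), (483, -1), (627, 1)]],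
    [[], [(3, -1)], [], [], [], [], [], [(33, -1)], [(34, 1), (39, -1)], [(38, 1), (51, -1)], [(38, 1)], [(46, -1)], [], [(322, -1), (418, 1), (399, 1), (561, -1)]],
    [[], [(2, 1)], [], [], [], [], [], [(21, 1)], [], [(34, 1)], [], [(38, 1)], [(57, 1)], [(230, 1), (266, -1), (207, -1), (357, 1)]],
    [[], [], [], [], [], [], [], [], [], [], [], [(19, 1)], [(23, 1)], [(115, 1)]],
    [[], [], [(1, -1)], [], [], [], [], [], [], [], [(13, -1)], [(17, -1)], [(19, -2)], [(69, 2), (95, -2)]],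
    [[], [], [], [(1, -1)], [], [], [], [], [], [], [], [], [], [(46, -1), (57, 1)]],
    [[], [], [], [(1, -1)], [(1, 1)], [], [], [(5, 1)], [], [], [], [], [(17, 1)], [(46, 1), (57, -2), (85, 1)]],
    [[], [], [], [], [], [(1, -1)], [], [(3, -2)], [(5, -1)], [], [(7, -1)], [], [], [(38, 2), (51, -2)]],
    [[], [], [], [], [], [], [], [(2, 1)], [(3, 1)], [], [], [], [], [(34, 1)]],
    [[], [], [], [], [], [], [], [], [], [], [(1, 1)], [], [], []]],
  [[[], [], [(38, -1), (51, 1)], [(46, -1)], [(46, 1), (85, 1), (91, -1)], [(69, -1), (95, 1)], [], [(230, 2), (374, -1), (338, 1), (207, -2), (285, 2), (357, 1)], [(322, -2), (418, -1), (399, 1)], [], [(506, -2)], [(598, -2), (759, -1), (741, 1)], [(782, 2), (722, -2), (969, 2), (1265, -1), (1235, 1), (1127, 1)], [(2622, 3), (3910, 5), (3610, -5), (4186, -5), (5566, 1), (5434, -1), (3519, -5), (4845, 2), (5313, -1), (5187, 3)]],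
    [[], [], [(13, -1)], [], [(17, -1)], [(19, -1)], [], [(46, -2), (57, -2), (91, -1)], [(69, -1)], [], [], [(161, 1)], [(253, 1), (247, -3)], [(782, -3), (722, 3), (897, 3), (1235, -2), (1127, 1)]],
    [[], [], [(11, 1)], [], [(13, 1)], [], [], [(38, 1), (51, -1), (65, 1)], [(46, 2), (57, -1)], [], [(69, -1)], [(115, -2), (133, 1)], [(161, -1), (209, 2)], [(598, 4), (759, -2), (741, -3), (805, -1), (1045, 2)]],
    [[], [], [(7, -1)], [], [], [(13, -1)], [], [(39, -2)], [(38, 1), (65, -1)], [], [(46, 2), (91, -1)], [(69, 1), (119, -1)], [(133, -2)], [(506, -1), (494, 3), (483, 3), (663, -2), (665, -2)]],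
    [[(1, 1)], [], [], [], [(11, 1)], [], [], [(34, 1), (39, -1)], [(38, 3)], [], [(46, 2), (57, 1)], [(69, 3)], [(115, 1), (133, -1)], [(506, -1), (494, 4), (483, 4), (627, -2)]],
    [[], [], [], [], [(7, 1)], [(11, 1)], [], [(26, -1), (33, 2)], [(34, -2), (39, 1)], [], [(38, -1)], [(46, 2), (57, -1)], [(69, 1), (95, -1), (119, 1)], [(322, 4), (418, -2), (442, -1), (399, -3), (561, 2)]],
    [[], [], [(3, -1)], [], [(5, -1)], [(7, -1)], [], [(22, 1), (21, -3)], [(26, 1)], [], [], [(38, -1)], [(46, -2), (57, -2), (91, -1)], [(230, -3), (266, 3), (338, 1), (207, 3), (357, -2)]],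
    [[], [(1, 1)], [], [], [], [], [], [(11, 1)], [], [], [], [(19, -2)], [(23, -3)], [(115, -2), (133, -1)]],
    [[], [], [(1, 2)], [], [], [], [], [(7, 1)], [(11, 1)], [], [(13, 1)], [(17, 2)], [(19, 5)], [(69, -5), (95, 4), (119, 1)]],
    [[], [], [], [], [(1, 1)], [], [], [], [(7, -1)], [], [], [(13, -1)], [], [(46, 1), (57, -2), (91, -1)]],
    [[], [], [], [(1, 1)], [(1, -2)], [], [], [(5, -2)], [], [], [(11, 1)], [], [(17, -2)], [(46, -3), (57, 5), (85, -2)]],
    [[], [], [], [], [], [(1, 2)], [], [(3, 5)], [(5, 2)], [], [(7, 1)], [(11, 1)], [(13, 1)], [(38, -5), (51, 4), (65, 1)]],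
    [[], [], [], [], [], [], [(1, 1)], [(2, -3)], [(3, -2)], [], [], [], [(11, 1)], [(34, -2), (39, -1)]],
    [[], [], [], [], [], [], [], [], [], [(1, 1)], [(1, -2)], [], [], [(11, 1)]]],
  [[[], [], [], [(69, 1)], [(69, -1), (95, 1)], [(115, 1)], [(161, 1)], [(322, -2), (418, -1), (399, 1)], [(506, -1), (483, 1)], [(598, -1)], [(598, 1), (759, 1), (741, -1)], [(782, -1), (722, 1), (969, -1)], [(1173, -2), (1729, 1)], [(5474, -2), (6422, -1), (3933, 2), (5415, -2), (6279, -1)]],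
    [[], [], [], [], [(19, -1)], [(23, -1)], [], [(69, -1)], [], [(161, 1)], [(161, -1)], [(247, 1)], [(299, 1)], [(874, 1), (1173, -2), (1083, 2), (1495, 1), (1729, 1)]],
    [[], [], [], [], [], [], [(23, -1)], [(46, 2), (57, -1)], [(69, -1)], [(115, -1)], [(115, 2), (133, -1)], [(209, -1)], [(253, -1), (247, -1)], [(782, 2), (722, -1), (897, 1), (1265, -1), (1235, -1)]],
    [[], [], [], [(13, 1)], [(13, -1)], [], [], [(38, 1), (65, -1)], [(46, 1)], [], [(69, -1), (119, 1)], [(133, 1)], [(161, 1), (221, -1)], [(598, -1), (646, 1), (741, 2), (805, 1), (1105, -1)]],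
    [[], [], [], [], [], [], [(19, -1)], [(38, 3)], [(46, 1)], [(69, 1)], [(69, -2)], [], [(161, 1), (209, -1)], [(598, -1), (646, 2), (759, 1), (741, 1)]],
    [[(1, 1)], [], [], [], [(11, 1)], [(13, 1)], [(17, 1)], [(34, -2), (39, 1)], [], [(46, 1)], [(46, -1), (57, 1)], [], [(133, -1), (187, 1)], [(506, 1), (494, 1), (578, -2), (483, 1), (627, -2), (663, 1)]],
    [[], [], [], [], [(7, -1)], [], [], [(26, 1)], [], [], [(38, 1)], [(46, 1), (57, 1)], [(69, 1), (95, 1), (119, -1)], [(322, -1), (418, -1), (442, 1), (399, 3)]],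
    [[], [], [], [], [], [], [], [], [], [(19, -1)], [(19, 2)], [(23, 1)], [], [(161, 1), (209, -1)]],
    [[], [(1, 1)], [], [], [], [], [], [(11, 1)], [(13, 1)], [(17, 1)], [(17, -2)], [(19, -2)], [(23, -2)], [(115, -2), (133, -1), (187, 1)]],
    [[], [], [], [], [], [], [], [(7, -1)], [], [], [(13, 1)], [], [(19, -1)], [(69, 1), (119, -1)]],
    [[], [], [(1, 1)], [], [], [], [], [], [], [], [(13, 1)], [(17, 1)], [(19, 2)], [(69, -2), (95, 2)]],
    [[], [], [], [(1, -1)], [(1, 2)], [], [], [(5, 2)], [], [], [(11, -1)], [], [(17, 2)], [(46, 2), (57, -5), (85, 2)]],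
    [[], [], [], [], [], [(1, -1)], [], [(3, -2)], [], [], [], [], [], [(38, 3), (51, -2)]],
    [[], [], [], [], [], [], [], [], [(1, -1)], [], [], [], [], []]],
  [[[], [], [], [], [], [(161, 1)], [(253, 1), (247, -1)], [], [(598, -1)], [], [(782, -1), (722, 1), (969, -1)], [(1173, -1)], [(1311, -1), (1955, -1), (1805, 1), (2093, 1)], [(5290, -1), (6118, -2), (8602, 1), (7942, -1), (7774, -1), (4761, 1), (6555, -1), (8211, -1), (7581, 1)]],
    [[], [], [], [(23, 1)], [], [], [], [], [(161, 1)], [(253, 1), (247, -1)], [(247, 1)], [(299, 1)], [(391, 1), (361, -1)], [(1058, 2), (2093, 1)]],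
    [[], [], [], [(19, -1)], [], [(23, -1)], [], [], [(115, -1)], [], [(209, -1)], [(247, -1)], [(299, -1)], [(874, 1), (1173, 1), (1083, -1), (1495, -1)]],
    [[], [], [], [(17, 1)], [], [], [(23, -1)], [], [], [(115, -1)], [(133, 1)], [], [(247, -1)], [(722, 1), (897, 1), (1235, -1)]],
    [[], [], [], [], [], [(19, -1)], [(23, -1)], [], [(69, 1)], [], [], [], [(247, -1)], [(782, -1), (722, 3), (897, 1)]],
    [[], [], [], [], [], [(17, 1)], [(19, 1)], [], [(46, 1)], [(69, 1)], [], [], [(161, -1), (209, 1)], [(598, 1), (646, -2), (759, -1), (741, 1)]],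
    [[(1, 1)], [], [], [], [], [], [(17, 1)], [], [], [(46, -1)], [(46, 1), (57, 1)], [(69, 1)], [(115, 1), (133, -1)], [(506, -1), (494, 1), (483, 2)]],
    [[], [], [], [], [], [], [], [], [(19, -1)], [(23, -1)], [(23, 1)], [], [], [(247, -1)]],
    [[], [], [], [], [], [], [], [], [(17, 1)], [(19, 1)], [(19, -2)], [(23, -1)], [], [(161, -1), (209, 1)]],
    [[], [(1, 1)], [], [], [], [], [], [], [], [(17, 1)], [], [], [(23, -1)], [(133, -1)]],
    [[], [], [], [], [], [], [], [], [], [], [(17, 1)], [(19, 1)], [(23, 1)], [(115, 1)]],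
    [[], [], [(1, 1)], [], [], [], [], [], [], [], [], [(17, 1)], [(19, 2)], [(69, -3), (95, 2)]],
    [[], [], [], [], [(1, 1)], [], [], [], [], [], [], [], [(17, 1)], [(46, 2), (57, -2)]],
    [[], [], [], [], [], [], [], [(1, 1)], [], [], [], [], [], [(17, 1)]]]]

/-- entries -/
def ent (g i j : ℕ) : Poly := ((data.getD g []).getD i []).getD j []

/-- entries of the commutator -/
def comm (x y i j : ℕ) : Poly :=
  (List.range 14).flatMap fun k => pmul (ent x i k) (ent y k j) ++ pneg (pmul (ent y i k) (ent x k j))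

/-- commutation test -/
def checkC (x y : ℕ) : Bool :=
  (List.range 14).all fun i => (List.range 14).all fun j => isZ (comm x y i j)

theorem checkAll : ((List.range 6).all fun x => (List.range 6).all fun y =>
    decide (y ≤ x) || checkC x y) = true := by
  decide +kernel

/-- the fifteen Plücker coordinates as linear forms: (code of the scalar part or `0`, list of
(generator, sign)) -/
def lins : List (ℕ × List (ℕ × ℤ)) := [(2, []),
  (3, []),
  (0, [(0, 1)]),
  (0, [(1, 1)]),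
  (0, [(2, 1)]),
  (5, [(0, -1)]),
  (7, [(1, -1)]),
  (0, [(3, 1)]),
  (0, [(4, 1)]),
  (11, [(2, -1), (3, -1)]),
  (13, [(4, -1)]),
  (0, [(5, 1)]),
  (17, [(5, -1)]),
  (19, []),
  (23, [])]

/-- entries of the matrices of the Plücker coordinates -/
def pent (s i j : ℕ) : Poly :=
  (if i = j ∧ (lins.getD s (0, [])).1 ≠ 0 then [((lins.getD s (0, [])).1, 1)] else []) ++
    (lins.getD s (0, [])).2.flatMap fun x => (ent x.1 i j).map fun y => (y.1, x.2 * y.2)

/-- the fifteen Plücker relations `p₁ p₂ - p₃ p₄ + p₅ p₆` (indices of the coordinates) -/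
def rels : List (ℕ × ℕ × ℕ × ℕ × ℕ × ℕ) := [(0, 9, 1, 6, 2, 5), (0, 10, 1, 7, 3, 5), (0, 11, 1, 8, 4, 5), (0, 12, 2, 7, 3, 6), (0, 13, 2, 8, 4, 6), (0, 14, 3, 8, 4, 7), (1, 12, 2, 10, 3, 9), (1, 13, 2, 11, 4, 9), (1, 14, 3, 11, 4, 10), (2, 14, 3, 13, 4, 12), (5, 12, 6, 10, 7, 9), (5, 13, 6, 11, 8, 9), (5, 14, 7, 11, 8, 10), (6, 14, 7, 13, 8, 12), (9, 14, 10, 13, 11, 12)]

/-- first column of a product -/
def col0 (s s' i : ℕ) : Poly := (List.range 14).flatMap fun k => pmul (pent s i k) (pent s' k 0)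

theorem checkRels : (rels.all fun r => (List.range 14).all fun i =>
    isZ (col0 r.1 r.2.1 i ++ (pneg (col0 r.2.2.1 r.2.2.2.1 i) ++
      col0 r.2.2.2.2.1 r.2.2.2.2.2 i))) = true := by
  decide +kernel

/-- basis vectors as images of previous basis vectors: `e_(k+1) = m_g e_j`. -/
def steps : List (ℕ × ℕ) := [(0, 0), (1, 0), (2, 0), (3, 0), (4, 0), (5, 0), (0, 4), (0, 5), (0, 6),
  (1, 5), (1, 6), (3, 6), (0, 12)]

theorem checkSteps : ((List.range 13).all fun k => (List.range 14).all fun i =>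
    decide (ent (steps.getD k (0, 0)).1 i (steps.getD k (0, 0)).2 =
      if i = k + 1 then [(1, 1)] else [])) = true := by
  decide +kernel

/-! ### The table in the Plücker algebra -/

/-- codes of the Plücker coordinates -/
def upr : List ℕ := [2, 3, 5, 7, 11, 13, 17, 19, 23, 29, 31, 37, 41, 43, 47]

/-- codes of the generators -/
def gc : List ℕ := [5, 7, 11, 19, 23, 37]

/-- codes of the basis -/
def bc : List ℕ := [1, 5, 7, 11, 19, 23, 37, 95, 115, 185, 161, 259, 703, 3515]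

/-- rank sums -/
def ths : List (ℕ × Poly) := [(2, [(2, 1)]), (3, [(3, 1)]), (5, [(5, 1), (13, 1)]), (7, [(7, 1), (17, 1)]), (11, [(11, 1), (19, 1), (29, 1)]), (13, [(23, 1), (31, 1)]), (17, [(37, 1), (41, 1)]), (19, [(43, 1)]), (23, [(47, 1)])]

/-- rank sum with given code -/
def thp (q : ℕ) : Poly := ((ths.find? fun x => x.1 == q).getD (0, [])).2

/-- factorisation by trial division -/
def facs : ℕ → ℕ → List ℕ
  | 0, _ => []
  | n + 1, m =>
    match ths.find? fun x => m % x.1 == 0 with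
    | some x => x.1 :: facs n (m / x.1)
    | none => []

/-- substitution of the rank sums in a monomial -/
def sub (m : ℕ) : Poly := (facs 5 m).foldr (fun q acc => pmul (thp q) acc) [(1, 1)]

/-- validity of the factorisation -/
def okfac (m : ℕ) : Bool :=
  decide ((facs 5 m).foldr (· * ·) 1 = m) && (facs 5 m).all fun q => ths.any fun x => x.1 == q

/-- substitution in a polynomial -/
def psub (p : Poly) : Poly := p.flatMap fun x => (sub x.1).map fun y => (y.1, x.2 * y.2)

/-- Plücker relation as a polynomial -/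
def relP (r : ℕ) : Poly :=
  let x := rels.getD r (0, 0, 0, 0, 0, 0)
  [(upr.getD x.1 1 * upr.getD x.2.1 1, 1), (upr.getD x.2.2.1 1 * upr.getD x.2.2.2.1 1, -1),
    (upr.getD x.2.2.2.2.1 1 * upr.getD x.2.2.2.2.2 1, 1)]

/-- cofactors -/
def cofs : List (List (List (ℕ × Poly))) := [
  [[],
    [(0, [(1, -1)])],
    [(1, [(1, -1)])],
    [(2, [(1, -1)])],
    [],
    [],
    [],
    [(0, [(19, -1)]), (4, [(3, 1)]), (6, [(3, -1)]), (10, [(2, 1)])],
    [(0, [(23, -1)]), (11, [(2, 1)])],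
    [(0, [(37, -1)]), (9, [(2, 1)])],
    [(1, [(23, -1)]), (8, [(3, -1)]), (11, [(3, 1)]), (12, [(2, 1)])],
    [(1, [(37, -1)]), (13, [(2, 1)])],
    [],
    [(0, [(703, -1)]), (1, [(141, 2)]), (2, [(94, -1)]), (3, [(94, 1), (129, -1)]), (4, [(86, -1), (111, 1), (123, 1)]), (6, [(86, 1), (111, -1)]), (9, [(21, 1)]), (10, [(74, 1)]), (13, [(34, 1), (15, -1)]), (14, [(26, -1), (9, 1)])]],
  [[],
    [(1, [(1, -1)])],
    [(3, [(1, -1)])],
    [(4, [(1, -1)])],
    [(4, [(1, 1)]), (6, [(1, -1)])],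
    [],
    [],
    [(0, [(23, -1), (31, 1)]), (1, [(19, -1), (29, -1)]), (2, [(17, 1)]), (4, [(5, 1)]), (5, [(3, 1)]), (6, [(5, -1)]), (8, [(2, -1)]), (11, [(2, 2)])],
    [(1, [(23, -1)]), (8, [(3, -1)]), (11, [(3, 1)]), (12, [(2, 1)])],
    [(1, [(37, -1)]), (13, [(2, 1)])],
    [(0, [(43, -1)]), (1, [(37, 2)]), (2, [(23, -1), (31, -1)]), (3, [(23, -1)]), (8, [(5, -1)]), (11, [(5, 1)]), (13, [(2, -1)])],
    [(3, [(37, -1)]), (14, [(2, 1)])],
    [(1, [(47, 2)]), (3, [(43, -1)]), (4, [(37, 1), (41, 1)]), (6, [(37, -1)]), (9, [(7, 1)]), (13, [(5, -1)]), (14, [(3, 1)])],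
    [(0, [(329, 3), (799, -1), (817, 2), (851, -1), (943, -2), (1147, 1)]), (1, [(301, -1), (451, 1), (611, 2), (731, -1), (703, -1), (1073, -1)]), (2, [(141, -1), (629, 1), (697, 1)]), (3, [(141, 4), (215, -1)]), (4, [(94, 1), (129, -2), (185, 1), (205, 1)]), (5, [(86, -1), (111, 1), (123, 1)]), (6, [(94, -3), (129, 2), (185, -1)]), (8, [(74, -1), (82, -2)]), (9, [(35, 1)]), (10, [(86, -3)]), (11, [(74, 2), (82, 3)]), (13, [(38, 1), (25, -1)]), (14, [(14, -1), (34, 1), (15, 1)])]],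
  [[],
    [(2, [(1, -1)])],
    [(4, [(1, -1)])],
    [(5, [(1, -1)]), (7, [(1, -1)])],
    [(5, [(1, 1)])],
    [(8, [(1, -1)])],
    [(9, [(1, -1)])],
    [(1, [(23, -1)]), (5, [(5, 1)]), (8, [(3, -1)]), (11, [(3, 1)]), (12, [(2, 1)])],
    [(1, [(37, 1)]), (2, [(23, -1), (31, -1)]), (8, [(5, -1)]), (13, [(2, -1)])],
    [(0, [(47, -1)]), (1, [(43, 1)]), (2, [(37, -1), (41, -1)]), (9, [(5, -1)])],
    [(3, [(37, 1)]), (4, [(23, -1), (31, -1)]), (8, [(7, -1)]), (14, [(2, -1)])],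
    [(1, [(47, -1)]), (3, [(43, 1)]), (4, [(37, -1), (41, -1)]), (9, [(7, -1)])],
    [(3, [(47, 1)]), (4, [(43, -1)]), (5, [(37, 1)]), (6, [(43, 1)]), (13, [(7, -1)])],
    [(0, [(893, -1), (989, 1), (1333, -1)]), (1, [(817, 1), (851, -1), (943, -1), (1247, 1)]), (2, [(731, -1)]), (3, [(235, 1)]), (4, [(141, 1), (215, -1)]), (5, [(129, -1), (185, 1)]), (6, [(141, -1), (215, 1)]), (8, [(86, 1), (111, -1), (123, -1)]), (10, [(94, 1)]), (11, [(86, -2), (111, 1), (123, 1)]), (12, [(74, 1), (82, 1)]), (13, [(35, -1)])]],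
  [[],
    [],
    [(4, [(1, 1)]), (6, [(1, -1)])],
    [(5, [(1, 1)])],
    [(5, [(1, -1)]), (10, [(1, -1)])],
    [(8, [(1, 1)]), (11, [(1, -1)])],
    [],
    [(0, [(41, 1)]), (1, [(23, 1), (31, -1)]), (5, [(5, -1)]), (8, [(3, 2)]), (9, [(2, 1)]), (10, [(5, -1)]), (11, [(3, -2)]), (12, [(2, -2)])],
    [(0, [(43, 1)]), (1, [(37, -2)]), (2, [(23, 1), (31, 1)]), (8, [(5, 1)]), (11, [(5, -1)]), (13, [(2, 2)])],
    [],
    [(0, [(47, 1)]), (3, [(37, -1)]), (4, [(23, 1), (31, 1)]), (6, [(23, -1)]), (8, [(7, 1)]), (12, [(5, -1)]), (13, [(3, 1)]), (14, [(2, 1)])],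
    [(1, [(47, 2)]), (3, [(43, -1)]), (4, [(37, 1), (41, 1)]), (6, [(37, -1)]), (9, [(7, 1)]), (13, [(5, -1)]), (14, [(3, 1)])],
    [(2, [(47, 1)]), (3, [(47, -2)]), (4, [(43, 2)]), (5, [(37, -1)]), (6, [(43, -2)]), (10, [(37, -1)]), (13, [(7, 1), (17, -1)]), (14, [(13, 1)])],
    [(0, [(893, 2), (989, -2), (1333, 2), (1517, 1)]), (1, [(329, 1), (799, 1), (817, -2), (851, 1), (943, 2), (1247, -2), (1147, -1)]), (2, [(731, 2)]), (3, [(235, -2)]), (4, [(141, -2), (215, 2)]), (5, [(129, 2), (185, -1)]), (6, [(141, 3), (215, -2)]), (7, [(94, -1)]), (8, [(86, -2), (111, 2), (123, 2)]), (10, [(94, -4), (185, -1)]), (11, [(86, 5), (111, -2), (123, -2)]), (12, [(74, -2), (82, -1)]), (13, [(46, 1), (35, 1), (85, -1)]), (14, [(38, 1), (58, -1), (51, 1)])]],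
  [[],
    [],
    [],
    [(8, [(1, -1)])],
    [(8, [(1, 1)]), (11, [(1, -1)])],
    [(12, [(1, -1)])],
    [(13, [(1, -1)])],
    [(0, [(43, 1)]), (1, [(37, -2)]), (2, [(23, 1), (31, 1)]), (8, [(5, 1)]), (11, [(5, -1)]), (13, [(2, 2)])],
    [(0, [(47, 1)]), (12, [(5, -1)])],
    [(1, [(47, 1)]), (13, [(5, -1)])],
    [(1, [(47, -1)]), (3, [(43, 1)]), (4, [(37, -1), (41, -1)]), (6, [(37, 1)]), (9, [(7, -1)]), (12, [(7, -1)]), (13, [(5, 1)]), (14, [(3, -1)])],
    [(3, [(47, 1)]), (4, [(43, -1)]), (6, [(43, 1)]), (13, [(7, -1)])],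
    [(4, [(47, -1)]), (5, [(43, 1)]), (6, [(47, 1)]), (8, [(37, 1), (41, 1)]), (10, [(43, 1)]), (11, [(37, -1), (41, -1)]), (13, [(19, -1)])],
    [(0, [(1081, 1), (1457, -1), (1591, 1)]), (1, [(893, 1), (989, -1), (1363, 1), (1333, 1), (1369, -2), (1517, -2)]), (2, [(799, -1), (851, 1), (943, 1), (1147, 1), (1271, 1)]), (4, [(235, -1)]), (5, [(141, -1), (215, 1)]), (6, [(235, 1)]), (8, [(94, 1), (129, -2), (185, 1), (205, 1)]), (9, [(86, -1)]), (10, [(215, 1)]), (11, [(94, -2), (129, 2), (185, -1), (205, -1)]), (12, [(86, 2)]), (13, [(74, 2), (82, 2), (95, -1)])]],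
  [[],
    [],
    [],
    [(9, [(1, -1)])],
    [],
    [(13, [(1, -1)])],
    [(14, [(1, -1)])],
    [],
    [(1, [(47, 1)]), (13, [(5, -1)])],
    [(2, [(47, 1)]), (14, [(5, -1)])],
    [(3, [(47, 1)]), (4, [(43, -1)]), (6, [(43, 1)]), (13, [(7, -1)])],
    [(6, [(47, 1)]), (14, [(7, -1)])],
    [(8, [(43, 1)]), (10, [(47, 1)]), (11, [(43, -1)]), (14, [(19, -1)])],
    [(0, [(1927, -1), (1849, 1)]), (1, [(1457, 1), (1591, -2)]), (2, [(989, 1), (1333, 1)]), (8, [(141, -1), (215, 1)]), (9, [(94, -1)]), (10, [(235, 1)]), (11, [(141, 1), (215, -1)]), (12, [(94, 1)]), (13, [(86, 2)]), (14, [(95, -1)])]]]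

/-- the difference to be checked -/
def diff (g j : ℕ) : Poly :=
  [(gc.getD g 1 * bc.getD j 1, 1)] ++ (pneg ((List.range 14).flatMap fun k =>
    pmul (psub (ent g k j)) [(bc.getD k 1, 1)]) ++
    pneg (((cofs.getD g []).getD j []).flatMap fun x => pmul x.2 (relP x.1)))

theorem checkTab : ((List.range 6).all fun g => (List.range 14).all fun j =>
    isZ (diff g j)) = true := by
  decide +kernel

theorem checkFac : ((List.range 6).all fun g => (List.range 14).all fun k =>
    (List.range 14).all fun j => (ent g k j).all fun x => okfac x.1) = true := by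
  decide +kernel

theorem checkCofIdx : ((List.range 6).all fun g => (List.range 14).all fun j =>
    ((cofs.getD g []).getD j []).all fun x => decide (x.1 < 15)) = true := by
  decide +kernel

end Pool.Agent.H869.GrTab
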