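import Mathlib
import Pool.Agent.H869.GrTab

set_option autoImplicit false

/-!
The commutative algebra of `14 × 14` matrices generated by the multiplication table.
-/

namespace Pool.Agent.H869.GrTab

open Matrix

variable {A : Type*} [CommRing A] (t : ℕ → A)

/-- value of a monomial -/
noncomputable def evM (m : ℕ) : A := if m = 0 then 0 else (m.primeFactorsList.map t).prod

lemma evM_one : evM t 1 = 1 := by simp [evM]

lemma evM_prime {p : ℕ} (hp : p.Prime) : evM t p = t p := by
  simp [evM, hp.ne_zero, Nat.primeFactorsList_prime hp]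

lemma evM_mul (a b : ℕ) : evM t (a * b) = evM t a * evM t b := by
  unfold evM
  by_cases ha : a = 0
  · simp [ha]
  by_cases hb : b = 0
  · simp [hb]
  rw [if_neg (mul_ne_zero ha hb), if_neg ha, if_neg hb, ← List.prod_append, ← List.map_append]
  exact ((Nat.perm_primeFactorsList_mul ha hb).map t).prod_eq

/-- value of a polynomial -/
noncomputable def ev (p : Poly) : A := (p.map fun x => (x.2 : A) * evM t x.1).sum

@[simp] lemma ev_nil : ev t [] = 0 := by simp [ev]

lemma ev_cons (x : ℕ × ℤ) (p : Poly) : ev t (x :: p) = (x.2 : A) * evM t x.1 + ev t p := by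
  simp [ev]

@[simp] lemma ev_append (p q : Poly) : ev t (p ++ q) = ev t p + ev t q := by
  simp [ev]

@[simp] lemma ev_pneg (p : Poly) : ev t (pneg p) = - ev t p := by
  induction p with
  | nil => simp [pneg]
  | cons x p ih =>
    have h : pneg (x :: p) = (x.1, -x.2) :: pneg p := rfl
    rw [h, ev_cons, ev_cons, ih]
    push_cast
    ring

lemma ev_map_smul (c : ℤ) (p : Poly) : ev t (p.map fun y => (y.1, c * y.2)) = (c : A) * ev t p := by
  induction p with
  | nil => simp
  | cons x p ih =>
    rw [List.map_cons, ev_cons, ev_cons, ih]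
    push_cast
    ring

lemma ev_map_mul (x : ℕ × ℤ) (q : Poly) :
    ev t (q.map fun y => (x.1 * y.1, x.2 * y.2)) = ((x.2 : A) * evM t x.1) * ev t q := by
  induction q with
  | nil => simp
  | cons y q ihq =>
    rw [List.map_cons, ev_cons, ev_cons, ihq, evM_mul]
    push_cast
    ring

@[simp] lemma ev_pmul (p q : Poly) : ev t (pmul p q) = ev t p * ev t q := by
  induction p with
  | nil => simp [pmul]
  | cons x p ih =>
    have h : pmul (x :: p) q = (q.map fun y => (x.1 * y.1, x.2 * y.2)) ++ pmul p q := rfl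
    rw [h, ev_append, ih, ev_cons, add_mul, ev_map_mul]

lemma ev_flatMap_range (n : ℕ) (f : ℕ → Poly) :
    ev t ((List.range n).flatMap f) = ∑ k : Fin n, ev t (f k) := by
  rw [Fin.sum_univ_eq_sum_range (fun k => ev t (f k)) n]
  induction n with
  | zero => simp
  | succ n ih => rw [List.range_succ, List.flatMap_append, ev_append, ih, Finset.sum_range_succ]; simp

/-- value of a tree -/
noncomputable def evT : Tr → A
  | .nil => 0
  | .node l m c r => evT l + ((c : A) * evM t m + evT r)

lemma evT_ins (T : Tr) (m : ℕ) (c : ℤ) : evT t (T.ins m c) = evT t T + (c : A) * evM t m := by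
  induction T with
  | nil => simp [Tr.ins, evT]
  | node l m' c' r ihl ihr =>
    unfold Tr.ins
    split_ifs with h1 h2
    · subst h1
      simp only [evT]
      push_cast
      ring
    · simp only [evT, ihl]
      ring
    · simp only [evT, ihr]
      ring

lemma evT_foldl (L : Poly) (T : Tr) :
    evT t (L.foldl (fun (T : Tr) (x : ℕ × ℤ) => T.ins x.1 x.2) T) = evT t T + ev t L := by
  induction L generalizing T with
  | nil => simp
  | cons x L ih =>
    rw [List.foldl_cons, ih, evT_ins, ev_cons]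
    ring

lemma evT_allZ (T : Tr) (h : T.allZ = true) : evT t T = 0 := by
  induction T with
  | nil => rfl
  | node l m c r ihl ihr =>
    unfold Tr.allZ at h
    rw [Bool.and_eq_true, Bool.and_eq_true, decide_eq_true_eq] at h
    obtain ⟨h1, h2, h3⟩ := h
    simp [evT, ihl h1, ihr h3, h2]

lemma ev_of_isZ {L : Poly} (h : isZ L = true) : ev t L = 0 := by
  have h1 := evT_foldl t L Tr.nil
  rw [evT_allZ t _ h] at h1
  simpa [evT] using h1.symm

/-- the matrices -/
noncomputable def mat (g : ℕ) : Matrix (Fin 14) (Fin 14) A := Matrix.of fun i j => ev t (ent g i j)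

lemma mat_comm_aux (x y : ℕ) (h : checkC x y = true) : mat t x * mat t y = mat t y * mat t x := by
  ext i j
  rw [Matrix.mul_apply, Matrix.mul_apply]
  unfold checkC at h
  rw [List.all_eq_true] at h
  have h1 := h i (List.mem_range.2 i.2)
  rw [List.all_eq_true] at h1
  have h2 := ev_of_isZ t (h1 j (List.mem_range.2 j.2))
  unfold comm at h2
  rw [ev_flatMap_range] at h2
  simp only [ev_append, ev_pmul, ev_pneg, Finset.sum_add_distrib, Finset.sum_neg_distrib] at h2
  exact eq_of_sub_eq_zero (by rw [sub_eq_add_neg]; exact h2)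

lemma mat_comm (x y : ℕ) (hx : x < 6) (hy : y < 6) : mat t x * mat t y = mat t y * mat t x := by
  have key : ∀ x y : ℕ, x < 6 → y < 6 → x < y → mat t x * mat t y = mat t y * mat t x := by
    intro x y hx hy hxy
    have h := checkAll
    rw [List.all_eq_true] at h
    have h1 := h x (List.mem_range.2 hx)
    rw [List.all_eq_true] at h1
    have h2 := h1 y (List.mem_range.2 hy)
    rw [Bool.or_eq_true, decide_eq_true_eq] at h2
    exact mat_comm_aux t x y (h2.resolve_left (by omega))
  rcases lt_trichotomy x y with h | h | h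
  · exact key x y hx hy h
  · rw [h]
  · exact (key y x hy hx h).symm

/-- first basis vector -/
def e0 : Fin 14 → A := Pi.single 0 1

lemma steps_lt : ∀ k < 13, (steps.getD k (0, 0)).2 < 14 := by decide

lemma mat_step (k : ℕ) (hk : k < 13) :
    mat t (steps.getD k (0, 0)).1 *ᵥ (Pi.single (Fin.ofNat 14 (steps.getD k (0, 0)).2) 1) =
      Pi.single (Fin.ofNat 14 (k + 1)) 1 := by
  rw [Matrix.mulVec_single_one]
  have h := checkSteps
  rw [List.all_eq_true] at h
  have h1 := h k (List.mem_range.2 hk)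
  rw [List.all_eq_true] at h1
  have hlt : (steps.getD k (0, 0)).2 < 14 := steps_lt k hk
  ext i
  have h2 := h1 i (List.mem_range.2 i.2)
  rw [decide_eq_true_eq] at h2
  simp only [Matrix.col_apply, mat, Matrix.of_apply, Fin.ofNat, Nat.mod_eq_of_lt hlt]
  rw [h2, Pi.single_apply]
  by_cases hi : (i : ℕ) = k + 1
  · rw [if_pos hi, if_pos (by
      apply Fin.ext
      simp only
      rw [Nat.mod_eq_of_lt (by omega)]
      exact hi)]
    simp [ev_cons, evM_one]
  · rw [if_neg hi, if_neg (by
      intro h3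
      apply hi
      have := congrArg Fin.val h3
      simp only at this
      rw [Nat.mod_eq_of_lt (by omega)] at this
      exact this)]
    simp

/-- Plücker relations for fifteen elements `p₁₂, p₁₃, …, p₁₆, p₂₃, …, p₅₆`. -/
def IsPl (p : Fin 15 → A) : Prop := ∀ r ∈ rels,
  p (Fin.ofNat 15 r.1) * p (Fin.ofNat 15 r.2.1) -
    p (Fin.ofNat 15 r.2.2.1) * p (Fin.ofNat 15 r.2.2.2.1) +
    p (Fin.ofNat 15 r.2.2.2.2.1) * p (Fin.ofNat 15 r.2.2.2.2.2) = 0

/-- the matrix algebra generated by the table -/
abbrev sub14 : Subalgebra A (Matrix (Fin 14) (Fin 14) A) :=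
  Algebra.adjoin A (Set.range fun g : Fin 6 => mat t g)

/-- the matrix algebra generated by the table, as a type -/
def TT : Type _ := sub14 t

noncomputable instance : CommRing (TT t) :=
  Algebra.adjoinCommRingOfComm A (by
    rintro _ ⟨x, rfl⟩ _ ⟨y, rfl⟩
    exact mat_comm t x y x.2 y.2)

noncomputable instance : Algebra A (TT t) := inferInstanceAs (Algebra A (sub14 t))

/-- the underlying matrix -/
def TT.toMat : TT t →ₐ[A] Matrix (Fin 14) (Fin 14) A := (sub14 t).val

lemma TT.toMat_injective : Function.Injective (TT.toMat t) := Subtype.val_injective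

/-- generators -/
noncomputable def mm (g : Fin 6) : TT t := ⟨mat t g, Algebra.subset_adjoin ⟨g, rfl⟩⟩

lemma toMat_mm (g : Fin 6) : TT.toMat t (mm t g) = mat t g := rfl

lemma lins_ok : ∀ s < 15, ((lins.getD s (0, [])).1 = 0 ∨ Nat.Prime (lins.getD s (0, [])).1) ∧
    ∀ x ∈ (lins.getD s (0, [])).2, x.1 < 6 := by
  have h : ∀ s < 15, ((lins.getD s (0, [])).1 = 0 ∨
      (lins.getD s (0, [])).1 ∈ [2, 3, 5, 7, 11, 13, 17, 19, 23]) ∧
      ∀ x ∈ (lins.getD s (0, [])).2, x.1 < 6 := by decide
  intro s hs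
  refine ⟨(h s hs).1.imp id fun hq => ?_, (h s hs).2⟩
  have hp : ∀ q ∈ [2, 3, 5, 7, 11, 13, 17, 19, 23], Nat.Prime q := by
    intro q hq
    simp only [List.mem_cons, List.not_mem_nil, or_false] at hq
    rcases hq with rfl | rfl | rfl | rfl | rfl | rfl | rfl | rfl | rfl <;> norm_num
  exact hp _ hq

/-- Plücker coordinates in the matrix algebra -/
noncomputable def pl (s : Fin 15) : TT t :=
  (if (lins.getD s (0, [])).1 ≠ 0 then algebraMap A _ (t (lins.getD s (0, [])).1) else 0) +
    ((lins.getD s (0, [])).2.map fun x => (x.2 : TT t) * mm t (Fin.ofNat 6 x.1)).sum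

lemma ev_flatMap {ι : Type*} (L : List ι) (f : ι → Poly) :
    ev t (L.flatMap f) = (L.map fun x => ev t (f x)).sum := by
  induction L with
  | nil => simp
  | cons x L ih => simp [ih]

lemma pl_apply (s : Fin 15) (i j : Fin 14) : TT.toMat t (pl t s) i j = ev t (pent s i j) := by
  obtain ⟨h1, h2⟩ := lins_ok s s.2
  unfold pl pent
  rw [map_add, Matrix.add_apply, ev_append]
  congr 1
  · have hval : (i : ℕ) = (j : ℕ) ↔ i = j := Fin.ext_iff.symm
    by_cases h0 : (lins.getD s (0, [])).1 = 0
    · rw [if_neg (not_not.2 h0), if_neg fun h => h.2 h0]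
      simp
    · rw [if_pos h0, AlgHom.commutes, Matrix.algebraMap_matrix_apply]
      by_cases h : i = j
      · rw [if_pos h, if_pos ⟨hval.2 h, h0⟩, ev_cons, evM_prime _ (h1.resolve_left h0)]
        simp
      · rw [if_neg h, if_neg fun h' => h (hval.1 h'.1)]
        simp
  · rw [ev_flatMap]
    generalize (lins.getD s (0, [])).2 = L at h2
    induction L with
    | nil => simp
    | cons x L ih =>
      rw [List.map_cons, List.sum_cons, map_add, Matrix.add_apply, List.map_cons, List.sum_cons,
        ih (fun y hy => h2 y (List.mem_cons_of_mem _ hy)), ev_map_smul]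
      congr 1
      rw [← zsmul_eq_mul, map_zsmul, toMat_mm, Matrix.smul_apply, zsmul_eq_mul]
      simp only [mat, Matrix.of_apply, Fin.ofNat,
        Nat.mod_eq_of_lt (h2 x List.mem_cons_self)]

lemma act_single (x : TT t) (h : TT.toMat t x *ᵥ Pi.single 0 1 = 0) :
    ∀ k : ℕ, k < 14 → TT.toMat t x *ᵥ Pi.single (Fin.ofNat 14 k) 1 = 0 := by
  intro k
  induction k using Nat.strong_induction_on with
  | _ k ih =>
    intro hk
    rcases Nat.eq_zero_or_pos k with rfl | hpos
    · exact h
    · obtain ⟨k, rfl⟩ := Nat.exists_eq_add_of_lt hpos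
      rw [zero_add] at *
      have hk' : k < 13 := by omega
      have h1 := mat_step t k hk'
      have hg : (steps.getD k (0, 0)).1 < 6 ∧ (steps.getD k (0, 0)).2 < k + 1 := by
        have : ∀ k < 13, (steps.getD k (0, 0)).1 < 6 ∧ (steps.getD k (0, 0)).2 < k + 1 := by
          decide
        exact this k hk'
      have h2 := ih _ hg.2 (by omega)
      rw [← h1]
      have h3 : mat t (steps.getD k (0, 0)).1 = TT.toMat t (mm t ⟨_, hg.1⟩) := rfl
      rw [h3, Matrix.mulVec_mulVec, ← map_mul, mul_comm, map_mul, ← Matrix.mulVec_mulVec, h2,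
        Matrix.mulVec_zero]

lemma act_eq_zero (x : TT t) (h : TT.toMat t x *ᵥ Pi.single 0 1 = 0) : x = 0 := by
  apply TT.toMat_injective t
  rw [map_zero]
  ext i j
  have h1 := congrFun (act_single t x h j j.2) i
  have h2 : Fin.ofNat 14 (j : ℕ) = j := by
    apply Fin.ext
    simp [Fin.ofNat, Nat.mod_eq_of_lt j.2]
  rw [h2, Matrix.mulVec_single_one] at h1
  exact h1

lemma pl_mul_col (s s' : Fin 15) (i : Fin 14) :
    (TT.toMat t (pl t s * pl t s') *ᵥ Pi.single 0 1) i = ev t (col0 s s' i) := by
  rw [Matrix.mulVec_single_one, Matrix.col_apply, map_mul, Matrix.mul_apply]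
  unfold col0
  rw [ev_flatMap_range]
  refine Finset.sum_congr rfl fun k _ => ?_
  rw [pl_apply, pl_apply, ev_pmul]
  rfl

lemma isPl_pl : IsPl (pl t) := by
  intro r hr
  have h := checkRels
  rw [List.all_eq_true] at h
  have h1 := h r hr
  rw [List.all_eq_true] at h1
  apply act_eq_zero
  ext i
  have h2 := ev_of_isZ t (h1 i (List.mem_range.2 i.2))
  have hlt : ∀ r ∈ rels, r.1 < 15 ∧ r.2.1 < 15 ∧ r.2.2.1 < 15 ∧ r.2.2.2.1 < 15 ∧
      r.2.2.2.2.1 < 15 ∧ r.2.2.2.2.2 < 15 := by decide
  obtain ⟨l1, l2, l3, l4, l5, l6⟩ := hlt r hr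
  rw [map_add, map_sub, Matrix.add_mulVec, Matrix.sub_mulVec, Pi.add_apply, Pi.sub_apply,
    pl_mul_col, pl_mul_col, pl_mul_col]
  rw [ev_append, ev_append, ev_pneg] at h2
  simp only [Fin.ofNat, Nat.mod_eq_of_lt l1, Nat.mod_eq_of_lt l2, Nat.mod_eq_of_lt l3,
    Nat.mod_eq_of_lt l4, Nat.mod_eq_of_lt l5, Nat.mod_eq_of_lt l6]
  rw [Pi.zero_apply, ← h2]
  ring

end Pool.Agent.H869.GrTab
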