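import Mathlib
import Pool.Agent.H869.GrMat

set_option autoImplicit false

/-!
The universal ring for Plücker coordinates (times an affine space) is free of rank 14 over a
polynomial ring in 12 variables.
-/

universe u

namespace Pool.Agent.H869.GrTab

open Matrix

section tab

variable {A : Type*} [CommRing A] (p : Fin 15 → A)

/-- the assignment of the Plücker coordinates to the primes -/
def uu (q : ℕ) : A := p (Fin.ofNat 15 (upr.idxOf q))

/-- the rank sums -/
noncomputable def th (q : ℕ) : A := ev (uu p) (thp q)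

/-- the generators -/
noncomputable def gen (g : ℕ) : A := evM (uu p) (gc.getD g 1)

/-- the basis -/
noncomputable def bet (j : ℕ) : A := evM (uu p) (bc.getD j 1)

lemma upr_prime : ∀ s < 15, Nat.Prime (upr.getD s 1) := by
  intro s hs
  interval_cases s <;> simp [upr] <;> norm_num

lemma evM_upr (s : Fin 15) : evM (uu p) (upr.getD s 1) = p s := by
  rw [evM_prime _ (upr_prime s s.2)]
  unfold uu
  have h : ∀ s < 15, upr.idxOf (upr.getD s 1) = s := by decide
  rw [h s s.2]
  congr 1
  apply Fin.ext
  simp [Fin.ofNat, Nat.mod_eq_of_lt s.2]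

lemma ev_relP (hp : IsPl p) (r : ℕ) (hr : r < 15) : ev (uu p) (relP r) = 0 := by
  have hlt : ∀ r < 15, rels.getD r (0, 0, 0, 0, 0, 0) ∈ rels := by decide
  have hlt2 : ∀ x ∈ rels, x.1 < 15 ∧ x.2.1 < 15 ∧ x.2.2.1 < 15 ∧ x.2.2.2.1 < 15 ∧
      x.2.2.2.2.1 < 15 ∧ x.2.2.2.2.2 < 15 := by decide
  have h1 := hp _ (hlt r hr)
  obtain ⟨l1, l2, l3, l4, l5, l6⟩ := hlt2 _ (hlt r hr)
  unfold relP
  generalize rels.getD r (0, 0, 0, 0, 0, 0) = x at h1 l1 l2 l3 l4 l5 l6
  simp only [Fin.ofNat, Nat.mod_eq_of_lt l1, Nat.mod_eq_of_lt l2, Nat.mod_eq_of_lt l3,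
    Nat.mod_eq_of_lt l4, Nat.mod_eq_of_lt l5, Nat.mod_eq_of_lt l6] at h1
  simp only [ev_cons, ev_nil, evM_mul]
  rw [evM_upr p ⟨x.1, l1⟩, evM_upr p ⟨x.2.1, l2⟩, evM_upr p ⟨x.2.2.1, l3⟩,
    evM_upr p ⟨x.2.2.2.1, l4⟩, evM_upr p ⟨x.2.2.2.2.1, l5⟩, evM_upr p ⟨x.2.2.2.2.2, l6⟩]
  push_cast
  linear_combination h1

lemma ths_prime : ∀ x ∈ ths, Nat.Prime x.1 := by
  intro x hx
  have : x.1 ∈ [2, 3, 5, 7, 11, 13, 17, 19, 23] := by
    revert x
    decide
  simp only [List.mem_cons, List.not_mem_nil, or_false] at this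
  rcases this with h | h | h | h | h | h | h | h | h <;> rw [h] <;> norm_num

lemma ev_sub (m : ℕ) (hm : okfac m = true) : ev (uu p) (sub m) = evM (th p) m := by
  unfold okfac at hm
  rw [Bool.and_eq_true, decide_eq_true_eq, List.all_eq_true] at hm
  obtain ⟨h1, h2⟩ := hm
  unfold sub
  rw [← h1]
  have h3 : facs 5 ((facs 5 m).foldr (· * ·) 1) = facs 5 m := by rw [h1]
  rw [h3]
  generalize facs 5 m = L at h2
  clear h1 h3
  induction L with
  | nil => simp [ev_cons, evM_one]
  | cons q L ih =>
    rw [List.foldr_cons, List.foldr_cons, ev_pmul, evM_mul,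
      ih (fun y hy => h2 y (List.mem_cons_of_mem _ hy))]
    congr 1
    have h4 := h2 q List.mem_cons_self
    rw [List.any_eq_true] at h4
    obtain ⟨x, hx, hxq⟩ := h4
    have : x.1 = q := by simpa using hxq
    rw [evM_prime _ (this ▸ ths_prime x hx)]
    rfl

lemma ev_psub (P : Poly) (hP : P.all (fun x => okfac x.1) = true) :
    ev (uu p) (psub P) = ev (th p) P := by
  rw [List.all_eq_true] at hP
  induction P with
  | nil => simp [psub]
  | cons x P ih =>
    have h : psub (x :: P) = ((sub x.1).map fun y => (y.1, x.2 * y.2)) ++ psub P := rfl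
    rw [h, ev_append, ev_cons, ev_map_smul, ev_sub p _ (hP x List.mem_cons_self),
      ih (fun y hy => hP y (List.mem_cons_of_mem _ hy))]

/-- the multiplication table holds in every ring with Plücker coordinates -/
lemma table (hp : IsPl p) (g j : ℕ) (hg : g < 6) (hj : j < 14) :
    gen p g * bet p j = ∑ k : Fin 14, ev (th p) (ent g k j) * bet p k := by
  have h := checkTab
  rw [List.all_eq_true] at h
  have h1 := h g (List.mem_range.2 hg)
  rw [List.all_eq_true] at h1
  have h2 := ev_of_isZ (uu p) (h1 j (List.mem_range.2 hj))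
  unfold diff at h2
  have hf := checkFac
  rw [List.all_eq_true] at hf
  have hf1 := hf g (List.mem_range.2 hg)
  rw [List.all_eq_true] at hf1
  have hc := checkCofIdx
  rw [List.all_eq_true] at hc
  have hc1 := hc g (List.mem_range.2 hg)
  rw [List.all_eq_true] at hc1
  have hc2 := hc1 j (List.mem_range.2 hj)
  rw [List.all_eq_true] at hc2
  rw [ev_append, ev_append, ev_pneg, ev_pneg, ev_flatMap_range, ev_flatMap] at h2
  have h3 : (((cofs.getD g []).getD j []).map fun x => ev (uu p) (pmul x.2 (relP x.1))).sum = 0 := by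
    apply List.sum_eq_zero
    intro y hy
    obtain ⟨x, hx, rfl⟩ := List.mem_map.1 hy
    rw [ev_pmul, ev_relP p hp x.1 (by simpa using hc2 x hx), mul_zero]
  rw [h3, neg_zero, add_zero] at h2
  have h4 : ∀ k : Fin 14, ev (uu p) (pmul (psub (ent g k j)) [(bc.getD (k : ℕ) 1, 1)]) =
      ev (th p) (ent g k j) * bet p k := by
    intro k
    rw [ev_pmul, ev_psub]
    · simp [ev_cons, bet]
    · have hf2 := hf1 k (List.mem_range.2 k.2)
      rw [List.all_eq_true] at hf2
      exact hf2 j (List.mem_range.2 hj)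
  rw [Finset.sum_congr rfl fun k _ => h4 k] at h2
  have h5 : ev (uu p) [(gc.getD g 1 * bc.getD j 1, 1)] = gen p g * bet p j := by
    simp [ev_cons, gen, bet, evM_mul]
  rw [h5] at h2
  linear_combination h2

/-- codes of the rank sums -/
def tcodes : List ℕ := [2, 3, 5, 7, 11, 13, 17, 19, 23]

lemma gen_eq (g : Fin 6) : gen p g = p (![2, 3, 4, 7, 8, 11] g) := by
  fin_cases g
  · exact evM_upr p 2
  · exact evM_upr p 3
  · exact evM_upr p 4
  · exact evM_upr p 7
  · exact evM_upr p 8
  · exact evM_upr p 11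

lemma th2 : th p 2 = p 0 := by
  have : thp 2 = [(upr.getD (0 : Fin 15) 1, 1)] := by decide
  rw [th, this, ev_cons, evM_upr]; simp
lemma th3 : th p 3 = p 1 := by
  have : thp 3 = [(upr.getD (1 : Fin 15) 1, 1)] := by decide
  rw [th, this, ev_cons, evM_upr]; simp
lemma th5 : th p 5 = p 2 + p 5 := by
  have : thp 5 = [(upr.getD (2 : Fin 15) 1, 1), (upr.getD (5 : Fin 15) 1, 1)] := by decide
  rw [th, this, ev_cons, ev_cons, evM_upr, evM_upr]; simp
lemma th7 : th p 7 = p 3 + p 6 := by
  have : thp 7 = [(upr.getD (3 : Fin 15) 1, 1), (upr.getD (6 : Fin 15) 1, 1)] := by decide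
  rw [th, this, ev_cons, ev_cons, evM_upr, evM_upr]; simp
lemma th11 : th p 11 = p 4 + p 7 + p 9 := by
  have : thp 11 = [(upr.getD (4 : Fin 15) 1, 1), (upr.getD (7 : Fin 15) 1, 1),
    (upr.getD (9 : Fin 15) 1, 1)] := by decide
  rw [th, this, ev_cons, ev_cons, ev_cons, evM_upr, evM_upr, evM_upr]; simp [add_assoc]
lemma th13 : th p 13 = p 8 + p 10 := by
  have : thp 13 = [(upr.getD (8 : Fin 15) 1, 1), (upr.getD (10 : Fin 15) 1, 1)] := by decide
  rw [th, this, ev_cons, ev_cons, evM_upr, evM_upr]; simp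
lemma th17 : th p 17 = p 11 + p 12 := by
  have : thp 17 = [(upr.getD (11 : Fin 15) 1, 1), (upr.getD (12 : Fin 15) 1, 1)] := by decide
  rw [th, this, ev_cons, ev_cons, evM_upr, evM_upr]; simp
lemma th19 : th p 19 = p 13 := by
  have : thp 19 = [(upr.getD (13 : Fin 15) 1, 1)] := by decide
  rw [th, this, ev_cons, evM_upr]; simp
lemma th23 : th p 23 = p 14 := by
  have : thp 23 = [(upr.getD (14 : Fin 15) 1, 1)] := by decide
  rw [th, this, ev_cons, evM_upr]; simp

/-- the Plücker coordinates in terms of rank sums and generators -/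
lemma p_eq (s : Fin 15) : p s = (if (lins.getD s (0, [])).1 ≠ 0 then th p (lins.getD s (0, [])).1
    else 0) + ((lins.getD s (0, [])).2.map fun x => (x.2 : A) * gen p x.1).sum := by
  have g0 := gen_eq p 0
  have g1 := gen_eq p 1
  have g2 := gen_eq p 2
  have g3 := gen_eq p 3
  have g4 := gen_eq p 4
  have g5 := gen_eq p 5
  simp only [Fin.isValue, Fin.coe_ofNat_eq_mod, Nat.zero_mod, Nat.one_mod, Nat.reduceMod,
    Matrix.cons_val] at g0 g1 g2 g3 g4 g5
  fin_cases s <;>
    simp [lins, g0, g1, g2, g3, g4, g5, th2, th3, th5, th7, th11, th13, th17, th19, th23] <;> ring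

end tab

/-- The universal property of the ring of Plücker coordinates (times affine three-space). -/
structure UnivPl (k : Type u) (R : Type u) [CommRing k] [CommRing R] [Algebra k R] where
  t : Fin 3 → R
  p : Fin 15 → R
  isPl : IsPl p
  univ : ∀ (A : Type u) [CommRing A] [Algebra k A] (t' : Fin 3 → A) (p' : Fin 15 → A), IsPl p' →
    ∃ φ : R →ₐ[k] A, (∀ i, φ (t i) = t' i) ∧ ∀ s, φ (p s) = p' s
  gen : Algebra.adjoin k (Set.range t ∪ Set.range p) = ⊤

section free

lemma evM_congr {A : Type*} [CommRing A] (f g : ℕ → A) (h : ∀ q ∈ tcodes, f q = g q) (m : ℕ)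
    (hm : okfac m = true) : evM f m = evM g m := by
  unfold okfac at hm
  rw [Bool.and_eq_true, decide_eq_true_eq, List.all_eq_true] at hm
  obtain ⟨h1, h2⟩ := hm
  rw [← h1]
  generalize facs 5 m = L at h2
  clear h1
  induction L with
  | nil => simp [evM_one]
  | cons q L ih =>
    rw [List.foldr_cons, evM_mul, evM_mul, ih (fun y hy => h2 y (List.mem_cons_of_mem _ hy))]
    congr 1
    have h4 := h2 q List.mem_cons_self
    rw [List.any_eq_true] at h4
    obtain ⟨x, hx, hxq⟩ := h4
    have hxq' : x.1 = q := by simpa using hxq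
    have hp : Nat.Prime q := hxq' ▸ ths_prime x hx
    rw [evM_prime _ hp, evM_prime _ hp]
    apply h
    have : ∀ x ∈ ths, x.1 ∈ tcodes := by decide
    rw [← hxq']
    exact this x hx

lemma ev_congr {A : Type*} [CommRing A] (f g : ℕ → A) (h : ∀ q ∈ tcodes, f q = g q) (P : Poly)
    (hP : P.all (fun x => okfac x.1) = true) : ev f P = ev g P := by
  rw [List.all_eq_true] at hP
  induction P with
  | nil => simp
  | cons x P ih =>
    rw [ev_cons, ev_cons, ih (fun y hy => hP y (List.mem_cons_of_mem _ hy)),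
      evM_congr f g h x.1 (hP x List.mem_cons_self)]

lemma map_evM {A B : Type*} [CommRing A] [CommRing B] (φ : A →+* B) (f : ℕ → A) (m : ℕ) :
    φ (evM f m) = evM (fun q => φ (f q)) m := by
  unfold evM
  split_ifs
  · simp
  · rw [map_list_prod, List.map_map]
    rfl

lemma map_ev {A B : Type*} [CommRing A] [CommRing B] (φ : A →+* B) (f : ℕ → A) (P : Poly) :
    φ (ev f P) = ev (fun q => φ (f q)) P := by
  induction P with
  | nil => simp
  | cons x P ih =>
    rw [ev_cons, ev_cons, map_add, ih, map_mul, map_evM, map_intCast]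

lemma okfac_ent (g i j : ℕ) (hg : g < 6) (hi : i < 14) (hj : j < 14) :
    (ent g i j).all (fun x => okfac x.1) = true := by
  have hf := checkFac
  rw [List.all_eq_true] at hf
  have hf1 := hf g (List.mem_range.2 hg)
  rw [List.all_eq_true] at hf1
  have hf2 := hf1 i (List.mem_range.2 hi)
  rw [List.all_eq_true] at hf2
  exact hf2 j (List.mem_range.2 hj)

variable {k R : Type u} [CommRing k] [CommRing R] [Algebra k R]

/-- the polynomial ring in twelve variables -/
abbrev SS (k : Type u) [CommRing k] : Type u := MvPolynomial (Fin 12) k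

/-- the variables attached to the rank sums -/
noncomputable def tS (k : Type u) [CommRing k] (q : ℕ) : SS k :=
  MvPolynomial.X (Fin.ofNat 12 (tcodes.idxOf q))

variable (U : UnivPl k R)

/-- the parameters -/
noncomputable def par (i : Fin 12) : R :=
  if i.val < 9 then th U.p (tcodes.getD i 1) else U.t (Fin.ofNat 3 (i.val - 9))

/-- the map of the polynomial ring to the universal ring -/
noncomputable def sig : SS k →ₐ[k] R := MvPolynomial.aeval (par U)

lemma sig_tS (q : ℕ) (hq : q ∈ tcodes) : sig U (tS k q) = th U.p q := by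
  unfold sig tS
  rw [MvPolynomial.aeval_X]
  unfold par
  have h1 : ∀ q ∈ tcodes, tcodes.idxOf q < 9 ∧ tcodes.getD (tcodes.idxOf q) 1 = q := by decide
  obtain ⟨h2, h3⟩ := h1 q hq
  have h4 : (Fin.ofNat 12 (tcodes.idxOf q)).val = tcodes.idxOf q := by
    simp only [Fin.ofNat]
    exact Nat.mod_eq_of_lt (by omega)
  rw [h4, if_pos h2, h3]

lemma sig_t (i : Fin 3) : sig U (MvPolynomial.X ⟨9 + i, by omega⟩) = U.t i := by
  unfold sig
  rw [MvPolynomial.aeval_X]
  unfold par
  rw [if_neg (by simp only; omega)]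
  congr 1
  apply Fin.ext
  simp only [Fin.ofNat, Nat.add_sub_cancel_left]
  exact Nat.mod_eq_of_lt i.2

/-- the algebra structure over the polynomial ring -/
@[reducible] noncomputable def algSS : Algebra (SS k) R := (sig U).toRingHom.toAlgebra

lemma table_sig (g j : ℕ) (hg : g < 6) (hj : j < 14) :
    gen U.p g * bet U.p j = ∑ i : Fin 14, sig U (ev (tS k) (ent g i j)) * bet U.p i := by
  rw [table U.p U.isPl g j hg hj]
  refine Finset.sum_congr rfl fun i _ => ?_
  congr 1
  have h1 := map_ev (sig U).toRingHom (tS k) (ent g i j)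
  refine Eq.trans ?_ h1.symm
  apply ev_congr
  · intro q hq
    exact (sig_tS U q hq).symm
  · exact okfac_ent g i j hg i.2 hj

lemma span_bet : letI := algSS U
    Submodule.span (SS k) (Set.range fun j : Fin 14 => bet U.p j) = ⊤ := by
  letI := algSS U
  set N := Submodule.span (SS k) (Set.range fun j : Fin 14 => bet U.p j) with hN
  have hsm : ∀ (c : SS k) (x : R), c • x = sig U c * x := fun c x => rfl
  have hgen : ∀ g < 6, ∀ x ∈ N, gen U.p g * x ∈ N := by
    intro g hg x hx
    induction hx using Submodule.span_induction with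
    | mem x hx =>
      obtain ⟨j, rfl⟩ := hx
      simp only
      rw [table_sig U g j hg j.2]
      refine Submodule.sum_mem _ fun i _ => ?_
      rw [← hsm]
      exact N.smul_mem _ (Submodule.subset_span ⟨i, rfl⟩)
    | zero => simp
    | add x y _ _ hx hy => rw [mul_add]; exact N.add_mem hx hy
    | smul c x _ hx =>
      rw [mul_smul_comm]
      exact N.smul_mem _ hx
  have hth : ∀ q ∈ tcodes, ∀ x ∈ N, th U.p q * x ∈ N := by
    intro q hq x hx
    rw [← sig_tS U q hq, ← hsm]
    exact N.smul_mem _ hx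
  have hp : ∀ s : Fin 15, ∀ x ∈ N, U.p s * x ∈ N := by
    intro s x hx
    rw [p_eq U.p s, add_mul]
    apply N.add_mem
    · split_ifs with h
      · apply hth _ _ x hx
        have : ∀ s < 15, (lins.getD s (0, [])).1 ≠ 0 → (lins.getD s (0, [])).1 ∈ tcodes := by
          decide
        exact this s s.2 h
      · simp
    · have h2 := (lins_ok s s.2).2
      generalize (lins.getD s (0, [])).2 = L at h2
      induction L with
      | nil => simp
      | cons y L ih =>
        rw [List.map_cons, List.sum_cons, add_mul]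
        apply N.add_mem
        · rw [mul_assoc, ← zsmul_eq_mul]
          exact N.toAddSubgroup.zsmul_mem (hgen _ (h2 y List.mem_cons_self) x hx) _
        · exact ih (fun z hz => h2 z (List.mem_cons_of_mem _ hz))
  have hall : ∀ r : R, ∀ x ∈ N, r * x ∈ N := by
    intro r
    have hr : r ∈ Algebra.adjoin k (Set.range U.t ∪ Set.range U.p) := U.gen ▸ Algebra.mem_top
    induction hr using Algebra.adjoin_induction with
    | mem r hr =>
      rcases hr with ⟨i, rfl⟩ | ⟨s, rfl⟩
      · intro x hx
        rw [← sig_t U i, ← hsm]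
        exact N.smul_mem _ hx
      · exact hp s
    | algebraMap r =>
      intro x hx
      have : algebraMap k R r * x = (algebraMap k (SS k) r) • x := by
        rw [hsm, AlgHom.commutes]
      rw [this]
      exact N.smul_mem _ hx
    | add r r' _ _ h h' =>
      intro x hx
      rw [add_mul]
      exact N.add_mem (h x hx) (h' x hx)
    | mul r r' _ _ h h' =>
      intro x hx
      rw [mul_assoc]
      exact h _ (h' x hx)
  rw [eq_top_iff]
  rintro r -
  have h1 : (1 : R) ∈ N := by
    apply Submodule.subset_span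
    refine ⟨0, ?_⟩
    have : bc.getD ((0 : Fin 14) : ℕ) 1 = 1 := by decide
    simp only [bet, this, evM_one]
  simpa using hall r 1 h1

section mats

variable {A : Type*} [CommRing A] (t : ℕ → A)

lemma gen_pl (g : Fin 6) : gen (pl t) g = mm t g := by
  rw [gen_eq]
  fin_cases g <;> simp [pl, lins, Fin.ofNat]

lemma th_pl (q : ℕ) (hq : q ∈ tcodes) : th (pl t) q = algebraMap A (TT t) (t q) := by
  simp only [tcodes, List.mem_cons, List.not_mem_nil, or_false] at hq
  rcases hq with h | h | h | h | h | h | h | h | h <;> rw [h]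
  · rw [th2]; simp [pl, lins]
  · rw [th3]; simp [pl, lins]
  · rw [th5]; simp [pl, lins, Fin.ofNat]
  · rw [th7]; simp [pl, lins, Fin.ofNat]
  · rw [th11]; simp [pl, lins, Fin.ofNat]; ring
  · rw [th13]; simp [pl, lins, Fin.ofNat]
  · rw [th17]; simp [pl, lins, Fin.ofNat]
  · rw [th19]; simp [pl, lins]
  · rw [th23]; simp [pl, lins]

lemma bet_pl (j : ℕ) (hj : j < 14) : TT.toMat t (bet (pl t) j) *ᵥ Pi.single 0 1 =
    Pi.single (Fin.ofNat 14 j) 1 := by
  induction j using Nat.strong_induction_on with
  | _ j ih =>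
    rcases Nat.eq_zero_or_pos j with rfl | hpos
    · have : bc.getD (0 : ℕ) 1 = 1 := by decide
      simp only [bet, this, evM_one, map_one, Matrix.one_mulVec]
      rfl
    · obtain ⟨k, rfl⟩ := Nat.exists_eq_add_of_lt hpos
      rw [zero_add] at *
      have hk' : k < 13 := by omega
      have h1 := mat_step t k hk'
      have hg : (steps.getD k (0, 0)).1 < 6 ∧ (steps.getD k (0, 0)).2 < k + 1 ∧
          bc.getD (k + 1) 1 = gc.getD (steps.getD k (0, 0)).1 1 *
            bc.getD (steps.getD k (0, 0)).2 1 := by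
        have : ∀ k < 13, (steps.getD k (0, 0)).1 < 6 ∧ (steps.getD k (0, 0)).2 < k + 1 ∧
          bc.getD (k + 1) 1 = gc.getD (steps.getD k (0, 0)).1 1 *
            bc.getD (steps.getD k (0, 0)).2 1 := by
          decide
        exact this k hk'
      have h2 := ih _ hg.2.1 (by omega)
      have h3 : bet (pl t) (k + 1) = mm t ⟨_, hg.1⟩ * bet (pl t) (steps.getD k (0, 0)).2 := by
        rw [← gen_pl]
        simp only [bet, gen, hg.2.2, evM_mul]
      rw [← h1, h3, map_mul, ← Matrix.mulVec_mulVec, h2]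
      rfl

end mats

noncomputable instance instAlgk : Algebra k (TT (tS k)) :=
  ((algebraMap (SS k) (TT (tS k))).comp (algebraMap k (SS k))).toAlgebra

instance : IsScalarTower k (SS k) (TT (tS k)) := IsScalarTower.of_algebraMap_eq' rfl

lemma linInd_bet : letI := algSS U
    LinearIndependent (SS k) (fun j : Fin 14 => bet U.p j) := by
  letI := algSS U
  obtain ⟨φ, hφt, hφp⟩ := U.univ (TT (tS k)) (fun i => algebraMap (SS k) _
    (MvPolynomial.X ⟨9 + i, by omega⟩)) (pl (tS k)) (isPl_pl (tS k))
  have hφp' : (fun s => φ (U.p s)) = pl (tS k) := funext hφp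
  have hmapev : ∀ m, φ (evM (uu U.p) m) = evM (uu (pl (tS k))) m := by
    intro m
    have := map_evM φ.toRingHom (uu U.p) m
    refine this.trans ?_
    rw [← hφp']
    rfl
  have hmapev2 : ∀ P, φ (ev (uu U.p) P) = ev (uu (pl (tS k))) P := by
    intro P
    have := map_ev φ.toRingHom (uu U.p) P
    refine this.trans ?_
    rw [← hφp']
    rfl
  have hsig : ∀ c : SS k, φ (sig U c) = algebraMap (SS k) (TT (tS k)) c := by
    intro c
    have : φ.comp (sig U) = IsScalarTower.toAlgHom k (SS k) (TT (tS k)) := by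
      apply MvPolynomial.algHom_ext
      intro i
      rw [AlgHom.comp_apply]
      unfold sig
      rw [MvPolynomial.aeval_X]
      unfold par
      by_cases hi : i.val < 9
      · rw [if_pos hi]
        have h1 : ∀ i < 9, tcodes.getD i 1 ∈ tcodes ∧ tcodes.idxOf (tcodes.getD i 1) = i := by
          decide
        obtain ⟨h2, h3⟩ := h1 i hi
        have h4 := th_pl (tS k) _ h2
        have h5 : φ (th U.p (tcodes.getD i 1)) = th (pl (tS k)) (tcodes.getD i 1) := hmapev2 _
        rw [h5, h4]
        unfold tS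
        rw [h3]
        have h6 : Fin.ofNat 12 i.val = i := by
          apply Fin.ext
          simp [Fin.ofNat, Nat.mod_eq_of_lt i.2]
        rw [h6]
        rfl
      · rw [if_neg hi, hφt]
        have h6 : (⟨9 + (Fin.ofNat 3 (i.val - 9)).val, by omega⟩ : Fin 12) = i := by
          apply Fin.ext
          simp only [Fin.ofNat]
          rw [Nat.mod_eq_of_lt (by omega)]
          omega
        rw [h6]
        rfl
    exact DFunLike.congr_fun this c
  rw [Fintype.linearIndependent_iff]
  intro c hc j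
  have hsm : ∀ (c : SS k) (x : R), c • x = sig U c * x := fun c x => rfl
  simp only [hsm] at hc
  have h1 := congrArg φ hc
  rw [map_sum, map_zero] at h1
  have h2 := congrArg (fun x => TT.toMat (tS k) x *ᵥ Pi.single 0 1) h1
  simp only [map_sum, map_zero, Matrix.zero_mulVec, map_mul, hsig, AlgHom.commutes] at h2
  rw [Matrix.sum_mulVec] at h2
  have h3 : ∀ i : Fin 14, (algebraMap (SS k) (Matrix (Fin 14) (Fin 14) (SS k)) (c i) *
      TT.toMat (tS k) (φ (bet U.p i))) *ᵥ Pi.single 0 1 = Pi.single i (c i) := by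
    intro i
    have h4 : φ (bet U.p i) = bet (pl (tS k)) i := hmapev _
    rw [← Matrix.mulVec_mulVec, h4, bet_pl (tS k) i i.2]
    have h6 : Fin.ofNat 14 i.val = i := by
      apply Fin.ext
      simp [Fin.ofNat, Nat.mod_eq_of_lt i.2]
    rw [h6, Matrix.algebraMap_eq_diagonal, Matrix.diagonal_mulVec_single]
    simp
  rw [Finset.sum_congr rfl fun i _ => h3 i] at h2
  have h5 := congrFun h2 j
  rw [Finset.sum_apply] at h5
  simpa using h5

/-- the basis -/
noncomputable def basisU : letI := algSS U
    Module.Basis (Fin 14) (SS k) R :=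
  letI := algSS U
  Module.Basis.mk (linInd_bet U) (span_bet U).ge

end free

end Pool.Agent.H869.GrTab
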