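import Mathlib
import Pool.Agent.H869.GrAlg
import Pool.Agent.H869.CM

set_option autoImplicit false

/-!
The universal ring for Plücker coordinates over a field is a Cohen–Macaulay normal domain.
-/

universe u

namespace Pool.Agent.H869.GrTab

section rel
variable {A : Type*} [CommRing A]

lemma isPl_iff (p : Fin 15 → A) : IsPl p ↔
    (p 0 * p 9 - p 1 * p 6 + p 2 * p 5 = 0 ∧ p 0 * p 10 - p 1 * p 7 + p 3 * p 5 = 0 ∧
    p 0 * p 11 - p 1 * p 8 + p 4 * p 5 = 0 ∧ p 0 * p 12 - p 2 * p 7 + p 3 * p 6 = 0 ∧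
    p 0 * p 13 - p 2 * p 8 + p 4 * p 6 = 0 ∧ p 0 * p 14 - p 3 * p 8 + p 4 * p 7 = 0 ∧
    p 1 * p 12 - p 2 * p 10 + p 3 * p 9 = 0 ∧ p 1 * p 13 - p 2 * p 11 + p 4 * p 9 = 0 ∧
    p 1 * p 14 - p 3 * p 11 + p 4 * p 10 = 0 ∧ p 2 * p 14 - p 3 * p 13 + p 4 * p 12 = 0 ∧
    p 5 * p 12 - p 6 * p 10 + p 7 * p 9 = 0 ∧ p 5 * p 13 - p 6 * p 11 + p 8 * p 9 = 0 ∧
    p 5 * p 14 - p 7 * p 11 + p 8 * p 10 = 0 ∧ p 6 * p 14 - p 7 * p 13 + p 8 * p 12 = 0 ∧
    p 9 * p 14 - p 10 * p 13 + p 11 * p 12 = 0) := by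
  unfold IsPl rels
  simp only [List.forall_mem_cons, List.not_mem_nil, false_imp_iff, implies_true, and_true]
  rfl

/-- the order reversing involution of the coordinates -/
def rev : Fin 15 → Fin 15 := ![14, 13, 11, 8, 4, 12, 10, 7, 3, 9, 6, 2, 5, 1, 0]

lemma rev_rev : ∀ s, rev (rev s) = s := by decide

lemma isPl_rev (p : Fin 15 → A) (h : IsPl p) : IsPl (fun s => p (rev s)) := by
  rw [isPl_iff] at h ⊢
  obtain ⟨h1, h2, h3, h4, h5, h6, h7, h8, h9, h10, h11, h12, h13, h14, h15⟩ := h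
  have e : rev 0 = 14 ∧ rev 1 = 13 ∧ rev 2 = 11 ∧ rev 3 = 8 ∧ rev 4 = 4 ∧ rev 5 = 12 ∧
    rev 6 = 10 ∧ rev 7 = 7 ∧ rev 8 = 3 ∧ rev 9 = 9 ∧ rev 10 = 6 ∧ rev 11 = 2 ∧ rev 12 = 5 ∧
    rev 13 = 1 ∧ rev 14 = 0 := by decide
  obtain ⟨e0, e1, e2, e3, e4, e5, e6, e7, e8, e9, e10, e11, e12, e13, e14⟩ := e
  simp only [e0, e1, e2, e3, e4, e5, e6, e7, e8, e9, e10, e11, e12, e13, e14]
  refine ⟨?_, ?_, ?_, ?_, ?_, ?_, ?_, ?_, ?_, ?_, ?_, ?_, ?_, ?_, ?_⟩
  · linear_combination h15
  · linear_combination h14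
  · linear_combination h10
  · linear_combination h13
  · linear_combination h9
  · linear_combination h6
  · linear_combination h12
  · linear_combination h8
  · linear_combination h5
  · linear_combination h3
  · linear_combination h11
  · linear_combination h7
  · linear_combination h4
  · linear_combination h2
  · linear_combination h1

end rel

variable {k R : Type u} [CommRing k] [CommRing R] [Algebra k R]

/-- reversed universal coordinates -/
def UnivPl.reverse (U : UnivPl k R) : UnivPl k R where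
  t := U.t
  p := fun s => U.p (rev s)
  isPl := isPl_rev _ U.isPl
  univ := by
    intro A _ _ t' p' hp'
    obtain ⟨φ, h1, h2⟩ := U.univ A t' (fun s => p' (rev s)) (isPl_rev _ hp')
    exact ⟨φ, h1, fun s => by rw [h2, rev_rev]⟩
  gen := by
    rw [← U.gen]
    congr 2
    ext x
    constructor
    · rintro ⟨s, rfl⟩
      exact ⟨rev s, rfl⟩
    · rintro ⟨s, rfl⟩
      exact ⟨rev s, by simp only [rev_rev]⟩

section loc

/-- localised polynomial ring -/
abbrev DD (k : Type u) [CommRing k] : Type u := Localization.Away (MvPolynomial.X 0 : SS k)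

/-- coordinates -/
noncomputable def yy (k : Type u) [CommRing k] (i : Fin 12) : DD k :=
  algebraMap (SS k) (DD k) (MvPolynomial.X i)

/-- inverse of the first coordinate -/
noncomputable def del (k : Type u) [CommRing k] : DD k :=
  IsLocalization.Away.invSelf (MvPolynomial.X 0 : SS k)

lemma yy_del : yy k 0 * del k = 1 := IsLocalization.Away.mul_invSelf _

/-- decomposable coordinates -/
noncomputable def pD (k : Type u) [CommRing k] : Fin 15 → DD k :=
  ![yy k 0, yy k 1, yy k 2, yy k 3, yy k 4, yy k 5, yy k 6, yy k 7, yy k 8,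
    (yy k 1 * yy k 6 - yy k 2 * yy k 5) * del k, (yy k 1 * yy k 7 - yy k 3 * yy k 5) * del k,
    (yy k 1 * yy k 8 - yy k 4 * yy k 5) * del k, (yy k 2 * yy k 7 - yy k 3 * yy k 6) * del k,
    (yy k 2 * yy k 8 - yy k 4 * yy k 6) * del k, (yy k 3 * yy k 8 - yy k 4 * yy k 7) * del k]

lemma isPl_pD : IsPl (pD k) := by
  rw [isPl_iff]
  have h := yy_del (k := k)
  simp only [pD, Matrix.cons_val]
  refine ⟨?_, ?_, ?_, ?_, ?_, ?_, ?_, ?_, ?_, ?_, ?_, ?_, ?_, ?_, ?_⟩
  · linear_combination (yy k 1 * yy k 6 - yy k 2 * yy k 5) * h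
  · linear_combination (yy k 1 * yy k 7 - yy k 3 * yy k 5) * h
  · linear_combination (yy k 1 * yy k 8 - yy k 4 * yy k 5) * h
  · linear_combination (yy k 2 * yy k 7 - yy k 3 * yy k 6) * h
  · linear_combination (yy k 2 * yy k 8 - yy k 4 * yy k 6) * h
  · linear_combination (yy k 3 * yy k 8 - yy k 4 * yy k 7) * h
  all_goals ring

variable (U : UnivPl k R)

lemma pl_hom_ext {B : Type*} [CommRing B] [Algebra k B] (f g : R →ₐ[k] B)
    (ht : ∀ i, f (U.t i) = g (U.t i)) (hp : ∀ s, f (U.p s) = g (U.p s)) : f = g := by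
  apply AlgHom.ext_of_adjoin_eq_top U.gen
  rintro x (⟨i, rfl⟩ | ⟨s, rfl⟩)
  · exact ht i
  · exact hp s

lemma exists_equivD : Nonempty (Localization.Away (U.p 0) ≃ₐ[k] DD k) := by
  let R1 := Localization.Away (U.p 0)
  obtain ⟨φ, hφt, hφp⟩ := U.univ (DD k) (fun i => yy k ⟨9 + i, by omega⟩) (pD k) isPl_pD
  have hφ0 : φ (U.p 0) = yy k 0 := hφp 0
  have hu : IsUnit (φ (U.p 0)) := by
    rw [hφ0]
    exact IsUnit.of_mul_eq_one _ yy_del
  let φ1 : R1 →ₐ[k] DD k := IsLocalization.liftAlgHom (M := Submonoid.powers (U.p 0)) (f := φ) (by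
    rintro ⟨_, n, rfl⟩
    simpa using hu.pow n)
  have hφ1 : ∀ r, φ1 (algebraMap R R1 r) = φ r := by
    intro r
    simp [φ1]
  let c : Fin 12 → R := ![U.p 0, U.p 1, U.p 2, U.p 3, U.p 4, U.p 5, U.p 6, U.p 7, U.p 8,
    U.t 0, U.t 1, U.t 2]
  let ψ : SS k →ₐ[k] R1 := MvPolynomial.aeval fun i => algebraMap R R1 (c i)
  have hψ : ∀ i, ψ (MvPolynomial.X i) = algebraMap R R1 (c i) := by
    intro i
    simp [ψ]
  have hu' : IsUnit (ψ (MvPolynomial.X 0)) := by
    rw [hψ]
    exact IsLocalization.Away.algebraMap_isUnit (U.p 0)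
  let ψ1 : DD k →ₐ[k] R1 := IsLocalization.liftAlgHom
    (M := Submonoid.powers (MvPolynomial.X 0 : SS k)) (f := ψ) (by
    rintro ⟨_, n, rfl⟩
    simpa using hu'.pow n)
  have hψ1 : ∀ i, ψ1 (yy k i) = algebraMap R R1 (c i) := by
    intro i
    rw [← hψ]
    simp [ψ1, yy]
  have hdel : algebraMap R R1 (U.p 0) * ψ1 (del k) = 1 := by
    have := congrArg ψ1 (yy_del (k := k))
    rw [map_mul, map_one, hψ1] at this
    exact this
  have hpl := (isPl_iff _).1 U.isPl
  obtain ⟨h1, h2, h3, h4, h5, h6, -⟩ := hpl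
  have e1 : ψ1.comp φ1 = AlgHom.id k R1 := by
    apply IsLocalization.algHom_ext (Submonoid.powers (U.p 0))
    apply pl_hom_ext U
    · intro i
      change ψ1 (φ1 (algebraMap R R1 (U.t i))) = algebraMap R R1 (U.t i)
      rw [hφ1, hφt, hψ1]
      fin_cases i <;> rfl
    · intro s
      change ψ1 (φ1 (algebraMap R R1 (U.p s))) = algebraMap R R1 (U.p s)
      rw [hφ1, hφp]
      have key : ∀ a b c' d q : R, U.p 0 * q - (a * b - c' * d) = 0 →
          (algebraMap R R1 a * algebraMap R R1 b - algebraMap R R1 c' * algebraMap R R1 d) *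
            ψ1 (del k) = algebraMap R R1 q := by
        intro a b c' d q hq
        have h7 := congrArg (algebraMap R R1) hq
        simp only [map_sub, map_mul, map_zero] at h7
        linear_combination (-ψ1 (del k)) * h7 + algebraMap R R1 q * hdel
      fin_cases s
      · simp only [pD, Fin.zero_eta, Matrix.cons_val, hψ1]; rfl
      · simp only [pD, Fin.mk_one, Matrix.cons_val, hψ1]; rfl
      · simp only [pD, Fin.reduceFinMk, Matrix.cons_val, hψ1]; rfl
      · simp only [pD, Fin.reduceFinMk, Matrix.cons_val, hψ1]; rfl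
      · simp only [pD, Fin.reduceFinMk, Matrix.cons_val, hψ1]; rfl
      · simp only [pD, Fin.reduceFinMk, Matrix.cons_val, hψ1]; rfl
      · simp only [pD, Fin.reduceFinMk, Matrix.cons_val, hψ1]; rfl
      · simp only [pD, Fin.reduceFinMk, Matrix.cons_val, hψ1]; rfl
      · simp only [pD, Fin.reduceFinMk, Matrix.cons_val, hψ1]; rfl
      · simp only [pD, Fin.reduceFinMk, Matrix.cons_val, map_mul, map_sub, hψ1]
        exact key (U.p 1) (U.p 6) (U.p 2) (U.p 5) (U.p 9) (by linear_combination h1)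
      · simp only [pD, Fin.reduceFinMk, Matrix.cons_val, map_mul, map_sub, hψ1]
        exact key (U.p 1) (U.p 7) (U.p 3) (U.p 5) (U.p 10) (by linear_combination h2)
      · simp only [pD, Fin.reduceFinMk, Matrix.cons_val, map_mul, map_sub, hψ1]
        exact key (U.p 1) (U.p 8) (U.p 4) (U.p 5) (U.p 11) (by linear_combination h3)
      · simp only [pD, Fin.reduceFinMk, Matrix.cons_val, map_mul, map_sub, hψ1]
        exact key (U.p 2) (U.p 7) (U.p 3) (U.p 6) (U.p 12) (by linear_combination h4)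
      · simp only [pD, Fin.reduceFinMk, Matrix.cons_val, map_mul, map_sub, hψ1]
        exact key (U.p 2) (U.p 8) (U.p 4) (U.p 6) (U.p 13) (by linear_combination h5)
      · simp only [pD, Fin.reduceFinMk, Matrix.cons_val, map_mul, map_sub, hψ1]
        exact key (U.p 3) (U.p 8) (U.p 4) (U.p 7) (U.p 14) (by linear_combination h6)
  have e2 : φ1.comp ψ1 = AlgHom.id k (DD k) := by
    apply IsLocalization.algHom_ext (Submonoid.powers (MvPolynomial.X 0 : SS k))
    apply MvPolynomial.algHom_ext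
    intro i
    change φ1 (ψ1 (yy k i)) = yy k i
    rw [hψ1, hφ1]
    fin_cases i
    · exact hφp 0
    · exact hφp 1
    · exact hφp 2
    · exact hφp 3
    · exact hφp 4
    · exact hφp 5
    · exact hφp 6
    · exact hφp 7
    · exact hφp 8
    · exact hφt 0
    · exact hφt 1
    · exact hφt 2
  exact ⟨AlgEquiv.ofAlgHom φ1 ψ1 e2 e1⟩

end loc

section field

variable {K : Type u} [Field K] [Algebra K R] (U : UnivPl K R)

instance : IsDomain (DD K) :=
  IsLocalization.isDomain_localization (powers_le_nonZeroDivisors_of_noZeroDivisors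
    (MvPolynomial.X_ne_zero 0))

instance : IsIntegrallyClosed (DD K) :=
  isIntegrallyClosed_of_isLocalization (R := SS K) (DD K) (Submonoid.powers (MvPolynomial.X 0))
    (powers_le_nonZeroDivisors_of_noZeroDivisors (MvPolynomial.X_ne_zero 0))

lemma normal_away0 : IsDomain (Localization.Away (U.p 0)) ∧
    IsIntegrallyClosed (Localization.Away (U.p 0)) := by
  obtain ⟨e⟩ := exists_equivD U
  have h1 : IsDomain (Localization.Away (U.p 0)) :=
    Function.Injective.isDomain (e : Localization.Away (U.p 0) →+* DD K) e.injective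
  exact ⟨h1, IsIntegrallyClosed.of_equiv e.symm.toRingEquiv⟩

lemma p0_eq : U.p 0 = sig U (MvPolynomial.X 0) := by
  rw [← th2 U.p, ← sig_tS U 2 (by decide)]
  rfl

lemma p14_eq : U.p 14 = sig U (MvPolynomial.X 8) := by
  rw [← th23 U.p, ← sig_tS U 23 (by decide)]
  have : tcodes.idxOf 23 = 8 := by decide
  unfold tS
  rw [this]
  rfl

lemma X0_dvd (c : SS K) (h : (MvPolynomial.X 0 : SS K) ∣ MvPolynomial.X 8 * c) :
    (MvPolynomial.X 0 : SS K) ∣ c := by
  have hp : Prime (MvPolynomial.X 0 : SS K) := MvPolynomial.X_prime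
  rcases hp.dvd_or_dvd h with h | h
  · exfalso
    rw [MvPolynomial.X_dvd_X] at h
    exact absurd h (by decide)
  · exact h

lemma cop (r : R) (h : U.p 0 ∣ U.p 14 * r) : U.p 0 ∣ r := by
  letI := algSS U
  obtain ⟨r', hr'⟩ := h
  rw [p0_eq, p14_eq] at hr'
  have hsm : ∀ (c : SS K) (x : R), c • x = sig U c * x := fun c x => rfl
  rw [← hsm, ← hsm] at hr'
  have h1 : ∀ j, (MvPolynomial.X 0 : SS K) ∣ (basisU U).repr r j := by
    intro j
    apply X0_dvd
    have := congrArg (fun x => (basisU U).repr x j) hr'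
    simp only [map_smul, Finsupp.smul_apply, smul_eq_mul] at this
    exact ⟨_, this⟩
  choose c hc using h1
  refine ⟨∑ j, c j • basisU U j, ?_⟩
  rw [p0_eq, ← hsm, Finset.smul_sum]
  nth_rewrite 1 [← (basisU U).sum_repr r]
  refine Finset.sum_congr rfl fun j _ => ?_
  rw [smul_smul, ← hc]

lemma p0_reg (r : R) (h : U.p 0 * r = 0) : r = 0 := by
  letI := algSS U
  rw [p0_eq] at h
  have hsm : ∀ (c : SS K) (x : R), c • x = sig U c * x := fun c x => rfl
  rw [← hsm] at h
  apply (basisU U).repr.injective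
  ext j
  have := congrArg (fun x => (basisU U).repr x j) h
  simp only [map_smul, Finsupp.smul_apply, smul_eq_mul, map_zero, Finsupp.coe_zero,
    Pi.zero_apply] at this
  rw [map_zero]
  exact congrArg _ ((mul_eq_zero.1 this).resolve_left (MvPolynomial.X_ne_zero 0))

lemma cop_pow (m n : ℕ) (r : R) (h : U.p 0 ^ m ∣ U.p 14 ^ n * r) : U.p 0 ^ m ∣ r := by
  have h1 : ∀ n (r : R), U.p 0 ∣ U.p 14 ^ n * r → U.p 0 ∣ r := by
    intro n
    induction n with
    | zero => intro r h; simpa using h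
    | succ n ih =>
      intro r h
      apply cop U
      apply ih
      rw [← mul_assoc, ← pow_succ]
      exact h
  induction m generalizing r with
  | zero => simp
  | succ m ih =>
    have h2 := h1 n r ((Dvd.intro_left (U.p 0 ^ m) (pow_succ _ _).symm).trans h)
    obtain ⟨r', rfl⟩ := h2
    rw [pow_succ', mul_left_comm] at h
    obtain ⟨z, hz⟩ := h
    have h3 : U.p 14 ^ n * r' = U.p 0 ^ m * z := by
      apply sub_eq_zero.1
      apply p0_reg U
      rw [mul_sub, hz]
      ring
    rw [pow_succ']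
    exact mul_dvd_mul_left _ (ih r' ⟨z, h3⟩)

lemma powers_p0_le : Submonoid.powers (U.p 0) ≤ nonZeroDivisors R := by
  rw [Submonoid.powers_le, mem_nonZeroDivisors_iff]
  exact ⟨fun x hx => p0_reg U x hx, fun x hx => p0_reg U x (by rw [mul_comm]; exact hx)⟩

include U in
theorem isDomain_univ : IsDomain R := by
  have h1 := (normal_away0 U).1
  have h2 : Function.Injective (algebraMap R (Localization.Away (U.p 0))) :=
    IsLocalization.injective _ (powers_p0_le U)
  exact h2.isDomain (algebraMap R (Localization.Away (U.p 0)))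

include U in
theorem isIntegrallyClosed_univ : IsIntegrallyClosed R := by
  have hdom : IsDomain R := isDomain_univ U
  have hn0 := normal_away0 U
  have hn1 := normal_away0 U.reverse
  have hp1 : U.reverse.p 0 = U.p 14 := rfl
  rw [hp1] at hn1
  have hle0 := powers_p0_le U
  have hle1 : Submonoid.powers (U.p 14) ≤ nonZeroDivisors R := powers_p0_le U.reverse
  let F := FractionRing R
  have key : ∀ s : R, Submonoid.powers s ≤ nonZeroDivisors R →
      IsDomain (Localization.Away s) → IsIntegrallyClosed (Localization.Away s) →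
      ∀ x : F, IsIntegral R x → ∃ (n : ℕ) (a : R), algebraMap R F (s ^ n) * x = algebraMap R F a := by
    intro s hs h1 h2 x hx
    let R1 := Localization.Away s
    let g : R1 →+* F := IsLocalization.lift (M := Submonoid.powers s) (g := algebraMap R F)
      (fun y => IsLocalization.map_units F (⟨y, hs y.2⟩ : nonZeroDivisors R))
    let := g.toAlgebra
    have : IsScalarTower R R1 F := IsScalarTower.of_algebraMap_eq'
      (by
        rw [RingHom.algebraMap_toAlgebra]
        exact (IsLocalization.lift_comp _).symm)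
    have := IsFractionRing.isFractionRing_of_isDomain_of_isLocalization (Submonoid.powers s) R1 F
    obtain ⟨y, hy⟩ := (isIntegrallyClosed_iff F).1 h2 (hx.tower_top (A := R1))
    obtain ⟨⟨a, ⟨_, n, rfl⟩⟩, ha⟩ := IsLocalization.surj (Submonoid.powers s) y
    refine ⟨n, a, ?_⟩
    have h3 := congrArg (algebraMap R1 F) ha
    rw [map_mul, hy, ← IsScalarTower.algebraMap_apply, ← IsScalarTower.algebraMap_apply] at h3
    rw [mul_comm]
    exact h3
  rw [isIntegrallyClosed_iff F]
  intro x hx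
  obtain ⟨m, a, ha⟩ := key _ hle0 hn0.1 hn0.2 x hx
  obtain ⟨n, b, hb⟩ := key _ hle1 hn1.1 hn1.2 x hx
  have hinj : Function.Injective (algebraMap R F) := IsFractionRing.injective R F
  have h1 : U.p 0 ^ m ∣ U.p 14 ^ n * a := by
    refine ⟨b, ?_⟩
    apply hinj
    rw [map_mul, map_mul, ← ha, ← hb]
    ring
  obtain ⟨r, rfl⟩ := cop_pow U m n a h1
  refine ⟨r, ?_⟩
  have h2 : algebraMap R F (U.p 0 ^ m) ≠ 0 := by
    intro h
    have h3 : U.p 0 ^ m = 0 := hinj (by rw [h, map_zero])
    have h4 : U.p 0 ^ m ∈ nonZeroDivisors R := hle0 ⟨m, rfl⟩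
    rw [h3] at h4
    exact (nonZeroDivisors.ne_zero h4) rfl
  apply mul_left_cancel₀ h2
  rw [ha, map_mul]

include U in
theorem isCMRing_univ : IsCMRing R := by
  letI := algSS U
  have h1 : IsCMRing (SS K) := (IsCMRing.of_field K).mvPolynomial (Fin 12)
  have h2 : Module.Free (SS K) R := Module.Free.of_basis (basisU U)
  have h3 : Module.Finite (SS K) R := Module.Finite.of_basis (basisU U)
  have h4 : IsNoetherianRing R := isNoetherian_of_isNoetherianRing_of_finite (SS K) R |> fun h =>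
    isNoetherianRing_iff.2 (isNoetherian_of_tower (SS K) h)
  exact h1.of_flat_quasiFinite

end field

end Pool.Agent.H869.GrTab
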