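import Mathlib
import Pool.Agent.H869.GrNorm

set_option autoImplicit false
set_option linter.unusedSimpArgs false
set_option linter.style.haveILetI false

/-!
The universal based algebra of rank four: multiplication matrices in terms of Plücker coordinates.
-/

universe u

namespace Pool.Agent.H869.GrTab

section mats

variable {A : Type*} [CommRing A] (t : Fin 3 → A) (p : Fin 15 → A)

/-- multiplication by a coordinate -/
def F1 : Matrix (Fin 4) (Fin 4) A :=
  !![0, p 0 * p 8 + p 0 * t 2 - p 1 * p 7 + p 1 * p 9 - p 1 * t 1 - p 2 * p 4 + p 3 * t 0 + p 5 * t 0 - t 0 * t 0, p 0 * p 13 - p 1 * p 12 + p 2 * t 2 - t 0 * t 1, p 0 * p 14 - p 1 * p 13 + p 3 * t 2 - p 4 * t 1 - t 0 * t 2;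
    1, -p 3 - p 5 + 2 * t 0, t 1, t 2;
    0, p 1, t 0, p 4;
    0, -p 0, -p 2, -p 3 + t 0]

/-- multiplication by a coordinate -/
def F2 : Matrix (Fin 4) (Fin 4) A :=
  !![0, p 0 * p 13 - p 1 * p 12 + p 2 * t 2 - t 0 * t 1, -p 12 * p 3 - p 12 * p 5 + p 12 * t 0 + p 13 * p 2 + p 6 * t 2 - p 7 * t 1 + p 9 * t 1 - t 1 * t 1, -p 12 * p 4 - p 13 * p 5 + p 13 * t 0 - p 8 * t 1 + p 9 * t 2 - t 1 * t 2;
    0, t 1, -p 12, -p 13;
    1, t 0, p 7 - p 9 + 2 * t 1, p 8 + t 2;
    0, -p 2, -p 6, -p 9 + t 1]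

/-- multiplication by a coordinate -/
def F3 : Matrix (Fin 4) (Fin 4) A :=
  !![0, p 0 * p 14 - p 1 * p 13 + p 3 * t 2 - p 4 * t 1 - t 0 * t 2, -p 12 * p 4 - p 13 * p 5 + p 13 * t 0 - p 8 * t 1 + p 9 * t 2 - t 1 * t 2, p 10 * t 2 - p 11 * t 1 - p 13 * p 4 - p 14 * p 5 + p 14 * t 0 - p 8 * t 2 - t 2 * t 2;
    0, t 2, -p 13, -p 14;
    0, p 4, p 8 + t 2, p 11;
    1, -p 3 + t 0, -p 9 + t 1, -p 10 + p 8 + 2 * t 2]

lemma comm12 (h : IsPl p) : F1 t p * F2 t p = F2 t p * F1 t p := by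
  obtain ⟨r0, r1, r2, r3, r4, r5, r6, r7, r8, r9, r10, r11, r12, r13, r14⟩ := (isPl_iff p).1 h
  ext m k
  rw [Matrix.mul_apply, Matrix.mul_apply, Fin.sum_univ_four, Fin.sum_univ_four]
  fin_cases m <;> fin_cases k
  · simp only [F1, F2, Fin.isValue, Fin.zero_eta, Fin.mk_one, Fin.reduceFinMk, Matrix.cons_val, Matrix.of_apply]
    ring
  · simp only [F1, F2, Fin.isValue, Fin.zero_eta, Fin.mk_one, Fin.reduceFinMk, Matrix.cons_val, Matrix.of_apply]
    linear_combination (t 2) * r0 + (-p 0) * r9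
  · simp only [F1, F2, Fin.isValue, Fin.zero_eta, Fin.mk_one, Fin.reduceFinMk, Matrix.cons_val, Matrix.of_apply]
    linear_combination (-p 13) * r0 + (-t 2) * r3 + (t 1) * r4 + (-p 0) * r13
  · simp only [F1, F2, Fin.isValue, Fin.zero_eta, Fin.mk_one, Fin.reduceFinMk, Matrix.cons_val, Matrix.of_apply]
    linear_combination (-p 13) * r1 + (p 12) * r2 + (-t 2) * r4 + (t 1) * r5 + (-p 0) * r14
  · simp only [F1, F2, Fin.isValue, Fin.zero_eta, Fin.mk_one, Fin.reduceFinMk, Matrix.cons_val, Matrix.of_apply]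
    ring
  · simp only [F1, F2, Fin.isValue, Fin.zero_eta, Fin.mk_one, Fin.reduceFinMk, Matrix.cons_val, Matrix.of_apply]
    ring
  · simp only [F1, F2, Fin.isValue, Fin.zero_eta, Fin.mk_one, Fin.reduceFinMk, Matrix.cons_val, Matrix.of_apply]
    ring
  · simp only [F1, F2, Fin.isValue, Fin.zero_eta, Fin.mk_one, Fin.reduceFinMk, Matrix.cons_val, Matrix.of_apply]
    ring
  · simp only [F1, F2, Fin.isValue, Fin.zero_eta, Fin.mk_one, Fin.reduceFinMk, Matrix.cons_val, Matrix.of_apply]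
    ring
  · simp only [F1, F2, Fin.isValue, Fin.zero_eta, Fin.mk_one, Fin.reduceFinMk, Matrix.cons_val, Matrix.of_apply]
    ring
  · simp only [F1, F2, Fin.isValue, Fin.zero_eta, Fin.mk_one, Fin.reduceFinMk, Matrix.cons_val, Matrix.of_apply]
    linear_combination (-1) * r4
  · simp only [F1, F2, Fin.isValue, Fin.zero_eta, Fin.mk_one, Fin.reduceFinMk, Matrix.cons_val, Matrix.of_apply]
    linear_combination (-1) * r5
  · simp only [F1, F2, Fin.isValue, Fin.zero_eta, Fin.mk_one, Fin.reduceFinMk, Matrix.cons_val, Matrix.of_apply]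
    ring
  · simp only [F1, F2, Fin.isValue, Fin.zero_eta, Fin.mk_one, Fin.reduceFinMk, Matrix.cons_val, Matrix.of_apply]
    linear_combination (-1) * r0
  · simp only [F1, F2, Fin.isValue, Fin.zero_eta, Fin.mk_one, Fin.reduceFinMk, Matrix.cons_val, Matrix.of_apply]
    linear_combination (1) * r3
  · simp only [F1, F2, Fin.isValue, Fin.zero_eta, Fin.mk_one, Fin.reduceFinMk, Matrix.cons_val, Matrix.of_apply]
    linear_combination (1) * r4

lemma comm13 (h : IsPl p) : F1 t p * F3 t p = F3 t p * F1 t p := by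
  obtain ⟨r0, r1, r2, r3, r4, r5, r6, r7, r8, r9, r10, r11, r12, r13, r14⟩ := (isPl_iff p).1 h
  ext m k
  rw [Matrix.mul_apply, Matrix.mul_apply, Fin.sum_univ_four, Fin.sum_univ_four]
  fin_cases m <;> fin_cases k
  · simp only [F1, F3, Fin.isValue, Fin.zero_eta, Fin.mk_one, Fin.reduceFinMk, Matrix.cons_val, Matrix.of_apply]
    ring
  · simp only [F1, F3, Fin.isValue, Fin.zero_eta, Fin.mk_one, Fin.reduceFinMk, Matrix.cons_val, Matrix.of_apply]
    linear_combination (t 2) * r1 + (-t 1) * r2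
  · simp only [F1, F3, Fin.isValue, Fin.zero_eta, Fin.mk_one, Fin.reduceFinMk, Matrix.cons_val, Matrix.of_apply]
    linear_combination (-p 14) * r0 + (-t 2) * r6 + (t 1) * r7 + (t 0) * r9 + (-p 1) * r13
  · simp only [F1, F3, Fin.isValue, Fin.zero_eta, Fin.mk_one, Fin.reduceFinMk, Matrix.cons_val, Matrix.of_apply]
    linear_combination (-p 14) * r1 + (p 13) * r2 + (-t 2) * r7 + (t 1) * r8 + (p 4) * r9 + (-p 1) * r14
  · simp only [F1, F3, Fin.isValue, Fin.zero_eta, Fin.mk_one, Fin.reduceFinMk, Matrix.cons_val, Matrix.of_apply]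
    ring
  · simp only [F1, F3, Fin.isValue, Fin.zero_eta, Fin.mk_one, Fin.reduceFinMk, Matrix.cons_val, Matrix.of_apply]
    ring
  · simp only [F1, F3, Fin.isValue, Fin.zero_eta, Fin.mk_one, Fin.reduceFinMk, Matrix.cons_val, Matrix.of_apply]
    linear_combination (-1) * r9
  · simp only [F1, F3, Fin.isValue, Fin.zero_eta, Fin.mk_one, Fin.reduceFinMk, Matrix.cons_val, Matrix.of_apply]
    ring
  · simp only [F1, F3, Fin.isValue, Fin.zero_eta, Fin.mk_one, Fin.reduceFinMk, Matrix.cons_val, Matrix.of_apply]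
    ring
  · simp only [F1, F3, Fin.isValue, Fin.zero_eta, Fin.mk_one, Fin.reduceFinMk, Matrix.cons_val, Matrix.of_apply]
    linear_combination (1) * r2
  · simp only [F1, F3, Fin.isValue, Fin.zero_eta, Fin.mk_one, Fin.reduceFinMk, Matrix.cons_val, Matrix.of_apply]
    linear_combination (-1) * r7
  · simp only [F1, F3, Fin.isValue, Fin.zero_eta, Fin.mk_one, Fin.reduceFinMk, Matrix.cons_val, Matrix.of_apply]
    linear_combination (-1) * r8
  · simp only [F1, F3, Fin.isValue, Fin.zero_eta, Fin.mk_one, Fin.reduceFinMk, Matrix.cons_val, Matrix.of_apply]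
    ring
  · simp only [F1, F3, Fin.isValue, Fin.zero_eta, Fin.mk_one, Fin.reduceFinMk, Matrix.cons_val, Matrix.of_apply]
    linear_combination (-1) * r1
  · simp only [F1, F3, Fin.isValue, Fin.zero_eta, Fin.mk_one, Fin.reduceFinMk, Matrix.cons_val, Matrix.of_apply]
    linear_combination (1) * r6
  · simp only [F1, F3, Fin.isValue, Fin.zero_eta, Fin.mk_one, Fin.reduceFinMk, Matrix.cons_val, Matrix.of_apply]
    linear_combination (1) * r7

lemma comm23 (h : IsPl p) : F2 t p * F3 t p = F3 t p * F2 t p := by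
  obtain ⟨r0, r1, r2, r3, r4, r5, r6, r7, r8, r9, r10, r11, r12, r13, r14⟩ := (isPl_iff p).1 h
  ext m k
  rw [Matrix.mul_apply, Matrix.mul_apply, Fin.sum_univ_four, Fin.sum_univ_four]
  fin_cases m <;> fin_cases k
  · simp only [F2, F3, Fin.isValue, Fin.zero_eta, Fin.mk_one, Fin.reduceFinMk, Matrix.cons_val, Matrix.of_apply]
    ring
  · simp only [F2, F3, Fin.isValue, Fin.zero_eta, Fin.mk_one, Fin.reduceFinMk, Matrix.cons_val, Matrix.of_apply]
    linear_combination (-p 14) * r0 + (p 13) * r1 + (-p 12) * r2 + (t 2) * r4 + (-t 1) * r5 + (-t 2) * r6 + (t 1) * r7 + (t 0) * r9 + (-p 1) * r13 + (p 0) * r14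
  · simp only [F2, F3, Fin.isValue, Fin.zero_eta, Fin.mk_one, Fin.reduceFinMk, Matrix.cons_val, Matrix.of_apply]
    linear_combination (-p 13) * r4 + (p 12) * r5 + (-t 2) * r10 + (t 1) * r11 + (-p 5 + t 0) * r13
  · simp only [F2, F3, Fin.isValue, Fin.zero_eta, Fin.mk_one, Fin.reduceFinMk, Matrix.cons_val, Matrix.of_apply]
    linear_combination (-p 13) * r7 + (p 12) * r8 + (-t 2) * r9 + (-t 2) * r11 + (t 1) * r12 + (-p 5 + t 0) * r14
  · simp only [F2, F3, Fin.isValue, Fin.zero_eta, Fin.mk_one, Fin.reduceFinMk, Matrix.cons_val, Matrix.of_apply]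
    ring
  · simp only [F2, F3, Fin.isValue, Fin.zero_eta, Fin.mk_one, Fin.reduceFinMk, Matrix.cons_val, Matrix.of_apply]
    linear_combination (-1) * r9
  · simp only [F2, F3, Fin.isValue, Fin.zero_eta, Fin.mk_one, Fin.reduceFinMk, Matrix.cons_val, Matrix.of_apply]
    linear_combination (-1) * r13
  · simp only [F2, F3, Fin.isValue, Fin.zero_eta, Fin.mk_one, Fin.reduceFinMk, Matrix.cons_val, Matrix.of_apply]
    linear_combination (-1) * r14
  · simp only [F2, F3, Fin.isValue, Fin.zero_eta, Fin.mk_one, Fin.reduceFinMk, Matrix.cons_val, Matrix.of_apply]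
    ring
  · simp only [F2, F3, Fin.isValue, Fin.zero_eta, Fin.mk_one, Fin.reduceFinMk, Matrix.cons_val, Matrix.of_apply]
    linear_combination (1) * r5 + (-1) * r7
  · simp only [F2, F3, Fin.isValue, Fin.zero_eta, Fin.mk_one, Fin.reduceFinMk, Matrix.cons_val, Matrix.of_apply]
    linear_combination (-1) * r11
  · simp only [F2, F3, Fin.isValue, Fin.zero_eta, Fin.mk_one, Fin.reduceFinMk, Matrix.cons_val, Matrix.of_apply]
    linear_combination (-1) * r12
  · simp only [F2, F3, Fin.isValue, Fin.zero_eta, Fin.mk_one, Fin.reduceFinMk, Matrix.cons_val, Matrix.of_apply]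
    ring
  · simp only [F2, F3, Fin.isValue, Fin.zero_eta, Fin.mk_one, Fin.reduceFinMk, Matrix.cons_val, Matrix.of_apply]
    linear_combination (-1) * r4 + (1) * r6
  · simp only [F2, F3, Fin.isValue, Fin.zero_eta, Fin.mk_one, Fin.reduceFinMk, Matrix.cons_val, Matrix.of_apply]
    linear_combination (1) * r10
  · simp only [F2, F3, Fin.isValue, Fin.zero_eta, Fin.mk_one, Fin.reduceFinMk, Matrix.cons_val, Matrix.of_apply]
    linear_combination (1) * r9 + (1) * r11

end mats

end Pool.Agent.H869.GrTab
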