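import Mathlib
import Pool.Agent.H869.Quart
import Pool.Graph.R_seed8.Helper226.HilbUniv

set_option autoImplicit false
set_option linter.unusedSimpArgs false
set_option linter.style.haveILetI false

/-!
Charts of the Hilbert scheme of four points of affine three-space and Plücker coordinates.
-/

universe u

namespace Pool.Agent.H869.GrTab

open Pool.Agent.Helper226 MvPolynomial Matrix

section chart

variable {k A : Type u} [CommRing k] [CommRing A] [Algebra k A]

/-- the basis `1, x, y, z` -/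
noncomputable def bas (k : Type u) [CommRing k] : Fin 4 → MvPolynomial (Fin 3) k :=
  ![1, X 0, X 1, X 2]

lemma bas_zero : bas k 0 = 1 := rfl

lemma bas_succ (i : Fin 3) : bas k i.succ = X i := by
  fin_cases i <;> rfl

lemma exists_hom (F : Fin 3 → Matrix (Fin 4) (Fin 4) A)
    (hF : ∀ i j, F i * F j = F j * F i) :
    ∃ φ : MvPolynomial (Fin 3) A →ₐ[A] Matrix (Fin 4) (Fin 4) A, ∀ i, φ (X i) = F i := by
  letI : CommRing (Algebra.adjoin A (Set.range F)) := Algebra.adjoinCommRingOfComm A (by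
    rintro _ ⟨x, rfl⟩ _ ⟨y, rfl⟩
    exact hF x y)
  let φ : MvPolynomial (Fin 3) A →ₐ[A] Algebra.adjoin A (Set.range F) :=
    aeval fun i => ⟨F i, Algebra.subset_adjoin ⟨i, rfl⟩⟩
  refine ⟨(Algebra.adjoin A (Set.range F)).val.comp φ, fun i => ?_⟩
  rw [AlgHom.comp_apply]
  simp [φ]

lemma exists_chart (F : Fin 3 → Matrix (Fin 4) (Fin 4) A)
    (hF : ∀ i j, F i * F j = F j * F i)
    (h0 : ∀ i, F i *ᵥ Pi.single 0 1 = Pi.single (Fin.succ i) 1) :
    ∃ c : Chart k (bas k) A, ∀ i f, c.q (f * X i) = F i *ᵥ c.q f := by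
  obtain ⟨φ, hφ⟩ := exists_hom F hF
  have hcomm : ∀ f g, φ f * φ g = φ g * φ f := fun f g => by
    rw [← map_mul, mul_comm, map_mul]
  let e0 : Fin 4 → A := Pi.single 0 1
  let q : MvPolynomial (Fin 3) k →ₗ[k] (Fin 4 → A) :=
    { toFun := fun f => φ (MvPolynomial.map (algebraMap k A) f) *ᵥ e0
      map_add' := by
        intro f g
        rw [map_add, map_add, Matrix.add_mulVec]
      map_smul' := by
        intro a f
        rw [smul_eq_C_mul, map_mul, MvPolynomial.map_C, ← smul_eq_C_mul, map_smul,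
          Matrix.smul_mulVec, RingHom.id_apply, algebraMap_smul] }
  have hq : ∀ f, q f = φ (MvPolynomial.map (algebraMap k A) f) *ᵥ e0 := fun f => rfl
  have hb : ∀ j, q (bas k j) = Pi.single j 1 := by
    intro j
    refine Fin.cases ?_ (fun i => ?_) j
    · rw [hq, bas_zero, map_one, map_one, Matrix.one_mulVec]
    · rw [hq, bas_succ, MvPolynomial.map_X, hφ]
      exact h0 i
  have hexp : ∀ v : Fin 4 → A, v = ∑ j, v j • (Pi.single j 1 : Fin 4 → A) := by
    intro v
    ext m
    simp [Pi.single_apply]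
  refine ⟨⟨q, hb, ?_⟩, ?_⟩
  · intro x y
    have h1 : q (x * y) = φ (MvPolynomial.map (algebraMap k A) y) *ᵥ q x := by
      rw [hq, hq, map_mul, map_mul, hcomm, ← Matrix.mulVec_mulVec]
    rw [h1, hexp (q x), Matrix.mulVec_sum]
    refine Finset.sum_congr rfl fun j _ => ?_
    rw [Matrix.mulVec_smul, ← hb j]
    congr 1
    · congr 1
      exact (congrFun (hexp (q x)) j)
    · rw [hq, hq, map_mul, map_mul, hcomm, ← Matrix.mulVec_mulVec]
  · intro i f
    change q (f * X i) = F i *ᵥ q f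
    rw [hq, hq, map_mul, map_mul, hcomm, ← Matrix.mulVec_mulVec, MvPolynomial.map_X, hφ]

lemma chart_ext (c c' : Chart k (bas k) A)
    (h : ∀ i j : Fin 3, c.q (X i * X j) = c'.q (X i * X j)) : c = c' := by
  have hstep : ∀ i : Fin 3, ∀ j : Fin 4, c.q (bas k j * X i) = c'.q (bas k j * X i) := by
    intro i j
    refine Fin.cases ?_ (fun l => ?_) j
    · rw [bas_zero, one_mul, ← bas_succ, c.q_b, c'.q_b]
    · rw [bas_succ]
      exact h l i
  ext1 f
  induction f using MvPolynomial.induction_on with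
  | C a =>
    have h1 : (C a : MvPolynomial (Fin 3) k) = a • bas k 0 := by
      rw [bas_zero, smul_eq_C_mul, mul_one]
    rw [h1, map_smul, map_smul, c.q_b, c'.q_b]
  | add f g hf hg => rw [map_add, map_add, hf, hg]
  | mul_X f i hf =>
    rw [c.q_mul, c'.q_mul, hf]
    simp only [hstep]

end chart

section coords

variable {k A : Type u} [CommRing k] [CommRing A] [Algebra k A] (c : Chart k (bas k) A)

/-- structure constants -/
noncomputable def sc (i j : Fin 3) (m : Fin 4) : A := c.q (X i * X j) m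

lemma sc_comm (i j : Fin 3) : sc c i j = sc c j i := by
  funext m
  unfold sc
  rw [mul_comm]

lemma sc_assoc (i j l : Fin 3) (m : Fin 4) :
    sc c i j 0 * (if m = l.succ then 1 else 0) + sc c i j 1 * sc c 0 l m +
      sc c i j 2 * sc c 1 l m + sc c i j 3 * sc c 2 l m = c.q (X i * X j * X l) m := by
  rw [c.q_mul]
  simp only [Finset.sum_apply, Pi.smul_apply, smul_eq_mul, Fin.sum_univ_four]
  have h0 : bas k 0 * X l = bas k l.succ := by rw [bas_zero, one_mul, bas_succ]
  have h1 : bas k 1 = X 0 := rfl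
  have h2 : bas k 2 = X 1 := rfl
  have h3 : bas k 3 = X 2 := rfl
  rw [h0, c.q_b, h1, h2, h3, Pi.single_apply]
  rfl

lemma E (i j l : Fin 3) (m : Fin 4) :
    sc c i j 0 * (if m = l.succ then 1 else 0) + sc c i j 1 * sc c 0 l m +
      sc c i j 2 * sc c 1 l m + sc c i j 3 * sc c 2 l m =
    sc c i l 0 * (if m = j.succ then 1 else 0) + sc c i l 1 * sc c 0 j m +
      sc c i l 2 * sc c 1 j m + sc c i l 3 * sc c 2 j m := by
  rw [sc_assoc, sc_assoc, mul_assoc, mul_comm (X j), ← mul_assoc]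

/-- translation coordinates -/
noncomputable def tOf : Fin 3 → A := ![sc c 0 1 2, sc c 0 1 1, sc c 0 2 1]

/-- Plücker coordinates -/
noncomputable def pOf : Fin 15 → A :=
  ![-sc c 0 0 3, sc c 0 0 2, -sc c 0 1 3, sc c 0 1 2 - sc c 0 2 3, sc c 0 2 2,
    2 * sc c 0 1 2 - sc c 0 0 1 - (sc c 0 1 2 - sc c 0 2 3), -sc c 1 1 3,
    sc c 1 1 2 - 2 * sc c 0 1 1 + (sc c 0 1 1 - sc c 1 2 3), sc c 1 2 2 - sc c 0 2 1,
    sc c 0 1 1 - sc c 1 2 3, sc c 1 2 2 - sc c 0 2 1 - sc c 2 2 3 + 2 * sc c 0 2 1,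
    sc c 2 2 2, -sc c 1 1 1, -sc c 1 2 1, -sc c 2 2 1]

lemma isPl_pOf : IsPl (pOf c) := by
  rw [isPl_iff]
  simp only [pOf, Matrix.cons_val]
  have hs := sc_comm c
  have e1121 := E c 0 0 1 1
  have e1122 := E c 0 0 1 2
  have e1123 := E c 0 0 1 3
  have e1131 := E c 0 0 2 1
  have e1132 := E c 0 0 2 2
  have e1133 := E c 0 0 2 3
  have e1231 := E c 0 1 2 1
  have e1232 := E c 0 1 2 2
  have e1233 := E c 0 1 2 3
  have e2121 := E c 1 0 1 1
  have e2122 := E c 1 0 1 2
  have e2123 := E c 1 0 1 3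
  have e2131 := E c 1 0 2 1
  have e2132 := E c 1 0 2 2
  have e2231 := E c 1 1 2 1
  have e2232 := E c 1 1 2 2
  have e2233 := E c 1 1 2 3
  have e3131 := E c 2 0 2 1
  have e3132 := E c 2 0 2 2
  have e3231 := E c 2 1 2 1
  have e3232 := E c 2 1 2 2
  have hf2 : (Fin.succ (2 : Fin 3)) = (3 : Fin 4) := rfl
  simp only [Fin.isValue, hf2, hs 1 0, hs 2 0, hs 2 1, Fin.reduceEq, if_true, if_false, Fin.succ_zero_eq_one, Fin.succ_one_eq_two, mul_zero, mul_one, zero_add] at e1121 e1122 e1123 e1131 e1132 e1133 e1231 e1232 e1233 e2121 e2122 e2123 e2131 e2132 e2231 e2232 e2233 e3131 e3132 e3231 e3232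
  refine ⟨?_, ?_, ?_, ?_, ?_, ?_, ?_, ?_, ?_, ?_, ?_, ?_, ?_, ?_, ?_⟩
  · linear_combination e1123
  · linear_combination -e1122 + e1133
  · linear_combination -e1132
  · linear_combination -e2123
  · linear_combination e1121 + e2122
  · linear_combination e1131 - e1232 + e2132
  · linear_combination -e1233 + e2122
  · linear_combination e2132
  · linear_combination e3132
  · linear_combination e1231
  · linear_combination -e2121 - e2233
  · linear_combination e1231 - e2131 + e2232
  · linear_combination -e3131 + e3232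
  · linear_combination e2231
  · linear_combination e3231

/-- the three matrices -/
def FF (t : Fin 3 → A) (p : Fin 15 → A) : Fin 3 → Matrix (Fin 4) (Fin 4) A :=
  ![F1 t p, F2 t p, F3 t p]

lemma sc_eq (i j : Fin 3) (m : Fin 4) :
    sc c i j m = FF (tOf c) (pOf c) i m j.succ := by
  have hs := sc_comm c
  have e1121 := E c 0 0 1 1
  have e1122 := E c 0 0 1 2
  have e1123 := E c 0 0 1 3
  have e1131 := E c 0 0 2 1
  have e1132 := E c 0 0 2 2
  have e1133 := E c 0 0 2 3
  have e1231 := E c 0 1 2 1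
  have e1232 := E c 0 1 2 2
  have e1233 := E c 0 1 2 3
  have e2121 := E c 1 0 1 1
  have e2122 := E c 1 0 1 2
  have e2123 := E c 1 0 1 3
  have e2131 := E c 1 0 2 1
  have e2132 := E c 1 0 2 2
  have e2231 := E c 1 1 2 1
  have e2232 := E c 1 1 2 2
  have e2233 := E c 1 1 2 3
  have e3131 := E c 2 0 2 1
  have e3132 := E c 2 0 2 2
  have e3231 := E c 2 1 2 1
  have e3232 := E c 2 1 2 2
  have hf2 : (Fin.succ (2 : Fin 3)) = (3 : Fin 4) := rfl
  simp only [Fin.isValue, hf2, hs 1 0, hs 2 0, hs 2 1, Fin.reduceEq, if_true, if_false, Fin.succ_zero_eq_one, Fin.succ_one_eq_two, mul_zero, mul_one, zero_add] at e1121 e1122 e1123 e1131 e1132 e1133 e1231 e1232 e1233 e2121 e2122 e2123 e2131 e2132 e2231 e2232 e2233 e3131 e3132 e3231 e3232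
  have f110 : sc c 0 0 0 = F1 (tOf c) (pOf c) 0 1 := by
    simp only [F1, tOf, pOf, Fin.isValue, Matrix.cons_val, Matrix.of_apply]
    linear_combination e1122
  have f111 : sc c 0 0 1 = F1 (tOf c) (pOf c) 1 1 := by
    simp only [F1, tOf, pOf, Fin.isValue, Matrix.cons_val, Matrix.of_apply]
    try ring
  have f112 : sc c 0 0 2 = F1 (tOf c) (pOf c) 2 1 := by
    simp only [F1, tOf, pOf, Fin.isValue, Matrix.cons_val, Matrix.of_apply]
    try ring
  have f113 : sc c 0 0 3 = F1 (tOf c) (pOf c) 3 1 := by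
    simp only [F1, tOf, pOf, Fin.isValue, Matrix.cons_val, Matrix.of_apply]
    try ring
  have f120 : sc c 0 1 0 = F1 (tOf c) (pOf c) 0 2 := by
    simp only [F1, tOf, pOf, Fin.isValue, Matrix.cons_val, Matrix.of_apply]
    linear_combination -e1121
  have f121 : sc c 0 1 1 = F1 (tOf c) (pOf c) 1 2 := by
    simp only [F1, tOf, pOf, Fin.isValue, Matrix.cons_val, Matrix.of_apply]
    try ring
  have f122 : sc c 0 1 2 = F1 (tOf c) (pOf c) 2 2 := by
    simp only [F1, tOf, pOf, Fin.isValue, Matrix.cons_val, Matrix.of_apply]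
    try ring
  have f123 : sc c 0 1 3 = F1 (tOf c) (pOf c) 3 2 := by
    simp only [F1, tOf, pOf, Fin.isValue, Matrix.cons_val, Matrix.of_apply]
    try ring
  have f130 : sc c 0 2 0 = F1 (tOf c) (pOf c) 0 3 := by
    simp only [F1, tOf, pOf, Fin.isValue, Matrix.cons_val, Matrix.of_apply]
    linear_combination -e1131
  have f131 : sc c 0 2 1 = F1 (tOf c) (pOf c) 1 3 := by
    simp only [F1, tOf, pOf, Fin.isValue, Matrix.cons_val, Matrix.of_apply]
    try ring
  have f132 : sc c 0 2 2 = F1 (tOf c) (pOf c) 2 3 := by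
    simp only [F1, tOf, pOf, Fin.isValue, Matrix.cons_val, Matrix.of_apply]
    try ring
  have f133 : sc c 0 2 3 = F1 (tOf c) (pOf c) 3 3 := by
    simp only [F1, tOf, pOf, Fin.isValue, Matrix.cons_val, Matrix.of_apply]
    try ring
  have f220 : sc c 1 1 0 = F2 (tOf c) (pOf c) 0 2 := by
    simp only [F2, tOf, pOf, Fin.isValue, Matrix.cons_val, Matrix.of_apply]
    linear_combination -e2121
  have f221 : sc c 1 1 1 = F2 (tOf c) (pOf c) 1 2 := by
    simp only [F2, tOf, pOf, Fin.isValue, Matrix.cons_val, Matrix.of_apply]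
    try ring
  have f222 : sc c 1 1 2 = F2 (tOf c) (pOf c) 2 2 := by
    simp only [F2, tOf, pOf, Fin.isValue, Matrix.cons_val, Matrix.of_apply]
    try ring
  have f223 : sc c 1 1 3 = F2 (tOf c) (pOf c) 3 2 := by
    simp only [F2, tOf, pOf, Fin.isValue, Matrix.cons_val, Matrix.of_apply]
    try ring
  have f230 : sc c 1 2 0 = F2 (tOf c) (pOf c) 0 3 := by
    simp only [F2, tOf, pOf, Fin.isValue, Matrix.cons_val, Matrix.of_apply]
    linear_combination e1231 - e2131
  have f231 : sc c 1 2 1 = F2 (tOf c) (pOf c) 1 3 := by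
    simp only [F2, tOf, pOf, Fin.isValue, Matrix.cons_val, Matrix.of_apply]
    try ring
  have f232 : sc c 1 2 2 = F2 (tOf c) (pOf c) 2 3 := by
    simp only [F2, tOf, pOf, Fin.isValue, Matrix.cons_val, Matrix.of_apply]
    try ring
  have f233 : sc c 1 2 3 = F2 (tOf c) (pOf c) 3 3 := by
    simp only [F2, tOf, pOf, Fin.isValue, Matrix.cons_val, Matrix.of_apply]
    try ring
  have f330 : sc c 2 2 0 = F3 (tOf c) (pOf c) 0 3 := by
    simp only [F3, tOf, pOf, Fin.isValue, Matrix.cons_val, Matrix.of_apply]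
    linear_combination -e3131
  have f331 : sc c 2 2 1 = F3 (tOf c) (pOf c) 1 3 := by
    simp only [F3, tOf, pOf, Fin.isValue, Matrix.cons_val, Matrix.of_apply]
    try ring
  have f332 : sc c 2 2 2 = F3 (tOf c) (pOf c) 2 3 := by
    simp only [F3, tOf, pOf, Fin.isValue, Matrix.cons_val, Matrix.of_apply]
    try ring
  have f333 : sc c 2 2 3 = F3 (tOf c) (pOf c) 3 3 := by
    simp only [F3, tOf, pOf, Fin.isValue, Matrix.cons_val, Matrix.of_apply]
    try ring
  have f210 : F2 (tOf c) (pOf c) 0 1 = F1 (tOf c) (pOf c) 0 2 := by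
    simp only [F1, F2, Fin.isValue, Matrix.cons_val, Matrix.of_apply]
  have f211 : F2 (tOf c) (pOf c) 1 1 = F1 (tOf c) (pOf c) 1 2 := by
    simp only [F1, F2, Fin.isValue, Matrix.cons_val, Matrix.of_apply]
  have f212 : F2 (tOf c) (pOf c) 2 1 = F1 (tOf c) (pOf c) 2 2 := by
    simp only [F1, F2, Fin.isValue, Matrix.cons_val, Matrix.of_apply]
  have f213 : F2 (tOf c) (pOf c) 3 1 = F1 (tOf c) (pOf c) 3 2 := by
    simp only [F1, F2, Fin.isValue, Matrix.cons_val, Matrix.of_apply]
  have f310 : F3 (tOf c) (pOf c) 0 1 = F1 (tOf c) (pOf c) 0 3 := by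
    simp only [F1, F3, Fin.isValue, Matrix.cons_val, Matrix.of_apply]
  have f311 : F3 (tOf c) (pOf c) 1 1 = F1 (tOf c) (pOf c) 1 3 := by
    simp only [F1, F3, Fin.isValue, Matrix.cons_val, Matrix.of_apply]
  have f312 : F3 (tOf c) (pOf c) 2 1 = F1 (tOf c) (pOf c) 2 3 := by
    simp only [F1, F3, Fin.isValue, Matrix.cons_val, Matrix.of_apply]
  have f313 : F3 (tOf c) (pOf c) 3 1 = F1 (tOf c) (pOf c) 3 3 := by
    simp only [F1, F3, Fin.isValue, Matrix.cons_val, Matrix.of_apply]
  have f320 : F3 (tOf c) (pOf c) 0 2 = F2 (tOf c) (pOf c) 0 3 := by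
    simp only [F2, F3, Fin.isValue, Matrix.cons_val, Matrix.of_apply]
  have f321 : F3 (tOf c) (pOf c) 1 2 = F2 (tOf c) (pOf c) 1 3 := by
    simp only [F2, F3, Fin.isValue, Matrix.cons_val, Matrix.of_apply]
  have f322 : F3 (tOf c) (pOf c) 2 2 = F2 (tOf c) (pOf c) 2 3 := by
    simp only [F2, F3, Fin.isValue, Matrix.cons_val, Matrix.of_apply]
  have f323 : F3 (tOf c) (pOf c) 3 2 = F2 (tOf c) (pOf c) 3 3 := by
    simp only [F2, F3, Fin.isValue, Matrix.cons_val, Matrix.of_apply]
  fin_cases i <;> fin_cases j <;> fin_cases m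
  · exact f110
  · exact f111
  · exact f112
  · exact f113
  · exact f120
  · exact f121
  · exact f122
  · exact f123
  · exact f130
  · exact f131
  · exact f132
  · exact f133
  · exact (congrFun (hs 1 0) 0).trans (f120.trans f210.symm)
  · exact (congrFun (hs 1 0) 1).trans (f121.trans f211.symm)
  · exact (congrFun (hs 1 0) 2).trans (f122.trans f212.symm)
  · exact (congrFun (hs 1 0) 3).trans (f123.trans f213.symm)
  · exact f220
  · exact f221
  · exact f222
  · exact f223
  · exact f230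
  · exact f231
  · exact f232
  · exact f233
  · exact (congrFun (hs 2 0) 0).trans (f130.trans f310.symm)
  · exact (congrFun (hs 2 0) 1).trans (f131.trans f311.symm)
  · exact (congrFun (hs 2 0) 2).trans (f132.trans f312.symm)
  · exact (congrFun (hs 2 0) 3).trans (f133.trans f313.symm)
  · exact (congrFun (hs 2 1) 0).trans (f230.trans f320.symm)
  · exact (congrFun (hs 2 1) 1).trans (f231.trans f321.symm)
  · exact (congrFun (hs 2 1) 2).trans (f232.trans f322.symm)
  · exact (congrFun (hs 2 1) 3).trans (f233.trans f323.symm)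
  · exact f330
  · exact f331
  · exact f332
  · exact f333

end coords

end Pool.Agent.H869.GrTab
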