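import Mathlib
import Pool.Agent.H869.QChart

set_option autoImplicit false
set_option linter.unusedSimpArgs false
set_option linter.style.haveILetI false

/-!
The chart ring of four points of affine three-space with basis `1, x, y, z` is the universal
Plücker ring over three variables; in particular it is a normal Cohen–Macaulay domain.
-/

universe u

namespace Pool.Agent.H869.GrTab

open Pool.Agent.Helper226 MvPolynomial Matrix

section

variable {k A : Type u} [CommRing k] [CommRing A] [Algebra k A]

lemma FF_comm (t : Fin 3 → A) (p : Fin 15 → A) (h : IsPl p) (i j : Fin 3) :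
    FF t p i * FF t p j = FF t p j * FF t p i := by
  have h12 := comm12 t p h
  have h13 := comm13 t p h
  have h23 := comm23 t p h
  fin_cases i <;> fin_cases j
  · rfl
  · exact h12
  · exact h13
  · exact h12.symm
  · rfl
  · exact h23
  · exact h13.symm
  · exact h23.symm
  · rfl

lemma FF_single (t : Fin 3 → A) (p : Fin 15 → A) (i : Fin 3) :
    FF t p i *ᵥ Pi.single 0 1 = Pi.single (Fin.succ i) 1 := by
  rw [Matrix.mulVec_single_one]
  funext m
  fin_cases i <;> fin_cases m <;>
    simp [FF, F1, F2, F3, Matrix.col]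

lemma sc_of (c : Chart k (bas k) A) (t : Fin 3 → A) (p : Fin 15 → A)
    (hc : ∀ i f, c.q (f * X i) = FF t p i *ᵥ c.q f) (i j : Fin 3) (m : Fin 4) :
    sc c i j m = FF t p i m j.succ := by
  unfold sc
  rw [mul_comm, hc, ← bas_succ, c.q_b, Matrix.mulVec_single_one]
  rfl

lemma tOf_of (c : Chart k (bas k) A) (t : Fin 3 → A) (p : Fin 15 → A)
    (hc : ∀ i f, c.q (f * X i) = FF t p i *ᵥ c.q f) : tOf c = t := by
  have h := sc_of c t p hc
  funext i
  fin_cases i
  · exact h 0 1 2
  · exact h 0 1 1
  · exact h 0 2 1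

lemma pOf_of (c : Chart k (bas k) A) (t : Fin 3 → A) (p : Fin 15 → A)
    (hc : ∀ i f, c.q (f * X i) = FF t p i *ᵥ c.q f) : pOf c = p := by
  have h := sc_of c t p hc
  funext i
  fin_cases i <;>
  · simp only [pOf, h, FF, F1, F2, F3, Fin.isValue, Fin.zero_eta, Fin.mk_one, Fin.reduceFinMk,
      Matrix.cons_val, Matrix.of_apply, Fin.succ_zero_eq_one, Fin.succ_one_eq_two,
      show (Fin.succ (2 : Fin 3)) = (3 : Fin 4) from rfl]
    try ring

lemma exists_chart_of (t : Fin 3 → A) (p : Fin 15 → A) (h : IsPl p) :
    ∃ c : Chart k (bas k) A, tOf c = t ∧ pOf c = p := by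
  obtain ⟨c, hc⟩ := exists_chart (k := k) (FF t p) (FF_comm t p h) (FF_single t p)
  exact ⟨c, tOf_of c t p hc, pOf_of c t p hc⟩

lemma chart_eq_of (c c' : Chart k (bas k) A) (ht : tOf c = tOf c') (hp : pOf c = pOf c') :
    c = c' := by
  apply chart_ext
  intro i j
  funext m
  change sc c i j m = sc c' i j m
  rw [sc_eq, sc_eq, ht, hp]

variable {A' : Type u} [CommRing A'] [Algebra k A']

lemma tOf_map (c : Chart k (bas k) A) (φ : A →ₐ[k] A') (i : Fin 3) :
    tOf (c.map φ) i = φ (tOf c i) := by
  fin_cases i <;> rfl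

lemma pOf_map (c : Chart k (bas k) A) (φ : A →ₐ[k] A') (i : Fin 15) :
    pOf (c.map φ) i = φ (pOf c i) := by
  have h : ∀ i j m, sc (c.map φ) i j m = φ (sc c i j m) := fun i j m => rfl
  fin_cases i <;>
  · simp only [pOf, h, Fin.isValue, Fin.zero_eta, Fin.mk_one, Fin.reduceFinMk,
      Matrix.cons_val, map_sub, map_add, map_neg, map_mul, map_ofNat]

variable (k) in
/-- the chart ring with its universal coordinates -/
noncomputable def univPl : UnivPl k (ChartRing k (bas k)) where
  t := tOf (univChart k (bas k))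
  p := pOf (univChart k (bas k))
  isPl := isPl_pOf _
  univ := by
    intro A _ _ t' p' h
    obtain ⟨c, ht, hp⟩ := exists_chart_of (k := k) t' p' h
    refine ⟨c.lift, fun i => ?_, fun s => ?_⟩
    · rw [← tOf_map, Chart.map_lift, ht]
    · rw [← pOf_map, Chart.map_lift, hp]
  gen := by
    set t := tOf (univChart k (bas k)) with htd
    set p := pOf (univChart k (bas k)) with hpd
    set W := Algebra.adjoin k (Set.range t ∪ Set.range p) with hW
    let tW : Fin 3 → W := fun i => ⟨t i, Algebra.subset_adjoin (Or.inl ⟨i, rfl⟩)⟩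
    let pW : Fin 15 → W := fun i => ⟨p i, Algebra.subset_adjoin (Or.inr ⟨i, rfl⟩)⟩
    have hpW : IsPl pW := by
      have h1 : IsPl p := isPl_pOf _
      rw [isPl_iff] at h1 ⊢
      refine ⟨?_, ?_, ?_, ?_, ?_, ?_, ?_, ?_, ?_, ?_, ?_, ?_, ?_, ?_, ?_⟩ <;>
      · apply Subtype.val_injective
        simp only [pW, Subalgebra.coe_add, Subalgebra.coe_mul, Subalgebra.coe_sub,
          Subalgebra.coe_zero, h1]
    obtain ⟨c, ht, hp⟩ := exists_chart_of (k := k) tW pW hpW
    have h2 : c.map W.val = univChart k (bas k) := by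
      apply chart_eq_of
      · funext i
        rw [tOf_map, ht]
        rfl
      · funext i
        rw [pOf_map, hp]
        rfl
    have h3 : W.val.comp c.lift = AlgHom.id k _ := by
      apply chartRing_hom_ext
      rw [← Chart.map_map, Chart.map_lift, h2, Chart.map_id]
    rw [eq_top_iff]
    intro x _
    have h4 := DFunLike.congr_fun h3 x
    rw [AlgHom.comp_apply, AlgHom.id_apply] at h4
    rw [← h4]
    exact (c.lift x).2

end

section field

variable (K : Type u) [Field K]

instance isDomain_univRing : IsDomain (ChartRing K (bas K)) := isDomain_univ (univPl K)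

instance isIntegrallyClosed_univRing : IsIntegrallyClosed (ChartRing K (bas K)) :=
  isIntegrallyClosed_univ (univPl K)

lemma isCMRing_univRing : IsCMRing (ChartRing K (bas K)) := isCMRing_univ (univPl K)

end field

end Pool.Agent.H869.GrTab
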