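import Mathlib
import Pool.Graph.R_seed8.Helper226.HilbUniv

set_option autoImplicit false
set_option linter.unusedSimpArgs false
set_option linter.style.haveILetI false

/-!
Change of the ambient space: charts of Hilbert schemes of points for `P → B`.
-/

open scoped TensorProduct

universe u

namespace Pool.Agent.H869.Rel

open Pool.Agent.Helper226

section co

variable {K : Type u} [CommRing K] {P : Type u} [CommRing P] [Algebra K P] {d : ℕ}
variable {a : Fin d → P} {R : Type u} [CommRing R] [Algebra K R]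

/-- the algebra of a chart -/
abbrev Q (c : Chart K a R) : Type u := (R ⊗[K] P) ⧸ c.ideal

variable (c : Chart K a R)

/-- coordinates -/
noncomputable def co (z : Q c) : Fin d → R :=
  c.L (Function.surjInv Ideal.Quotient.mk_surjective z)

lemma co_mk (x : R ⊗[K] P) : co c (Ideal.Quotient.mk _ x) = c.L x := by
  have h := Function.surjInv_eq (Ideal.Quotient.mk_surjective (I := c.ideal))
    (Ideal.Quotient.mk c.ideal x)
  rw [Ideal.Quotient.eq, Chart.mem_ideal, map_sub, sub_eq_zero] at h
  exact h

lemma co_add (z w : Q c) : co c (z + w) = co c z + co c w := by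
  obtain ⟨x, rfl⟩ := Ideal.Quotient.mk_surjective z
  obtain ⟨y, rfl⟩ := Ideal.Quotient.mk_surjective w
  rw [← map_add, co_mk, co_mk, co_mk, map_add]

lemma co_smul (r : R) (z : Q c) : co c (r • z) = r • co c z := by
  obtain ⟨x, rfl⟩ := Ideal.Quotient.mk_surjective z
  have h : r • Ideal.Quotient.mk c.ideal x = Ideal.Quotient.mk c.ideal (r • x) := rfl
  rw [h, co_mk, co_mk, map_smul]

lemma co_injective : Function.Injective (co c) := by
  intro z w h
  obtain ⟨x, rfl⟩ := Ideal.Quotient.mk_surjective z
  obtain ⟨y, rfl⟩ := Ideal.Quotient.mk_surjective w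
  rw [co_mk, co_mk] at h
  rw [Ideal.Quotient.eq, Chart.mem_ideal, map_sub, h, sub_self]

/-- the structure map -/
noncomputable def pj : P →ₐ[K] Q c :=
  (Ideal.Quotient.mkₐ K c.ideal).comp Algebra.TensorProduct.includeRight

lemma pj_apply (x : P) : pj c x = Ideal.Quotient.mk c.ideal (1 ⊗ₜ x) := rfl

lemma co_pj (x : P) : co c (pj c x) = c.q x := by
  rw [pj_apply, co_mk, Chart.L_tmul, one_smul]

lemma eq_sum (z : Q c) : z = ∑ j, co c z j • pj c (a j) := by
  obtain ⟨x, rfl⟩ := Ideal.Quotient.mk_surjective z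
  have h := c.sub_expand_mem x
  rw [← Ideal.Quotient.eq] at h
  rw [co_mk]
  conv_lhs => rw [h, Chart.expand_apply, map_sum]
  refine Finset.sum_congr rfl fun j _ => ?_
  rw [pj_apply]
  change _ = Ideal.Quotient.mk c.ideal (c.L x j • (1 ⊗ₜ[K] a j))
  rw [TensorProduct.smul_tmul', smul_eq_mul, mul_one]

lemma co_mul (z w : Q c) : co c (z * w) = ∑ j, co c z j • co c (pj c (a j) * w) := by
  obtain ⟨x, rfl⟩ := Ideal.Quotient.mk_surjective z
  obtain ⟨y, rfl⟩ := Ideal.Quotient.mk_surjective w
  rw [← map_mul, co_mk, co_mk, Chart.L_mul]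
  refine Finset.sum_congr rfl fun j _ => ?_
  rw [pj_apply, ← map_mul, co_mk]

/-- element with given coordinates -/
noncomputable def el (v : Fin d → R) : Q c := Ideal.Quotient.mk c.ideal (Chart.expand R a v)

lemma co_el (v : Fin d → R) : co c (el c v) = v := by
  rw [el, co_mk, Chart.L_expand]

/-- matrix of multiplication -/
noncomputable def mat (z : Q c) : Matrix (Fin d) (Fin d) R :=
  Matrix.of fun i j => co c (pj c (a i) * z) j

open Matrix in
lemma co_mul' (z w : Q c) : co c (z * w) = co c z ᵥ* mat c w := by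
  rw [co_mul]
  funext l
  simp [Matrix.vecMul, dotProduct, mat]

lemma mat_mul (z w : Q c) : mat c (z * w) = mat c z * mat c w := by
  ext i l
  rw [mat, Matrix.of_apply, ← mul_assoc, co_mul', Matrix.mul_apply]
  rfl

lemma mat_one : mat c (1 : Q c) = 1 := by
  ext i l
  rw [mat, Matrix.of_apply, mul_one, co_pj, c.q_b, Matrix.one_apply, Pi.single_apply]
  simp only [eq_comm]

open Matrix in
lemma isUnit_iff (z : Q c) : IsUnit z ↔ IsUnit (mat c z).det := by
  constructor
  · rintro ⟨u, rfl⟩
    have h : mat c (u : Q c) * mat c ((u⁻¹ : (Q c)ˣ) : Q c) = 1 := by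
      rw [← mat_mul, Units.mul_inv, mat_one]
    exact Matrix.isUnit_det_of_right_inverse h
  · intro h
    have h1 : el c (co c 1 ᵥ* (mat c z)⁻¹) * z = 1 := by
      apply co_injective
      rw [co_mul', co_el, Matrix.vecMul_vecMul, Matrix.nonsing_inv_mul _ h, Matrix.vecMul_one]
    exact IsUnit.of_mul_eq_one_right _ h1

end co

section rel

variable {K : Type u} [CommRing K] {P B : Type u} [CommRing P] [CommRing B] [Algebra K P]
  [Algebra K B] {d : ℕ} (h : P →ₐ[K] B)
variable {a : Fin d → P} {R : Type u} [CommRing R] [Algebra K R]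

/-- restriction of charts -/
noncomputable def res (c : Chart K (fun i => h (a i)) R) : Chart K a R where
  q := c.q ∘ₗ h.toLinearMap
  q_b := by
    intro i
    exact c.q_b i
  q_mul := by
    intro x y
    simp only [LinearMap.comp_apply, AlgHom.toLinearMap_apply, map_mul]
    exact c.q_mul _ _

@[simp] lemma res_q (c : Chart K (fun i => h (a i)) R) (x : P) : (res h c).q x = c.q (h x) := rfl

lemma res_map {R' : Type u} [CommRing R'] [Algebra K R'] (c : Chart K (fun i => h (a i)) R)
    (φ : R →ₐ[K] R') : res h (c.map φ) = (res h c).map φ := rfl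

lemma res_L (c : Chart K (fun i => h (a i)) R) (x : R ⊗[K] P) :
    (res h c).L x = c.L (Algebra.TensorProduct.map (AlgHom.id R R) h x) := by
  induction x using TensorProduct.induction_on with
  | zero => simp
  | add x x' hx hx' => simp [hx, hx']
  | tmul r x => simp

/-- comparison of algebras -/
noncomputable def theta (c : Chart K (fun i => h (a i)) R) : Q (res h c) →ₐ[R] Q c :=
  Ideal.quotientMapₐ c.ideal (Algebra.TensorProduct.map (AlgHom.id R R) h) (by
    intro x hx
    rw [Ideal.mem_comap, Chart.mem_ideal]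
    rw [Chart.mem_ideal, res_L] at hx
    exact hx)

lemma theta_mk (c : Chart K (fun i => h (a i)) R) (x : R ⊗[K] P) :
    theta h c (Ideal.Quotient.mk _ x) =
      Ideal.Quotient.mk _ (Algebra.TensorProduct.map (AlgHom.id R R) h x) := rfl

lemma theta_pj (c : Chart K (fun i => h (a i)) R) (x : P) :
    theta h c (pj _ x) = pj c (h x) := by
  rw [pj_apply, theta_mk, pj_apply]
  simp

lemma co_theta (c : Chart K (fun i => h (a i)) R) (z : Q (res h c)) :
    co c (theta h c z) = co (res h c) z := by
  obtain ⟨x, rfl⟩ := Ideal.Quotient.mk_surjective z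
  rw [theta_mk, co_mk, co_mk, res_L]

lemma theta_bijective (c : Chart K (fun i => h (a i)) R) :
    Function.Bijective (theta h c) := by
  constructor
  · intro z w hzw
    apply co_injective
    rw [← co_theta, ← co_theta, hzw]
  · intro w
    refine ⟨el _ (co c w), ?_⟩
    apply co_injective
    rw [co_theta, co_el]

/-- the map `B → Q` of a chart -/
noncomputable def toQ (c : Chart K (fun i => h (a i)) R) : B →ₐ[K] Q (res h c) :=
  ((AlgEquiv.ofBijective (theta h c) (theta_bijective h c)).symm.toAlgHom.restrictScalars K).comp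
    (pj c)

lemma theta_toQ (c : Chart K (fun i => h (a i)) R) (x : B) :
    theta h c (toQ h c x) = pj c x :=
  (AlgEquiv.ofBijective (theta h c) (theta_bijective h c)).apply_symm_apply (pj c x)

lemma toQ_apply (c : Chart K (fun i => h (a i)) R) (x : P) :
    toQ h c (h x) = pj _ x := by
  apply (theta_bijective h c).1
  rw [theta_toQ, theta_pj]

lemma co_toQ (c : Chart K (fun i => h (a i)) R) (x : B) :
    co _ (toQ h c x) = c.q x := by
  rw [← co_theta, theta_toQ, co_pj]

/-- the chart of a map `B → Q` -/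
noncomputable def ofHom (c0 : Chart K a R) (ψ : B →ₐ[K] Q c0) (hψ : ∀ x, ψ (h x) = pj c0 x) :
    Chart K (fun i => h (a i)) R where
  q :=
    { toFun := fun x => co c0 (ψ x)
      map_add' := by
        intro x y
        rw [map_add, co_add]
      map_smul' := by
        intro r x
        rw [map_smul, ← algebraMap_smul R r (ψ x), co_smul, RingHom.id_apply, algebraMap_smul] }
  q_b := by
    intro i
    change co c0 (ψ (h (a i))) = _
    rw [hψ, co_pj, c0.q_b]
  q_mul := by
    intro x y
    change co c0 (ψ (x * y)) = ∑ j, co c0 (ψ x) j • co c0 (ψ (h (a j) * y))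
    rw [map_mul, co_mul]
    simp only [map_mul, hψ]

lemma ofHom_q (c0 : Chart K a R) (ψ : B →ₐ[K] Q c0) (hψ : ∀ x, ψ (h x) = pj c0 x) (x : B) :
    (ofHom h c0 ψ hψ).q x = co c0 (ψ x) := rfl

lemma res_ofHom (c0 : Chart K a R) (ψ : B →ₐ[K] Q c0) (hψ : ∀ x, ψ (h x) = pj c0 x) :
    res h (ofHom h c0 ψ hψ) = c0 := by
  ext1 x
  rw [res_q, ofHom_q, hψ, co_pj]

end rel

section red

variable {K : Type u} [CommRing K] {P : Type u} [CommRing P] [Algebra K P] {d : ℕ}
variable {a : Fin d → P} {R R' : Type u} [CommRing R] [Algebra K R] [CommRing R'] [Algebra K R']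
  (c : Chart K a R) (φ : R →ₐ[K] R')

/-- base change of algebras of charts -/
noncomputable def redu : Q c →ₐ[K] Q (c.map φ) :=
  Ideal.quotientMapₐ (c.map φ).ideal (bc P φ) (by
    intro x hx
    rw [Ideal.mem_comap, Chart.ideal_map]
    exact Ideal.mem_map_of_mem _ hx)

lemma redu_mk (x : R ⊗[K] P) :
    redu c φ (Ideal.Quotient.mk _ x) = Ideal.Quotient.mk _ (bc P φ x) := rfl

lemma redu_pj (x : P) : redu c φ (pj c x) = pj _ x := by
  rw [pj_apply, redu_mk, pj_apply]
  simp

lemma co_redu (z : Q c) (j : Fin d) : co _ (redu c φ z) j = φ (co c z j) := by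
  obtain ⟨x, rfl⟩ := Ideal.Quotient.mk_surjective z
  rw [redu_mk, co_mk, co_mk, Chart.map_L]

lemma redu_surjective (hφ : Function.Surjective φ) : Function.Surjective (redu c φ) := by
  intro w
  choose v hv using fun j => hφ (co _ w j)
  refine ⟨el c v, ?_⟩
  apply co_injective
  funext j
  rw [co_redu, co_el, hv]

lemma redu_ker (hφ : RingHom.ker φ ^ 2 = ⊥) : RingHom.ker (redu c φ) ^ 2 = ⊥ := by
  rw [eq_bot_iff, pow_two, Ideal.mul_le]
  intro z hz w hw
  have h1 : ∀ z : Q c, z ∈ RingHom.ker (redu c φ) → ∀ j, co c z j ∈ RingHom.ker φ := by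
    intro z hz j
    rw [RingHom.mem_ker] at hz ⊢
    rw [← co_redu, hz, ← map_zero (redu c φ), co_redu]
    have : co c (0 : Q c) = 0 := by
      rw [← map_zero (Ideal.Quotient.mk c.ideal), co_mk, map_zero]
    rw [this]
    simp
  have h2 : ∀ r s : R, r ∈ RingHom.ker φ → s ∈ RingHom.ker φ → r * s = 0 := by
    intro r s hr hs
    have := Ideal.mul_mem_mul hr hs
    rw [← pow_two, hφ] at this
    exact this
  rw [Ideal.mem_bot, eq_sum c z, eq_sum c w, Finset.sum_mul_sum]
  refine Finset.sum_eq_zero fun i _ => Finset.sum_eq_zero fun j _ => ?_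
  rw [smul_mul_smul_comm, h2 _ _ (h1 z hz i) (h1 w hw j), zero_smul]

end red

end Pool.Agent.H869.Rel
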