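import Mathlib
import Pool.Agent.H869.Rel

set_option autoImplicit false
set_option linter.unusedSimpArgs false
set_option linter.style.haveILetI false

/-!
Formal smoothness of the change of ambient space.
-/

open scoped TensorProduct

universe u

namespace Pool.Agent.H869.Rel

open Pool.Agent.Helper226

section

variable {K : Type u} [CommRing K] {P B : Type u} [CommRing P] [CommRing B] [Algebra K P]
  [Algebra K B] {d : ℕ}

/-- the determinant of multiplication by `f` -/
noncomputable def delta {b : Fin d → B} {R : Type u} [CommRing R] [Algebra K R]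
    (c : Chart K b R) (f : B) : R := (tmat c (fun i => b i * f)).det

lemma delta_map {b : Fin d → B} {R R' : Type u} [CommRing R] [Algebra K R] [CommRing R']
    [Algebra K R'] (c : Chart K b R) (f : B) (φ : R →ₐ[K] R') :
    delta (c.map φ) f = φ (delta c f) := by
  unfold delta
  rw [tmat_map, AlgHom.map_det]
  rfl

variable (h : P →ₐ[K] B) {a : Fin d → P} {R : Type u} [CommRing R] [Algebra K R]

lemma exists_toQ (c : Chart K (fun i => h (a i)) R) (c0 : Chart K a R) (hc : res h c = c0) :
    ∃ ψ : B →ₐ[K] Q c0, (∀ x, ψ (h x) = pj c0 x) ∧ ∀ x, co c0 (ψ x) = c.q x := by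
  subst hc
  exact ⟨toQ h c, toQ_apply h c, co_toQ h c⟩

lemma isUnit_of_delta (c : Chart K (fun i => h (a i)) R) (c0 : Chart K a R)
    (ψ : B →ₐ[K] Q c0) (h1 : ∀ x, ψ (h x) = pj c0 x) (h2 : ∀ x, co c0 (ψ x) = c.q x)
    (f : B) (hu : IsUnit (delta c f)) : IsUnit (ψ f) := by
  rw [isUnit_iff]
  have : mat c0 (ψ f) = tmat c (fun i => h (a i) * f) := by
    ext i j
    rw [mat, tmat, Matrix.of_apply, Matrix.of_apply, ← h1, ← map_mul, h2]
  rw [this]
  exact hu

end

section main

variable {K : Type u} [CommRing K] {P B : Type u} [CommRing P] [CommRing B] [Algebra K P]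
  [Algebra K B] (h : P →ₐ[K] B) {d : ℕ} (a : Fin d → P) (f : B)

/-- the comparison map of chart rings -/
noncomputable def rho : ChartRing K a →ₐ[K]
    ChartRing K (fun i => h (a i)) :=
  (res h (univChart K _)).lift

lemma map_rho : (univChart K a).map (rho h a) =
    res h (univChart K _) := Chart.map_lift _

/-- the localised chart ring -/
abbrev DD : Type u := Localization.Away
  (delta (univChart K (fun i => h (a i))) f)

theorem formallySmooth [Algebra P B] [IsScalarTower K P B] (hh : ∀ x, algebraMap P B x = h x)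
    [Algebra.FormallySmooth P (Localization.Away f)]
    [Algebra (ChartRing K a) (ChartRing K (fun i => h (a i)))]
    (halg : ∀ x, algebraMap (ChartRing K a) (ChartRing K (fun i => h (a i))) x = rho h a x) :
    Algebra.FormallySmooth (ChartRing K a) (DD h a f) := by
  apply Algebra.FormallySmooth.of_comp_surjective
  intro E _ _ J hJ g
  letI : Algebra K E := ((algebraMap (ChartRing K a) E).comp
    (algebraMap K (ChartRing K a))).toAlgebra
  haveI := IsScalarTower.of_algebraMap_eq' (R := K) (S := ChartRing K a) (A := E) rfl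
  haveI := IsScalarTower.of_algebraMap_eq' (R := K) (S := ChartRing K a) (A := E ⧸ J) rfl
  haveI := IsScalarTower.of_algebraMap_eq (R := K) (S := ChartRing K a)
    (A := ChartRing K (fun i => h (a i))) (fun r => by
      rw [halg, AlgHom.commutes])
  haveI := IsScalarTower.of_algebraMap_eq (R := K) (S := ChartRing K a)
    (A := DD h a f) (fun r => by
      rw [IsScalarTower.algebraMap_apply K (ChartRing K (fun i => h (a i))) (DD h a f),
        IsScalarTower.algebraMap_apply (ChartRing K a) (ChartRing K (fun i => h (a i)))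
          (DD h a f), halg, AlgHom.commutes])
  let α : ChartRing K a →ₐ[K] E := IsScalarTower.toAlgHom K (ChartRing K a) E
  let mkJ : E →ₐ[K] E ⧸ J := Ideal.Quotient.mkₐ K J
  have hmkJ : Function.Surjective mkJ := Ideal.Quotient.mk_surjective
  have hkJ : RingHom.ker mkJ ^ 2 = ⊥ := by
    have : RingHom.ker mkJ = J := Ideal.Quotient.mkₐ_ker K J
    rw [this, hJ]
  let gK : (DD h a f) →ₐ[K] E ⧸ J := g.restrictScalars K
  let β : ChartRing K (fun i => h (a i)) →ₐ[K] (DD h a f) := IsScalarTower.toAlgHom K _ _
  have fact1 : (gK.comp β).comp (rho h a) = mkJ.comp α := by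
    ext1 x
    change g (algebraMap _ _ (rho h a x)) = algebraMap (ChartRing K a) (E ⧸ J) x
    rw [← halg, ← IsScalarTower.algebraMap_apply, g.commutes]
  let un := univChart K (fun i => h (a i))
  let c0 : Chart K a E := (univChart K a).map α
  let cb : Chart K (fun i => h (a i)) (E ⧸ J) := un.map (gK.comp β)
  have hcb : res h cb = c0.map mkJ := by
    change res h (un.map (gK.comp β)) = ((univChart K a).map α).map mkJ
    rw [res_map, ← map_rho, Chart.map_map, Chart.map_map, fact1]
  obtain ⟨ψb, hψb, hψb'⟩ := exists_toQ h cb (c0.map mkJ) hcb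
  have hub : IsUnit (ψb f) := by
    apply isUnit_of_delta h cb (c0.map mkJ) ψb hψb hψb' f
    change IsUnit (delta (un.map (gK.comp β)) f)
    rw [delta_map]
    apply IsUnit.map gK
    exact IsLocalization.Away.algebraMap_isUnit _
  letI : Algebra P (Q c0) := (pj c0).toRingHom.toAlgebra
  letI : Algebra P (Q (c0.map mkJ)) := (pj (c0.map mkJ)).toRingHom.toAlgebra
  haveI : IsScalarTower K P (Q c0) := .of_algebraMap_eq fun r => ((pj c0).commutes r).symm
  let ψP : B →ₐ[P] Q (c0.map mkJ) :=
    { ψb with
      commutes' := fun x => by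
        rw [hh]
        exact hψb x }
  have hfu : ∀ y : Submonoid.powers f, IsUnit (ψP y) := by
    rintro ⟨_, n, rfl⟩
    change IsUnit (ψb (f ^ n))
    rw [map_pow]
    exact hub.pow n
  let ψf : Localization.Away f →ₐ[P] Q (c0.map mkJ) :=
    IsLocalization.liftAlgHom (M := Submonoid.powers f) (f := ψP) hfu
  have hψf : ∀ x : B, ψf (algebraMap B _ x) = ψb x := fun x => IsLocalization.lift_eq _ x
  let gP : Q c0 →ₐ[P] Q (c0.map mkJ) := { redu c0 mkJ with commutes' := fun x => redu_pj c0 mkJ x }
  have hgs : Function.Surjective gP := redu_surjective c0 mkJ hmkJ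
  have hgn : IsNilpotent (RingHom.ker (gP : Q c0 →+* Q (c0.map mkJ))) :=
    ⟨2, redu_ker c0 mkJ hkJ⟩
  let ll : Localization.Away f →ₐ[P] Q c0 :=
    Algebra.FormallySmooth.liftOfSurjective ψf gP hgs hgn
  have hll : ∀ x, redu c0 mkJ (ll x) = ψf x := fun x =>
    Algebra.FormallySmooth.liftOfSurjective_apply ψf gP hgs hgn x
  let ψ : B →ₐ[K] Q c0 := (ll.comp (IsScalarTower.toAlgHom P B (Localization.Away f))).restrictScalars K
  have hψ : ∀ x, ψ (h x) = pj c0 x := by
    intro x
    change ll (algebraMap B _ (h x)) = algebraMap P (Q c0) x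
    rw [← hh]
    rw [← IsScalarTower.algebraMap_apply P B (Localization.Away f), ll.commutes]
  have hψ2 : ∀ x, redu c0 mkJ (ψ x) = ψb x := by
    intro x
    change redu c0 mkJ (ll (algebraMap B _ x)) = ψb x
    rw [hll, hψf]
  let c : Chart K (fun i => h (a i)) E := ofHom h c0 ψ hψ
  have hc : c.map mkJ = cb := by
    ext x j
    rw [Chart.map_q]
    change mkJ (co c0 (ψ x) j) = _
    rw [← co_redu, hψ2, hψb']
  have hcρ : c.lift.comp (rho h a) = α := by
    apply chartRing_hom_ext
    rw [← Chart.map_map, map_rho, ← res_map, Chart.map_lift]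
    exact res_ofHom h c0 ψ hψ
  have hcβ : mkJ.comp c.lift = gK.comp β := by
    apply chartRing_hom_ext
    rw [← Chart.map_map, Chart.map_lift, hc]
  have hcu : IsUnit (c.lift (delta un f)) := by
    rw [← IsNilpotent.isUnit_quotient_mk_iff (I := J) ⟨2, hJ⟩]
    have h3 := DFunLike.congr_fun hcβ (delta un f)
    change Ideal.Quotient.mk J (c.lift (delta un f)) = gK (β (delta un f)) at h3
    rw [h3]
    apply IsUnit.map gK
    exact IsLocalization.Away.algebraMap_isUnit _
  let cC : ChartRing K (fun i => h (a i)) →ₐ[ChartRing K a] E :=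
    { c.lift with
      commutes' := fun x => by
        rw [halg]
        exact DFunLike.congr_fun hcρ x }
  have hcCu : ∀ y : Submonoid.powers (delta un f), IsUnit (cC y) := by
    rintro ⟨_, n, rfl⟩
    change IsUnit (c.lift (delta un f ^ n))
    rw [map_pow]
    exact hcu.pow n
  let G : (DD h a f) →ₐ[ChartRing K a] E :=
    IsLocalization.liftAlgHom (M := Submonoid.powers (delta un f)) (f := cC) hcCu
  refine ⟨G, ?_⟩
  apply AlgHom.coe_ringHom_injective
  apply IsLocalization.ringHom_ext (Submonoid.powers (delta un f))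
  refine RingHom.ext fun x => ?_
  have h5 : G (algebraMap _ _ x) = c.lift x := IsLocalization.lift_eq _ x
  change mkJ (G (algebraMap _ _ x)) = gK (β x)
  rw [h5]
  exact DFunLike.congr_fun hcβ x

end main

end Pool.Agent.H869.Rel
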