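import Mathlib
import Pool.Agent.H869.Desc
import Pool.Agent.H869.RelSm
import Pool.Agent.H869.QUniv
import Pool.Graph.R_seed8.Helper226.HilbGlue
import Pool.Graph.R_seed8.Helper226.HilbFinite

set_option autoImplicit false
set_option linter.unusedSimpArgs false
set_option linter.style.haveILetI false

/-!
All chart rings of Hilbert schemes of four points of smooth affine schemes over a field have normal
Cohen–Macaulay local rings.
-/

open scoped TensorProduct

universe u

namespace Pool.Agent.H869.Rel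

open Pool.Agent.Helper226 Pool.Agent.H869.GrTab Pool.Agent.H869 IsLocalRing

section trans

variable {K : Type u} [CommRing K] {B : Type u} [CommRing B] [Algebra K B] {d : ℕ}

/-- universal charts -/
structure IsUniv {b : Fin d → B} {R0 : Type u} [CommRing R0] [Algebra K R0]
    (c : Chart K b R0) : Prop where
  ex : ∀ (R : Type u) [CommRing R] [Algebra K R] (c' : Chart K b R),
    ∃ φ : R0 →ₐ[K] R, c.map φ = c'
  uq : ∀ (R : Type u) [CommRing R] [Algebra K R] (φ ψ : R0 →ₐ[K] R),
    c.map φ = c.map ψ → φ = ψ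

lemma isUniv_univChart (b : Fin d → B) : IsUniv (univChart K b) where
  ex := fun _ _ _ c' => ⟨c'.lift, Chart.map_lift c'⟩
  uq := fun _ _ _ _ _ h => chartRing_hom_ext h

lemma IsUniv.exists_equiv {b : Fin d → B} {R0 R1 : Type u} [CommRing R0] [Algebra K R0]
    [CommRing R1] [Algebra K R1] {c : Chart K b R0} {c1 : Chart K b R1} (h : IsUniv c)
    (h1 : IsUniv c1) : ∃ e : R0 ≃ₐ[K] R1, c.map e = c1 := by
  obtain ⟨φ, hφ⟩ := h.ex R1 c1
  obtain ⟨ψ, hψ⟩ := h1.ex R0 c
  have e1 : ψ.comp φ = AlgHom.id K _ := by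
    apply h.uq
    rw [← Chart.map_map, hφ, hψ, Chart.map_id]
  have e2 : φ.comp ψ = AlgHom.id K _ := by
    apply h1.uq
    rw [← Chart.map_map, hψ, hφ, Chart.map_id]
  exact ⟨AlgEquiv.ofAlgHom φ ψ e2 e1, hφ⟩

lemma tmat_self {R : Type u} [CommRing R] [Algebra K R] {b : Fin d → B} (c : Chart K b R) :
    tmat c b = 1 := by
  ext i j
  rw [tmat, Matrix.of_apply, c.q_b, Matrix.one_apply, Pi.single_apply]
  simp only [eq_comm]

lemma ncm_of_trans_aux {a b : Fin d → B} (U : UnivFor K ({a} : Set (Fin d → B)))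
    (V : UnivFor K ({b} : Set (Fin d → B))) (hU : Good U.A) (P : Ideal V.A) [P.IsPrime]
    (hP : (tmat (V.chart (b := b) rfl) a).det ∉ P) : NCM (Localization.AtPrime P) := by
  classical
  let L' : Finset (Fin d → B) := {a, b}
  let W : UnivFor K (L' : Set (Fin d → B)) := V.loc (b := b) rfl L' (by simp [L'])
  obtain ⟨e, -⟩ := exists_locIso U (b := a) rfl L' (by simp [L']) W
    (fun b' hb' => W.has b' (by
      rw [Set.mem_singleton_iff] at hb'
      subst hb'
      simp [L']))
  have h1 : Good (Localization.Away (locElt (U.chart (b := a) rfl) L')) :=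
    Good.of_isLocalization
      (Submonoid.powers (locElt (U.chart (b := a) rfl) L')) hU
  have h2 : Good (Localization.Away (locElt (V.chart (b := b) rfl) L')) :=
    h1.of_ringEquiv e.toRingEquiv
  refine NCM.of_away (locElt (V.chart (b := b) rfl) L') h2 P ?_
  unfold locElt
  rw [Ideal.IsPrime.prod_mem_iff]
  rintro ⟨c, hc, hc2⟩
  simp only [L', Finset.mem_insert, Finset.mem_singleton] at hc
  rcases hc with rfl | rfl
  · exact hP hc2
  · rw [tmat_self, Matrix.det_one] at hc2
    exact ‹P.IsPrime›.ne_top ((Ideal.eq_top_iff_one _).2 hc2)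

/-- the universal family of a universal chart -/
noncomputable def IsUniv.toUnivFor {b : Fin d → B} {R0 : Type u} [CommRing R0] [Algebra K R0]
    (c : Chart K b R0) (h : IsUniv c) : UnivFor K ({b} : Set (Fin d → B)) where
  A := R0
  I := c.ideal
  has := by
    rintro b' rfl
    exact ⟨c, rfl⟩
  desc := by
    intro R _ _ I' h'
    obtain ⟨c', hc'⟩ := h' b rfl
    obtain ⟨φ, hφ⟩ := h.ex R c'
    exact ⟨φ, by rw [← Chart.ideal_map, hφ, hc']⟩
  uniq := by
    intro R _ _ φ ψ h'
    rw [← Chart.ideal_map, ← Chart.ideal_map] at h'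
    exact h.uq R φ ψ (Chart.ideal_injective h')

/-- goodness is transported along change of charts -/
lemma ncm_of_trans {a b : Fin d → B} {Ra R0 : Type u} [CommRing Ra] [Algebra K Ra]
    [CommRing R0] [Algebra K R0] (ca : Chart K a Ra) (ha : IsUniv ca) (c : Chart K b R0)
    (hc : IsUniv c) (hg : Good Ra) (P : Ideal R0) [P.IsPrime]
    (hP : (tmat c a).det ∉ P) : NCM (Localization.AtPrime P) := by
  have hP' : Ideal.IsPrime (α := (IsUniv.toUnivFor c hc).A) P := ‹P.IsPrime›
  have hcc : (IsUniv.toUnivFor c hc).chart (b := b) rfl = c :=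
    Chart.ideal_injective (UnivFor.chart_ideal (IsUniv.toUnivFor c hc) (b := b) rfl)
  exact @ncm_of_trans_aux K _ B _ _ d a b (IsUniv.toUnivFor ca ha) (IsUniv.toUnivFor c hc) hg P hP'
    (by rw [hcc]; exact hP)

end trans

section poly

variable {K : Type u} [CommRing K] {B : Type u} [CommRing B] [Algebra K B] {d : ℕ} {σ : Type}

/-- constants -/
noncomputable abbrev hC (K B : Type u) [CommRing K] [CommRing B] [Algebra K B] (σ : Type) :
    B →ₐ[K] MvPolynomial σ B := IsScalarTower.toAlgHom K B (MvPolynomial σ B)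

lemma hC_apply (x : B) : hC K B σ x = MvPolynomial.C x := rfl

lemma chart_ext_poly {b : Fin d → B} {R : Type u} [CommRing R] [Algebra K R]
    (c1 c2 : Chart K (fun i => hC K B σ (b i)) R) (h1 : res (hC K B σ) c1 = res (hC K B σ) c2)
    (h2 : ∀ s, c1.q (MvPolynomial.X s) = c2.q (MvPolynomial.X s)) : c1 = c2 := by
  obtain ⟨ψ1, ha, hb⟩ := exists_toQ (hC K B σ) c1 _ rfl
  obtain ⟨ψ2, ha', hb'⟩ := exists_toQ (hC K B σ) c2 _ h1.symm
  have h3 : (ψ1 : MvPolynomial σ B →+* Q (res (hC K B σ) c1)) = ψ2 := by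
    apply MvPolynomial.ringHom_ext
    · intro x
      exact (ha x).trans (ha' x).symm
    · intro s
      apply co_injective
      exact (hb _).trans ((h2 s).trans (hb' _).symm)
  ext1 x
  rw [← hb, ← hb']
  exact congrArg _ (DFunLike.congr_fun h3 x)

variable {b : Fin d → B} {R : Type u} [CommRing R] [Algebra K R] (c : Chart K b R)

variable (σ) in
/-- constants as an algebra map over `K` -/
noncomputable def hCR : R →ₐ[K] MvPolynomial (σ × Fin d) R :=
  IsScalarTower.toAlgHom K R (MvPolynomial (σ × Fin d) R)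

variable (σ) in
/-- the restricted chart -/
noncomputable def c0' : Chart K b (MvPolynomial (σ × Fin d) R) := c.map (hCR σ)

variable (σ) in
/-- the map to the algebra of the chart -/
noncomputable def ψ' : MvPolynomial σ B →ₐ[K] Q (c0' σ c) :=
  { MvPolynomial.eval₂Hom (pj (c0' σ c)).toRingHom
      (fun s => el (c0' σ c) (fun j => MvPolynomial.X (s, j))) with
    commutes' := fun r => by
      change MvPolynomial.eval₂Hom (pj (c0' σ c)).toRingHom
        (fun s => el (c0' σ c) (fun j => MvPolynomial.X (s, j)))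
        (MvPolynomial.C (algebraMap K B r)) = _
      rw [MvPolynomial.eval₂Hom_C]
      exact (pj (c0' σ c)).commutes r }

lemma ψ'_C (x : B) : ψ' σ c (hC K B σ x) = pj (c0' σ c) x :=
  MvPolynomial.eval₂Hom_C _ _ _

lemma ψ'_X (s : σ) : ψ' σ c (MvPolynomial.X s) = el (c0' σ c) (fun j => MvPolynomial.X (s, j)) :=
  MvPolynomial.eval₂Hom_X' _ _ _

variable (σ) in
/-- the chart over the polynomial ring -/
noncomputable def c' : Chart K (fun i => hC K B σ (b i)) (MvPolynomial (σ × Fin d) R) :=
  ofHom (hC K B σ) (c0' σ c) (ψ' σ c) (ψ'_C c)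

lemma hCR_apply (y : R) : hCR (K := K) (d := d) σ y = MvPolynomial.C y := rfl

lemma res_c' : res (hC K B σ) (c' σ c) = c.map (hCR σ) := res_ofHom _ _ _ _

lemma c'_q_X (s : σ) (j : Fin d) : (c' σ c).q (MvPolynomial.X s) j = MvPolynomial.X (s, j) := by
  change co _ (ψ' σ c (MvPolynomial.X s)) j = _
  rw [ψ'_X, co_el]

lemma exists_extension {τ : Type*} {S : Type*} [CommRing S] [Algebra K S] (φ0 : R →ₐ[K] S)
    (v : τ → S) : ∃ φ : MvPolynomial τ R →ₐ[K] S,
      (∀ y, φ (MvPolynomial.C y) = φ0 y) ∧ ∀ s, φ (MvPolynomial.X s) = v s := by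
  letI : Algebra R S := φ0.toRingHom.toAlgebra
  haveI : IsScalarTower K R S := .of_algebraMap_eq fun r => (φ0.commutes r).symm
  refine ⟨(MvPolynomial.aeval (R := R) v).restrictScalars K, fun y => ?_, fun s => ?_⟩
  · exact MvPolynomial.aeval_C v y
  · exact MvPolynomial.aeval_X v s

lemma isUniv_c' (h : IsUniv c) : IsUniv (c' σ c) where
  ex := by
    intro S _ _ cS
    obtain ⟨φ0, hφ0⟩ := h.ex S (res (hC K B σ) cS)
    obtain ⟨φ, hφC, hφX⟩ := exists_extension (τ := σ × Fin d) φ0
      (fun p => cS.q (MvPolynomial.X p.1) p.2)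
    refine ⟨φ, ?_⟩
    apply chart_ext_poly
    · rw [res_map, res_c', Chart.map_map, ← hφ0]
      congr 1
      apply AlgHom.ext
      intro y
      rw [AlgHom.comp_apply, hCR_apply, hφC]
    · intro s
      funext j
      rw [Chart.map_q, c'_q_X, hφX]
  uq := by
    intro S _ _ φ ψ h'
    have h2 : (φ : MvPolynomial (σ × Fin d) R →+* S) = ψ := by
      apply MvPolynomial.ringHom_ext
      · intro y
        have h3 : φ.comp (hCR σ) = ψ.comp (hCR σ) := by
          apply h.uq
          rw [← Chart.map_map, ← Chart.map_map, ← res_c', ← res_map, ← res_map, h']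
        have h5 : φ (hCR (K := K) σ y) = ψ (hCR (K := K) σ y) := DFunLike.congr_fun h3 y
        rw [hCR_apply] at h5
        exact h5
      · rintro ⟨s, j⟩
        have h4 := congrFun (congrArg (fun c : Chart K (fun i => hC K B σ (b i)) _ =>
          c.q (MvPolynomial.X s)) h') j
        simp only [Chart.map_q, c'_q_X] at h4
        exact h4
    exact AlgHom.coe_ringHom_injective h2

end poly

end Pool.Agent.H869.Rel
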