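import Mathlib
import Pool.Agent.H869.Poly
import Pool.Agent.H869.Normal

set_option autoImplicit false
set_option linter.unusedSimpArgs false
set_option linter.style.haveILetI false

/-!
All chart rings of Hilbert schemes of four points of smooth affine schemes over a field have normal
Cohen–Macaulay local rings.
-/

open scoped TensorProduct

universe u

namespace Pool.Agent.H869.Rel

open Pool.Agent.Helper226 Pool.Agent.H869.GrTab Pool.Agent.H869 IsLocalRing

section

lemma map_C_isPrime {R : Type*} [CommRing R] (p : Ideal R) [p.IsPrime] (σ : Type*) :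
    (p.map (MvPolynomial.C : R →+* MvPolynomial σ R)).IsPrime := by
  have h := MvPolynomial.ker_map (σ := σ) (Ideal.Quotient.mk p)
  rw [Ideal.mk_ker] at h
  rw [← h]
  exact RingHom.ker_isPrime _

lemma comap_C_map_C {R : Type*} [CommRing R] (p : Ideal R) (σ : Type*) :
    (p.map (MvPolynomial.C : R →+* MvPolynomial σ R)).comap MvPolynomial.C = p := by
  have h := MvPolynomial.ker_map (σ := σ) (Ideal.Quotient.mk p)
  rw [Ideal.mk_ker] at h
  rw [← h]
  ext x
  rw [Ideal.mem_comap, RingHom.mem_ker, MvPolynomial.map_C, map_eq_zero_iff _ (MvPolynomial.C_injective _ _),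
    Ideal.Quotient.eq_zero_iff_mem]

/-- descent from the extended prime of a polynomial ring -/
lemma ncm_of_mvPolynomial {R : Type u} [CommRing R] [IsNoetherianRing R] (σ : Type) (p : Ideal R)
    [p.IsPrime] (P : Ideal (MvPolynomial σ R)) [P.IsPrime] (hP : P = p.map MvPolynomial.C)
    (h : NCM (Localization.AtPrime P)) : NCM (Localization.AtPrime p) := by
  have hover : P.LiesOver p := ⟨by rw [hP]; exact (comap_C_map_C p σ).symm⟩
  let := Localization.AtPrime.algebraOfLiesOver p P
  have : IsLocalHom (algebraMap (Localization.AtPrime p) (Localization.AtPrime P)) := by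
    rw [RingHom.algebraMap_toAlgebra]
    exact Localization.isLocalHom_localRingHom p P (algebraMap R (MvPolynomial σ R))
      Ideal.LiesOver.over
  have hN : IsNoetherianRing (Localization.AtPrime p) :=
    IsLocalization.isNoetherianRing p.primeCompl _ inferInstance
  refine NCM.descend (C := Localization.AtPrime P) ?_ h
  have h5 : P.map (algebraMap (MvPolynomial σ R) (Localization.AtPrime P)) =
      (p.map MvPolynomial.C).map (algebraMap (MvPolynomial σ R) (Localization.AtPrime P)) :=
    congrArg (Ideal.map _) hP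
  rw [← Localization.AtPrime.map_eq_maximalIdeal, ← Localization.AtPrime.map_eq_maximalIdeal,
    Ideal.map_map, ← IsScalarTower.algebraMap_eq, h5, Ideal.map_map]
  congr 1

end

section det

variable {K : Type u} [CommRing K] {B : Type u} [CommRing B] [Algebra K B]

/-- the base-changed structure map -/
noncomputable def h3 (K B : Type u) [CommRing K] [CommRing B] [Algebra K B] :
    MvPolynomial (Fin 3) K →ₐ[K] MvPolynomial (Fin 3) B :=
  MvPolynomial.mapAlgHom (Algebra.ofId K B)

lemma h3_X (s : Fin 3) : h3 K B (MvPolynomial.X s) = MvPolynomial.X s := by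
  simp [h3]

lemma exists_notMem {b : Fin 4 → B} {R : Type u} [CommRing R] [Algebra K R] (c : Chart K b R)
    (p : Ideal R) [p.IsPrime] : ∃ j, c.q 1 j ∉ p := by
  by_contra hcon
  push Not at hcon
  have h1 := congrFun (c.q_mul 1 (b 0)) 0
  rw [one_mul, c.q_b, Pi.single_eq_same, Finset.sum_apply] at h1
  have h2 : (1 : R) ∈ p := by
    rw [h1]
    refine Ideal.sum_mem _ fun j _ => ?_
    rw [Pi.smul_apply, smul_eq_mul]
    exact Ideal.mul_mem_right _ _ (hcon j)
  exact ‹p.IsPrime›.ne_top ((Ideal.eq_top_iff_one _).2 h2)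

lemma tmat_c' {b : Fin 4 → B} {R : Type u} [CommRing R] [Algebra K R] (c : Chart K b R) :
    tmat (c' (Fin 3) c) (fun i => h3 K B (bas K i)) =
      Matrix.of (Fin.cons (fun j => MvPolynomial.C (c.q 1 j))
        (fun (s : Fin 3) (j : Fin 4) => (MvPolynomial.X (s, j) : MvPolynomial (Fin 3 × Fin 4) R))) := by
  ext1 i j
  rw [tmat, Matrix.of_apply, Matrix.of_apply]
  refine Fin.cases ?_ (fun s => ?_) i
  · rw [bas_zero, map_one, Fin.cons_zero]
    have h1 : (1 : MvPolynomial (Fin 3) B) = hC K B (Fin 3) 1 := (map_one _).symm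
    rw [h1, ← res_q, res_c', Chart.map_q, hCR_apply]
  · rw [bas_succ, h3_X, c'_q_X, Fin.cons_succ]

lemma det_cons {S : Type*} [CommRing S] (u : Fin 4 → S) (j0 : Fin 4) :
    (Matrix.of (Fin.cons u (fun (s : Fin 3) (j : Fin 4) =>
      if j = j0.succAbove s then (1 : S) else 0) : Fin 4 → Fin 4 → S)).det =
      (-1) ^ (j0 : ℕ) * u j0 := by
  rw [Matrix.det_succ_row_zero, Finset.sum_eq_single j0]
  · have : (Matrix.of (Fin.cons u (fun (s : Fin 3) (j : Fin 4) =>
      if j = j0.succAbove s then (1 : S) else 0) : Fin 4 → Fin 4 → S)).submatrix Fin.succ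
        j0.succAbove = 1 := by
      ext s t
      simp [Matrix.one_apply, Fin.succAbove_right_inj, eq_comm]
    rw [this, Matrix.det_one, mul_one]
    rfl
  · intro j _ hj
    obtain ⟨t, ht⟩ := Fin.exists_succAbove_eq hj.symm
    have : (Matrix.submatrix (Matrix.of (Fin.cons u (fun (s : Fin 3) (j : Fin 4) =>
      if j = j0.succAbove s then (1 : S) else 0) : Fin 4 → Fin 4 → S)) Fin.succ
        j.succAbove).det = 0 := by
      apply Matrix.det_eq_zero_of_column_eq_zero t
      intro s
      rw [Matrix.submatrix_apply, Matrix.of_apply, Fin.cons_succ, ht,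
        if_neg (Fin.succAbove_ne j0 s).symm]
    rw [this, mul_zero]
  · intro h
    exact absurd (Finset.mem_univ _) h

lemma det_notMem {b : Fin 4 → B} {R : Type u} [CommRing R] [Algebra K R] (c : Chart K b R)
    (p : Ideal R) [p.IsPrime] :
    (tmat (c' (Fin 3) c) (fun i => h3 K B (bas K i))).det ∉
      p.map (MvPolynomial.C : R →+* MvPolynomial (Fin 3 × Fin 4) R) := by
  obtain ⟨j0, hj0⟩ := exists_notMem c p
  intro hmem
  let ev : MvPolynomial (Fin 3 × Fin 4) R →+* R ⧸ p :=
    MvPolynomial.eval₂Hom (Ideal.Quotient.mk p)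
      (fun x => if x.2 = j0.succAbove x.1 then 1 else 0)
  have h1 : p.map (MvPolynomial.C : R →+* MvPolynomial (Fin 3 × Fin 4) R) ≤ RingHom.ker ev := by
    rw [Ideal.map_le_iff_le_comap]
    intro x hx
    rw [Ideal.mem_comap, RingHom.mem_ker, MvPolynomial.eval₂Hom_C, Ideal.Quotient.eq_zero_iff_mem]
    exact hx
  have h2 := h1 hmem
  rw [RingHom.mem_ker, RingHom.map_det, tmat_c'] at h2
  have h3 : ev.mapMatrix (Matrix.of (Fin.cons (fun j => MvPolynomial.C (c.q 1 j))
        (fun (s : Fin 3) (j : Fin 4) => (MvPolynomial.X (s, j) : MvPolynomial (Fin 3 × Fin 4) R)))) =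
      Matrix.of (Fin.cons (fun j => Ideal.Quotient.mk p (c.q 1 j)) (fun (s : Fin 3) (j : Fin 4) =>
      if j = j0.succAbove s then (1 : R ⧸ p) else 0) : Fin 4 → Fin 4 → R ⧸ p) := by
    ext i j
    rw [RingHom.mapMatrix_apply, Matrix.map_apply, Matrix.of_apply, Matrix.of_apply]
    refine Fin.cases ?_ (fun s => ?_) i
    · rw [Fin.cons_zero, Fin.cons_zero, MvPolynomial.eval₂Hom_C]
    · rw [Fin.cons_succ, Fin.cons_succ, MvPolynomial.eval₂Hom_X']
  rw [h3, det_cons, IsUnit.mul_right_eq_zero ((isUnit_one.neg).pow _),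
    Ideal.Quotient.eq_zero_iff_mem] at h2
  exact hj0 h2

end det

section final

variable {K : Type u} [Field K] {B : Type u} [CommRing B] [Algebra K B]

lemma good_of_smooth {R S : Type u} [CommRing R] [IsDomain R] [IsIntegrallyClosed R]
    (hR : IsCMRing R) [CommRing S] [Algebra R S] [Algebra.Smooth R S] : Good S := by
  intro p hp
  obtain ⟨h1, h2⟩ := normal_of_smooth (R := R) p
  exact ⟨h1, h2, (IsCMRing.of_smooth (S := S) hR).at_prime p⟩

lemma good_of_formallySmooth_away {R S : Type u} [CommRing R] [IsDomain R] [IsIntegrallyClosed R]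
    (hR : IsCMRing R) [CommRing S] [Algebra R S] (x : S) (hx : x = 1)
    (hf : (algebraMap R S).FiniteType) (hs : Algebra.FormallySmooth R (Localization.Away x)) :
    Good S := by
  have := hR.noeth
  have hf' : Algebra.FiniteType R S := (RingHom.finiteType_algebraMap).1 hf
  have hf2 : Algebra.FiniteType R (Localization.Away x) :=
    Algebra.FiniteType.trans hf' (IsLocalization.finiteType_of_monoid_fg (Submonoid.powers x) _)
  have hfp : Algebra.FinitePresentation R (Localization.Away x) :=
    (Algebra.FinitePresentation.of_finiteType).1 hf2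
  have hsm : Algebra.Smooth R (Localization.Away x) := ⟨hs, hfp⟩
  intro p hp
  refine NCM.of_away x (good_of_smooth (S := Localization.Away x) hR) p ?_
  rw [hx]
  exact fun h => hp.ne_top ((Ideal.eq_top_iff_one _).2 h)

lemma formallySmooth_h3 [Algebra.FormallySmooth K B] :
    letI : Algebra (MvPolynomial (Fin 3) K) (MvPolynomial (Fin 3) B) :=
      MvPolynomial.algebraMvPolynomial
    Algebra.FormallySmooth (MvPolynomial (Fin 3) K) (MvPolynomial (Fin 3) B) := by
  letI : Algebra (MvPolynomial (Fin 3) K) (MvPolynomial (Fin 3) B) :=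
      MvPolynomial.algebraMvPolynomial
  haveI : Algebra.IsPushout K (MvPolynomial (Fin 3) K) B (MvPolynomial (Fin 3) B) := inferInstance
  exact Algebra.FormallySmooth.of_equiv
    (Algebra.IsPushout.equiv K (MvPolynomial (Fin 3) K) B (MvPolynomial (Fin 3) B))

lemma delta_one {R : Type u} [CommRing R] [Algebra K R] {b : Fin 4 → B} (c : Chart K b R) :
    delta c 1 = 1 := by
  unfold delta
  simp only [mul_one]
  rw [show (fun i => b i) = b from rfl, tmat_self, Matrix.det_one]

/-- the chart ring with generic basis is good -/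
lemma good_h3 [Algebra.FormallySmooth K B] [Algebra.FiniteType K B] :
    Good (ChartRing K (fun i => h3 K B (bas K i))) := by
  letI : Algebra (MvPolynomial (Fin 3) K) (MvPolynomial (Fin 3) B) :=
      MvPolynomial.algebraMvPolynomial
  haveI : IsScalarTower K (MvPolynomial (Fin 3) K) (MvPolynomial (Fin 3) B) :=
    .of_algebraMap_eq fun r => by
      change MvPolynomial.C (algebraMap K B r) = MvPolynomial.map (algebraMap K B) (MvPolynomial.C r)
      rw [MvPolynomial.map_C]
  haveI := formallySmooth_h3 (K := K) (B := B)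
  letI : Algebra (ChartRing K (bas K)) (ChartRing K (fun i => h3 K B (bas K i))) :=
    (rho (h3 K B) (bas K)).toRingHom.toAlgebra
  haveI : Algebra.FormallySmooth (MvPolynomial (Fin 3) B)
      (Localization.Away (1 : MvPolynomial (Fin 3) B)) :=
    Algebra.FormallySmooth.of_isLocalization (Submonoid.powers (1 : MvPolynomial (Fin 3) B))
  haveI : Algebra.FormallySmooth (MvPolynomial (Fin 3) K)
      (Localization.Away (1 : MvPolynomial (Fin 3) B)) :=
    Algebra.FormallySmooth.comp _ (MvPolynomial (Fin 3) B) _
  haveI h1 := formallySmooth (h3 K B) (bas K) (1 : MvPolynomial (Fin 3) B) (fun x => rfl)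
    (fun x => rfl)
  haveI : Algebra.FiniteType K (MvPolynomial (Fin 3) B) :=
    Algebra.FiniteType.trans (S := B) inferInstance inferInstance
  have hf0 : Algebra.FiniteType K (ChartRing K (fun i => h3 K B (bas K i))) :=
    chartRing_finiteType _
  have hf1 : (algebraMap (ChartRing K (bas K))
      (ChartRing K (fun i => h3 K B (bas K i)))).FiniteType := by
    apply RingHom.FiniteType.of_comp_finiteType (f := algebraMap K (ChartRing K (bas K)))
    have h2 : (algebraMap (ChartRing K (bas K)) (ChartRing K (fun i => h3 K B (bas K i)))).comp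
        (algebraMap K (ChartRing K (bas K))) =
        algebraMap K (ChartRing K (fun i => h3 K B (bas K i))) :=
      (rho (h3 K B) (bas K)).comp_algebraMap
    rw [h2]
    exact (RingHom.finiteType_algebraMap).2 hf0
  exact good_of_formallySmooth_away (isCMRing_univRing K) _ (delta_one _) hf1 h1

/-- **All charts are good.** -/
theorem good_chartRing [Algebra.FormallySmooth K B] [Algebra.FiniteType K B] (b : Fin 4 → B) :
    Good (ChartRing K b) := by
  intro p hp
  have hft : Algebra.FiniteType K (ChartRing K b) := chartRing_finiteType _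
  have hN : IsNoetherianRing (ChartRing K b) := Algebra.FiniteType.isNoetherianRing K _
  have hP : (p.map (MvPolynomial.C : ChartRing K b →+*
      MvPolynomial (Fin 3 × Fin 4) (ChartRing K b))).IsPrime := map_C_isPrime p _
  refine ncm_of_mvPolynomial (Fin 3 × Fin 4) p _ rfl ?_
  exact ncm_of_trans (univChart K (fun i => h3 K B (bas K i))) (isUniv_univChart _)
    (c' (Fin 3) (univChart K b)) (isUniv_c' _ (isUniv_univChart b)) good_h3 _
    (det_notMem (univChart K b) p)

end final

end Pool.Agent.H869.Rel
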