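import Mathlib
import Pool.Agent.H869.Charts
import Pool.Graph.R_seed8.Helper226.HilbFree

set_option autoImplicit false
set_option linter.unusedSimpArgs false
set_option linter.style.haveILetI false

/-!
From charts to closed subschemes of `X × Spec R`.
-/

open scoped TensorProduct
open CategoryTheory Limits AlgebraicGeometry

universe u

namespace Pool.Agent.H869.Sch

open Pool.Agent.Helper226 Pool.Agent.H869.Rel

/-- the structure morphism of the spectrum of an algebra -/
noncomputable abbrev sp (k R : Type u) [CommRing k] [CommRing R] [Algebra k R] :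
    Spec (CommRingCat.of R) ⟶ Spec (CommRingCat.of k) :=
  Spec.map (CommRingCat.ofHom (algebraMap k R))

/-- the morphism of an algebra homomorphism -/
noncomputable abbrev sm {k R R' : Type u} [CommRing k] [CommRing R] [Algebra k R] [CommRing R']
    [Algebra k R'] (φ : R →ₐ[k] R') : Spec (CommRingCat.of R') ⟶ Spec (CommRingCat.of R) :=
  Spec.map (CommRingCat.ofHom φ.toRingHom)

lemma sm_sp {k R R' : Type u} [CommRing k] [CommRing R] [Algebra k R] [CommRing R']
    [Algebra k R'] (φ : R →ₐ[k] R') : sm φ ≫ sp k R = sp k R' := by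
  rw [← Spec.map_comp, ← CommRingCat.ofHom_comp]
  congr 2
  exact φ.comp_algebraMap

section zc

variable {k : Type u} [CommRing k] {X : Scheme.{u}} (p : X ⟶ Spec (CommRingCat.of k))
  {B : Type u} [CommRing B] [Algebra k B] (u : Spec (CommRingCat.of B) ⟶ X)
  (hu : u ≫ p = sp k B) {d : ℕ} {b : Fin d → B} {R : Type u} [CommRing R]
  [Algebra k R] (c : Chart k b R)

include hu in
lemma zc_cond : (sm (pj c) ≫ u) ≫ p =
    Spec.map (CommRingCat.ofHom (algebraMap R (Q c))) ≫ sp k R := by
  rw [Category.assoc, hu, sm_sp, ← Spec.map_comp, ← CommRingCat.ofHom_comp]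

/-- the closed immersion of a chart -/
noncomputable def zc : Spec (CommRingCat.of (Q c)) ⟶ pullback p (sp k R) :=
  pullback.lift (sm (pj c) ≫ u) (Spec.map (CommRingCat.ofHom (algebraMap R (Q c))))
    (zc_cond p u hu c)

lemma zc_fst : zc p u hu c ≫ pullback.fst p (sp k R) = sm (pj c) ≫ u := pullback.lift_fst _ _ _

lemma zc_snd : zc p u hu c ≫ pullback.snd p (sp k R) =
    Spec.map (CommRingCat.ofHom (algebraMap R (Q c))) := pullback.lift_snd _ _ _

/-- coordinates as a linear equivalence -/
noncomputable def coEquiv : Q c ≃ₗ[R] (Fin d → R) where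
  toFun := co c
  map_add' := co_add c
  map_smul' := co_smul c
  invFun := el c
  left_inv z := co_injective c (co_el c _)
  right_inv v := co_el c v

instance : Module.Free R (Q c) := Module.Free.of_equiv (coEquiv c).symm

instance : Module.Finite R (Q c) := Module.Finite.equiv (coEquiv c).symm

lemma finite_alg : (algebraMap R (Q c)).Finite :=
  RingHom.finite_algebraMap.2 inferInstance

instance isFinite_spec : IsFinite (Spec.map (CommRingCat.ofHom (algebraMap R (Q c)))) :=
  (IsFinite.SpecMap_iff _).2 (finite_alg c)

instance flat_spec : Flat (Spec.map (CommRingCat.ofHom (algebraMap R (Q c)))) :=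
  (Flat.SpecMap_iff).2 ((RingHom.flat_algebraMap_iff).2 inferInstance)

lemma spec_hom_ext' {T : Scheme.{u}} (g1 g2 : T ⟶ Spec (CommRingCat.of (Q c)))
    (h1 : g1 ≫ sm (pj c) = g2 ≫ sm (pj c))
    (h2 : g1 ≫ Spec.map (CommRingCat.ofHom (algebraMap R (Q c))) =
      g2 ≫ Spec.map (CommRingCat.ofHom (algebraMap R (Q c)))) : g1 = g2 := by
  let e : Spec (CommRingCat.of (Q c)) ⟶ Spec (CommRingCat.of (R ⊗[k] B)) :=
    Spec.map (CommRingCat.ofHom (Ideal.Quotient.mk c.ideal))
  have he : IsClosedImmersion e := IsClosedImmersion.spec_of_surjective _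
    Ideal.Quotient.mk_surjective
  rw [← cancel_mono e, ← cancel_mono (pullbackSpecIso k R B).inv]
  have e1 : e ≫ (pullbackSpecIso k R B).inv ≫ pullback.fst _ _ =
      Spec.map (CommRingCat.ofHom (algebraMap R (Q c))) := by
    rw [pullbackSpecIso_inv_fst, ← Spec.map_comp, ← CommRingCat.ofHom_comp]
  have e2 : e ≫ (pullbackSpecIso k R B).inv ≫ pullback.snd _ _ = sm (pj c) := by
    rw [pullbackSpecIso_inv_snd, ← Spec.map_comp, ← CommRingCat.ofHom_comp]
    rfl
  apply pullback.hom_ext
  · simp only [Category.assoc]
    rw [e1]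
    exact h2
  · simp only [Category.assoc]
    rw [e2]
    exact h1

instance isClosedImmersion_zc [IsSeparated p] [Mono u] : IsClosedImmersion (zc p u hu c) := by
  rw [IsClosedImmersion.iff_isFinite_and_mono]
  constructor
  · have : IsFinite (zc p u hu c ≫ pullback.snd p (sp k R)) := by
      rw [zc_snd]
      infer_instance
    exact IsFinite.of_comp _ (pullback.snd p (sp k R))
  · refine ⟨fun g1 g2 h => ?_⟩
    apply spec_hom_ext' c
    · have h1 := congr($h ≫ pullback.fst p (sp k R))
      rw [Category.assoc, Category.assoc, zc_fst, ← Category.assoc, ← Category.assoc,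
        cancel_mono] at h1
      exact h1
    · have h1 := congr($h ≫ pullback.snd p (sp k R))
      rw [Category.assoc, Category.assoc, zc_snd] at h1
      exact h1

end zc

section fam

/-- Families over `t : T ⟶ S` of closed subschemes of length `n` of the fibres of `p : X ⟶ S`:
closed subschemes of `X ×[S] T` (given by their ideal sheaves) which are finite, flat and locally
of finite presentation over `T`, of constant degree `n`. -/
def HilbFamily {X S : Scheme.{u}} (p : X ⟶ S) (n : ℕ) {T : Scheme.{u}} (t : T ⟶ S) :
    Set (pullback p t).IdealSheafData :=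
  {I | IsFinite (I.subschemeι ≫ pullback.snd p t) ∧ Flat (I.subschemeι ≫ pullback.snd p t) ∧
    LocallyOfFinitePresentation (I.subschemeι ≫ pullback.snd p t) ∧
    ∀ y, (I.subschemeι ≫ pullback.snd p t).finrank y = n}

variable {k : Type u} [CommRing k] {X : Scheme.{u}} (p : X ⟶ Spec (CommRingCat.of k))
  {B : Type u} [CommRing B] [Algebra k B] (u : Spec (CommRingCat.of B) ⟶ X)
  (hu : u ≫ p = sp k B) {d : ℕ} {b : Fin d → B} {R : Type u} [CommRing R]
  [Algebra k R] (c : Chart k b R)

instance respectsIso_isFinite : MorphismProperty.RespectsIso @IsFinite.{u} :=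
  MorphismProperty.IsStableUnderBaseChange.respectsIso

instance respectsIso_flat : MorphismProperty.RespectsIso @Flat.{u} :=
  MorphismProperty.IsStableUnderBaseChange.respectsIso

instance respectsIso_lfp : MorphismProperty.RespectsIso @LocallyOfFinitePresentation.{u} :=
  MorphismProperty.IsStableUnderBaseChange.respectsIso

instance lfp_spec : LocallyOfFinitePresentation
    (Spec.map (CommRingCat.ofHom (algebraMap R (Q c)))) := by
  rw [HasRingHomProperty.Spec_iff (P := @LocallyOfFinitePresentation)]
  have h1 : Module.FinitePresentation R (Q c) := Module.finitePresentation_of_projective R (Q c)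
  have h2 : Algebra.FinitePresentation R (Q c) := inferInstance
  exact (RingHom.finitePresentation_algebraMap).2 h2

lemma mem_hilbFamily [IsSeparated p] [Mono u] : (zc p u hu c).ker ∈ HilbFamily p d (sp k R) := by
  have h1 : (zc p u hu c).toImage ≫ ((zc p u hu c).ker.subschemeι ≫ pullback.snd p (sp k R)) =
      Spec.map (CommRingCat.ofHom (algebraMap R (Q c))) := by
    rw [← Category.assoc]
    exact (congrArg (· ≫ pullback.snd p (sp k R)) (zc p u hu c).toImage_imageι).trans
      (zc_snd p u hu c)
  have hfin : IsFinite ((zc p u hu c).ker.subschemeι ≫ pullback.snd p (sp k R)) := by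
    rw [← MorphismProperty.cancel_left_of_respectsIso @IsFinite (zc p u hu c).toImage, h1]
    infer_instance
  have hflat : Flat ((zc p u hu c).ker.subschemeι ≫ pullback.snd p (sp k R)) := by
    rw [← MorphismProperty.cancel_left_of_respectsIso @Flat (zc p u hu c).toImage, h1]
    infer_instance
  refine ⟨hfin, hflat, ?_, ?_⟩
  · rw [← MorphismProperty.cancel_left_of_respectsIso @LocallyOfFinitePresentation
      (zc p u hu c).toImage, h1]
    infer_instance
  · intro y
    rw [← Scheme.Hom.finrank_comp_left_of_isIso (zc p u hu c).toImage, h1]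
    have hy : Nontrivial R := PrimeSpectrum.nontrivial (R := R) y
    have h2 := Scheme.Hom.finrank_SpecMap_algebraMap R (Q c) y
    rw [Module.rankAtStalk_eq_finrank_of_free] at h2
    rw [h2]
    change Module.finrank R (Q c) = d
    rw [LinearEquiv.finrank_eq (coEquiv c), Module.finrank_fin_fun]

end fam

end Pool.Agent.H869.Sch
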