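import Mathlib
import Pool.Agent.H869.Sch1

set_option autoImplicit false
set_option linter.unusedSimpArgs false
set_option linter.style.haveILetI false

/-!
Naturality and injectivity of the closed subscheme of a chart.
-/

open scoped TensorProduct
open CategoryTheory Limits AlgebraicGeometry

universe u

namespace Pool.Agent.H869.Sch

open Pool.Agent.Helper226 Pool.Agent.H869.Rel

section nat

variable {k : Type u} [CommRing k] {X : Scheme.{u}} (p : X ⟶ Spec (CommRingCat.of k))
  {B : Type u} [CommRing B] [Algebra k B] (u : Spec (CommRingCat.of B) ⟶ X)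
  (hu : u ≫ p = sp k B) {d : ℕ} {b : Fin d → B} {R : Type u} [CommRing R]
  [Algebra k R] (c : Chart k b R) {R' : Type u} [CommRing R'] [Algebra k R'] (φ : R →ₐ[k] R')

lemma isPushout_redu : IsPushout (CommRingCat.ofHom φ.toRingHom)
    (CommRingCat.ofHom (algebraMap R (Q c))) (CommRingCat.ofHom (algebraMap R' (Q (c.map φ))))
    (CommRingCat.ofHom (redu c φ).toRingHom) := by
  letI : Algebra R R' := φ.toRingHom.toAlgebra
  haveI : IsScalarTower k R R' := .of_algebraMap_eq fun r => (φ.commutes r).symm
  letI : Algebra (Q c) (Q (c.map φ)) := (redu c φ).toRingHom.toAlgebra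
  haveI h1 : IsScalarTower R R' (Q (c.map φ)) := inferInstance
  haveI h2 := IsScalarTower.of_algebraMap_eq (R := R) (S := Q c) (A := Q (c.map φ)) fun r => by
    change algebraMap R' (Q (c.map φ)) (φ r) = redu c φ (algebraMap R (Q c) r)
    have e1 : algebraMap R (Q c) r = Ideal.Quotient.mk c.ideal (r ⊗ₜ 1) := rfl
    have e2 : algebraMap R' (Q (c.map φ)) (φ r) = Ideal.Quotient.mk _ (φ r ⊗ₜ 1) := rfl
    rw [e1, e2, redu_mk]
    simp
  haveI : Algebra.IsPushout R R' (Q c) (Q (c.map φ)) := by
    refine ⟨?_⟩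
    let e : R' ⊗[R] Q c ≃ₗ[R'] Q (c.map φ) :=
      ((coEquiv c).baseChange R R' _ _) ≪≫ₗ (TensorProduct.piScalarRight R R' R' (Fin d)) ≪≫ₗ
        (coEquiv (c.map φ)).symm
    refine IsBaseChange.of_equiv e ?_
    intro x
    apply co_injective
    funext j
    change co (c.map φ) (el (c.map φ) _) j = co (c.map φ) (redu c φ x) j
    rw [co_redu, co_el]
    change TensorProduct.piScalarRight R R' R' (Fin d)
      ((coEquiv c).baseChange R R' _ _ ((1 : R') ⊗ₜ[R] x)) j = _
    rw [LinearEquiv.baseChange_tmul, TensorProduct.piScalarRight_apply,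
      TensorProduct.piScalarRightHom_tmul]
    change (co c x j) • (1 : R') = φ (co c x j)
    rw [Algebra.smul_def, mul_one]
    rfl
  exact CommRingCat.isPushout_of_isPushout R R' (Q c) (Q (c.map φ))

/-- base change map `X ×[k] Spec R' → X ×[k] Spec R` -/
noncomputable abbrev bm {T T' S : Scheme.{u}} {p : X ⟶ S} {t : T ⟶ S} {t' : T' ⟶ S}
    (f : T' ⟶ T) (hf : f ≫ t = t') : pullback p t' ⟶ pullback p t :=
  pullback.map p t' p t (𝟙 X) f (𝟙 S) (by rw [Category.comp_id, Category.id_comp])
    (by rw [Category.comp_id, hf])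

lemma bm_isPullback {T T' S : Scheme.{u}} {p : X ⟶ S} {t : T ⟶ S} {t' : T' ⟶ S}
    (f : T' ⟶ T) (hf : f ≫ t = t') :
    IsPullback (bm (p := p) f hf) (pullback.snd p t') (pullback.snd p t) f := by
  have h1 : IsPullback (bm (p := p) f hf ≫ pullback.fst p t) (pullback.snd p t') p (f ≫ t) := by
    subst hf
    rw [pullback.lift_fst, Category.comp_id]
    exact IsPullback.of_hasPullback _ _
  exact IsPullback.of_right h1 (by rw [pullback.lift_snd]) (IsPullback.of_hasPullback p t)

include hu in
lemma zc_isPullback : IsPullback (zc p u hu (c.map φ)) (Spec.map (CommRingCat.ofHom (redu c φ).toRingHom))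
    (bm (p := p) (sm φ) (sm_sp φ)) (zc p u hu c) := by
  have h1 := (isPullback_SpecMap_of_isPushout _ _ _ _ (isPushout_redu c φ)).flip
  have h2 := (bm_isPullback (p := p) (sm φ) (sm_sp φ)).flip
  refine IsPullback.of_right (h₁₂ := pullback.snd p (sp k R')) (h₂₂ := pullback.snd p (sp k R))
    (v₁₃ := sm φ) ?_ ?_ h2
  · rw [zc_snd, zc_snd]
    exact h1.flip
  · apply pullback.hom_ext
    · have e : (pj (c.map φ)).toRingHom = (redu c φ).toRingHom.comp (pj c).toRingHom :=
        RingHom.ext fun x => (redu_pj c φ x).symm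
      rw [Category.assoc, pullback.lift_fst, Category.comp_id, zc_fst, Category.assoc, zc_fst,
        ← Category.assoc, ← Spec.map_comp, ← CommRingCat.ofHom_comp, sm, e]
    · rw [Category.assoc, pullback.lift_snd, ← Category.assoc, zc_snd, Category.assoc, zc_snd,
        ← Spec.map_comp, ← Spec.map_comp]
      exact congrArg Spec.map (isPushout_redu c φ).w

/-- naturality -/
lemma ker_zc_map [IsSeparated p] [Mono u] : (zc p u hu (c.map φ)).ker =
    (zc p u hu c).ker.comap (bm (p := p) (sm φ) (sm_sp φ)) := by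
  have h := zc_isPullback p u hu c φ
  rw [← Scheme.IdealSheafData.ker_fst_of_isClosedImmersion]
  rw [← h.isoPullback_hom_fst, Scheme.Hom.ker_comp_of_isIso]

/-- injectivity -/
lemma zc_ker_injective [IsSeparated p] [Mono u] (c c' : Chart k b R)
    (h : (zc p u hu c).ker = (zc p u hu c').ker) : c = c' := by
  let g : Spec (CommRingCat.of (Q c')) ⟶ Spec (CommRingCat.of (Q c)) :=
    IsClosedImmersion.lift (zc p u hu c) (zc p u hu c') h.le
  have hg : g ≫ zc p u hu c = zc p u hu c' := IsClosedImmersion.lift_fac _ _ _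
  let γ : CommRingCat.of (Q c) ⟶ CommRingCat.of (Q c') := Spec.preimage g
  have hγ : Spec.map γ = g := Spec.map_preimage g
  let γ' : Q c →+* Q c' := γ.hom
  have h1 : ∀ r, γ' (algebraMap R (Q c) r) = algebraMap R (Q c') r := by
    have h2 := congr($hg ≫ pullback.snd p (sp k R))
    rw [Category.assoc, zc_snd, zc_snd, ← hγ, ← Spec.map_comp] at h2
    have h3 := Spec.map_injective h2
    intro r
    exact congr($(h3).hom r)
  have h2 : ∀ x, γ' (pj c x) = pj c' x := by
    have h2 := congr($hg ≫ pullback.fst p (sp k R))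
    rw [Category.assoc, zc_fst, zc_fst, ← hγ, ← Category.assoc, cancel_mono, ← Spec.map_comp] at h2
    have h3 := Spec.map_injective h2
    intro r
    exact congr($(h3).hom r)
  have h3 : ∀ (r : R) (z : Q c), γ' (r • z) = r • γ' z := by
    intro r z
    have e1 : r • z = algebraMap R (Q c) r * z := Algebra.smul_def r z
    have e2 : r • γ' z = algebraMap R (Q c') r * γ' z := Algebra.smul_def (A := Q c') r (γ' z)
    rw [e1, map_mul, h1, e2]
  ext1 x
  have h4 : pj c' x = ∑ j, c.q x j • pj c' (b j) := by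
    have h5 := congrArg γ' (eq_sum c (pj c x))
    rw [map_sum, h2] at h5
    simp only [h3, h2, co_pj] at h5
    exact h5
  have h6 := congrArg (coEquiv c') h4
  rw [map_sum] at h6
  simp only [map_smul] at h6
  have h7 : ∀ y, coEquiv c' (pj c' y) = c'.q y := fun y => co_pj c' y
  simp only [h7, c'.q_b] at h6
  rw [h6]
  ext m
  simp [Pi.single_apply]

end nat

end Pool.Agent.H869.Sch
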