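import Mathlib
import Pool.Agent.H869.Sch2

set_option autoImplicit false
set_option linter.unusedSimpArgs false
set_option linter.style.haveILetI false

/-!
Families over local rings are given by charts.
-/

open scoped TensorProduct
open CategoryTheory Limits AlgebraicGeometry

universe u

namespace Pool.Agent.H869.Sch

open Pool.Agent.Helper226 Pool.Agent.H869.Rel

/-- every finite set of points lies in an affine open subset -/
def FinAff (X : Scheme.{u}) : Prop :=
  ∀ F : Set X, F.Finite → ∃ U : X.Opens, IsAffineOpen U ∧ F ⊆ U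

lemma finite_maximal (A D : Type u) [CommRing A] [IsLocalRing A] [CommRing D] [Algebra A D]
    [Module.Finite A D] : {P : PrimeSpectrum D | P.asIdeal.IsMaximal}.Finite := by
  have h1 : ((IsLocalRing.maximalIdeal A).primesOver D).Finite :=
    Algebra.QuasiFinite.finite_primesOver _
  refine Set.Finite.of_finite_image (f := PrimeSpectrum.asIdeal) (h1.subset ?_) ?_
  · rintro _ ⟨P, hP, rfl⟩
    refine ⟨P.2, ⟨?_⟩⟩
    have hmax : P.asIdeal.IsMaximal := hP
    have : (P.asIdeal.comap (algebraMap A D)).IsMaximal :=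
      Ideal.isMaximal_comap_of_isIntegral_of_isMaximal P.asIdeal
    exact (IsLocalRing.eq_maximalIdeal this).symm
  · intro P _ P' _ h
    exact PrimeSpectrum.ext h

lemma exists_affine_range {X : Scheme.{u}} (hX : FinAff X) (A D : Type u) [CommRing A]
    [IsLocalRing A] [CommRing D] [Algebra A D] [Module.Finite A D]
    (f : Spec (CommRingCat.of D) ⟶ X) : ∃ U : X.Opens, IsAffineOpen U ∧ Set.range f ⊆ U := by
  obtain ⟨U, hU, hF⟩ := hX (f '' {P : PrimeSpectrum D | P.asIdeal.IsMaximal})
    ((finite_maximal A D).image _)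
  refine ⟨U, hU, ?_⟩
  rintro _ ⟨P, rfl⟩
  obtain ⟨m, hm, hle⟩ := Ideal.exists_le_maximal (PrimeSpectrum.asIdeal P) (PrimeSpectrum.isPrime P).ne_top
  let M : Spec (CommRingCat.of D) := (⟨m, hm.isPrime⟩ : PrimeSpectrum D)
  have hs : P ⤳ M := (PrimeSpectrum.le_iff_specializes (P : PrimeSpectrum D) ⟨m, hm.isPrime⟩).1 hle
  have h2 := hs.map f.continuous
  exact h2.mem_open U.2 (hF ⟨M, hm, rfl⟩)

section

variable {k : Type u} [CommRing k] {X : Scheme.{u}} (p : X ⟶ Spec (CommRingCat.of k))
  {B : Type u} [CommRing B] [Algebra k B] (u : Spec (CommRingCat.of B) ⟶ X)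
  (hu : u ≫ p = sp k B) {A : Type u} [CommRing A] [Algebra k A]

/-- `Spec (A ⊗ B) → X × Spec A` -/
noncomputable def jj : Spec (CommRingCat.of (A ⊗[k] B)) ⟶ pullback p (sp k A) :=
  pullback.lift (sm (Algebra.TensorProduct.includeRight : B →ₐ[k] A ⊗[k] B) ≫ u)
    (sm (Algebra.TensorProduct.includeLeft : A →ₐ[k] A ⊗[k] B)) (by
      rw [Category.assoc, hu, sm_sp, sm_sp])

lemma jj_fst : jj p u hu (A := A) ≫ pullback.fst p (sp k A) =
    sm (Algebra.TensorProduct.includeRight : B →ₐ[k] A ⊗[k] B) ≫ u := pullback.lift_fst _ _ _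

lemma jj_snd : jj p u hu (A := A) ≫ pullback.snd p (sp k A) =
    sm (Algebra.TensorProduct.includeLeft : A →ₐ[k] A ⊗[k] B) := pullback.lift_snd _ _ _

lemma tensor_hom_ext {T : Scheme.{u}} (g1 g2 : T ⟶ Spec (CommRingCat.of (A ⊗[k] B)))
    (h1 : g1 ≫ sm (Algebra.TensorProduct.includeRight : B →ₐ[k] A ⊗[k] B) =
      g2 ≫ sm (Algebra.TensorProduct.includeRight : B →ₐ[k] A ⊗[k] B))
    (h2 : g1 ≫ sm (Algebra.TensorProduct.includeLeft : A →ₐ[k] A ⊗[k] B) =
      g2 ≫ sm (Algebra.TensorProduct.includeLeft : A →ₐ[k] A ⊗[k] B)) : g1 = g2 := by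
  rw [← cancel_mono (pullbackSpecIso k A B).inv]
  apply pullback.hom_ext
  · rw [Category.assoc, Category.assoc, pullbackSpecIso_inv_fst]
    exact h2
  · rw [Category.assoc, Category.assoc, pullbackSpecIso_inv_snd]
    exact h1

instance mono_jj [Mono u] : Mono (jj p u hu (A := A)) := by
  refine ⟨fun g1 g2 h => ?_⟩
  apply tensor_hom_ext
  · have h1 := congr($h ≫ pullback.fst p (sp k A))
    rw [Category.assoc, Category.assoc, jj_fst, ← Category.assoc, ← Category.assoc,
      cancel_mono] at h1
    exact h1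
  · have h1 := congr($h ≫ pullback.snd p (sp k A))
    rw [Category.assoc, Category.assoc, jj_snd] at h1
    exact h1

variable {D : Type u} [CommRing D] [Algebra k D] (α : A →ₐ[k] D) (β : B →ₐ[k] D)

include hu in
/-- a morphism to `X × Spec A` factoring over `Spec (A ⊗ B)` -/
lemma comp_jj (z : Spec (CommRingCat.of D) ⟶ pullback p (sp k A))
    (h1 : z ≫ pullback.fst p (sp k A) = sm β ≫ u) (h2 : z ≫ pullback.snd p (sp k A) = sm α) :
    sm (Algebra.TensorProduct.productMap α β) ≫ jj p u hu = z := by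
  apply pullback.hom_ext
  · have e : (Algebra.TensorProduct.productMap α β).toRingHom.comp
        (Algebra.TensorProduct.includeRight : B →ₐ[k] A ⊗[k] B).toRingHom = β.toRingHom :=
      RingHom.ext fun x => Algebra.TensorProduct.productMap_right_apply α β x
    rw [Category.assoc, jj_fst, h1, ← Category.assoc, ← Spec.map_comp, ← CommRingCat.ofHom_comp, e]
  · have e : (Algebra.TensorProduct.productMap α β).toRingHom.comp
        (Algebra.TensorProduct.includeLeft : A →ₐ[k] A ⊗[k] B).toRingHom = α.toRingHom :=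
      RingHom.ext fun x => Algebra.TensorProduct.productMap_left_apply α β x
    rw [Category.assoc, jj_snd, h2, ← Spec.map_comp, ← CommRingCat.ofHom_comp, e]

lemma surjective_of_isClosedImmersion {R S : Type u} [CommRing R] [CommRing S] (φ : R →+* S)
    (h : IsClosedImmersion (Spec.map (CommRingCat.ofHom φ))) : Function.Surjective φ := by
  have h1 := (IsClosedImmersion.isAffine_surjective_of_isAffine
    (Spec.map (CommRingCat.ofHom φ))).2
  have h2 := Scheme.ΓSpecIso_naturality (CommRingCat.ofHom φ)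
  intro y
  obtain ⟨x, hx⟩ := h1 ((Scheme.ΓSpecIso (CommRingCat.of S)).inv.hom y)
  refine ⟨(Scheme.ΓSpecIso (CommRingCat.of R)).hom.hom x, ?_⟩
  have h3 := congr($(h2).hom x)
  refine Eq.trans h3.symm ?_
  change (Scheme.ΓSpecIso (CommRingCat.of S)).hom.hom ((Spec.map (CommRingCat.ofHom φ)).appTop.hom x) = y
  rw [hx]
  exact congr($((Scheme.ΓSpecIso (CommRingCat.of S)).inv_hom_id).hom y)

include hu in
lemma surjective_productMap [Mono u] (z : Spec (CommRingCat.of D) ⟶ pullback p (sp k A))
    [IsClosedImmersion z]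
    (h1 : z ≫ pullback.fst p (sp k A) = sm β ≫ u) (h2 : z ≫ pullback.snd p (sp k A) = sm α) :
    Function.Surjective (Algebra.TensorProduct.productMap α β) := by
  have h3 := comp_jj p u hu α β z h1 h2
  have h4 : IsClosedImmersion (sm (Algebra.TensorProduct.productMap α β) ≫ jj p u hu) := by
    rw [h3]; infer_instance
  have h5 : IsClosedImmersion (sm (Algebra.TensorProduct.productMap α β)) :=
    IsClosedImmersion.of_comp _ (jj p u hu)
  exact surjective_of_isClosedImmersion _ h5

end

end Pool.Agent.H869.Sch
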