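import Mathlib
import Pool.Agent.H869.Sch3

set_option autoImplicit false
set_option linter.unusedSimpArgs false
set_option linter.style.haveILetI false

/-!
Families over local rings are given by charts.
-/

open scoped TensorProduct
open CategoryTheory Limits AlgebraicGeometry

universe u

namespace Pool.Agent.H869.Sch

open Pool.Agent.Helper226 Pool.Agent.H869.Rel

section

variable {k : Type u} [Field k] {B : Type u} [CommRing B] [Algebra k B]
  {A : Type u} [CommRing A] [Algebra k A] [IsLocalRing A] {D : Type u} [CommRing D]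
  [Algebra k D] [Algebra A D] [IsScalarTower k A D] [Module.Finite A D] [Module.Projective A D]

lemma exists_chart (n : ℕ) (hrank : ∀ p, Module.rankAtStalk (R := A) D p = n) (β : B →ₐ[k] D)
    (hs : Function.Surjective
      (Algebra.TensorProduct.productMap (IsScalarTower.toAlgHom k A D) β)) :
    ∃ (b : Fin n → B) (c : Chart k b A) (e : Q c ≃ₐ[A] D), ∀ x, e (pj c x) = β x := by
  let π : A ⊗[k] B →ₐ[A] D := Algebra.TensorProduct.lift (Algebra.ofId A D) β
    (fun x y => Commute.all _ _)
  have hπ : ∀ x, π x = Algebra.TensorProduct.productMap (IsScalarTower.toAlgHom k A D) β x := by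
    intro x
    induction x using TensorProduct.induction_on with
    | zero => simp
    | add x y hx hy => rw [map_add, map_add, hx, hy]
    | tmul a b => rfl
  have hπs : Function.Surjective π := by
    intro y
    obtain ⟨x, hx⟩ := hs y
    exact ⟨x, (hπ x).trans hx⟩
  let I' : Ideal (A ⊗[k] B) := RingHom.ker π
  let e' : ((A ⊗[k] B) ⧸ I') ≃ₐ[A] D := Ideal.quotientKerAlgEquivOfSurjective hπs
  have h1 : Module.Finite A ((A ⊗[k] B) ⧸ I') := Module.Finite.equiv e'.symm.toLinearEquiv
  have h2 : Module.Projective A ((A ⊗[k] B) ⧸ I') := Module.Projective.of_equiv e'.symm.toLinearEquiv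
  have h3 : ∀ p : PrimeSpectrum A, Module.rankAtStalk ((A ⊗[k] B) ⧸ I') p = n := by
    intro p
    rw [← hrank p]
    exact congrFun (Module.rankAtStalk_eq_of_equiv e'.toLinearEquiv) p
  obtain ⟨f, hf, b, hb⟩ := locBas_of_spec h1 h2 h3 (IsLocalRing.closedPoint A)
  have hfu : IsUnit f := by
    by_contra h
    exact hf ((IsLocalRing.mem_maximalIdeal f).2 h)
  let g : Localization.Away f →ₐ[k] A :=
    IsLocalization.liftAlgHom (M := Submonoid.powers f) (f := AlgHom.id k A) (by
      rintro ⟨_, m, rfl⟩
      exact hfu.pow m)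
  have hg : g.comp (locHom (k := k) A (Localization.Away f)) = AlgHom.id k A := by
    ext x
    exact IsLocalization.lift_eq _ x
  have hb2 := hb.map g
  rw [← map_bc_comp, hg, map_bc_id] at hb2
  obtain ⟨c, hc⟩ := hb2
  refine ⟨b, c, (Ideal.quotientEquivAlgOfEq A hc).trans e', ?_⟩
  intro x
  rw [AlgEquiv.trans_apply, pj_apply, Ideal.quotientEquivAlgOfEq_mk]
  change π (1 ⊗ₜ x) = β x
  rw [Algebra.TensorProduct.lift_tmul]
  simp

end

section

variable {k : Type u} [Field k] {X : Scheme.{u}} (p : X ⟶ Spec (CommRingCat.of k))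

lemma exists_chart_family (hX : FinAff X) [IsSeparated p] {A : Type u} [CommRing A] [Algebra k A]
    [IsLocalRing A] (n : ℕ) (I : (pullback p (sp k A)).IdealSheafData)
    (hI : I ∈ HilbFamily p n (sp k A)) :
    ∃ (B : Type u) (_ : CommRing B) (_ : Algebra k B) (u : Spec (CommRingCat.of B) ⟶ X)
      (_ : IsOpenImmersion u) (hu : u ≫ p = sp k B) (b : Fin n → B) (c : Chart k b A),
      (zc p u hu c).ker = I := by
  obtain ⟨hfin, hflat, hlfp, hrank⟩ := hI
  set g := I.subschemeι ≫ pullback.snd p (sp k A) with hg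
  have hZaff : IsAffine I.subscheme := isAffine_of_isAffineHom g
  let Dc : CommRingCat.{u} := Γ(I.subscheme, ⊤)
  let D : Type u := Dc
  let w : Spec (CommRingCat.of D) ≅ I.subscheme := I.subscheme.isoSpec.symm
  let zD : Spec (CommRingCat.of D) ⟶ pullback p (sp k A) := w.hom ≫ I.subschemeι
  have hker : zD.ker = I := by
    rw [Scheme.Hom.ker_comp_of_isIso, Scheme.IdealSheafData.ker_subschemeι]
  have hfin' : IsFinite (zD ≫ pullback.snd p (sp k A)) := by
    change IsFinite ((w.hom ≫ I.subschemeι) ≫ pullback.snd p (sp k A))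
    rw [Category.assoc]
    infer_instance
  have hflat' : Flat (zD ≫ pullback.snd p (sp k A)) := by
    change Flat ((w.hom ≫ I.subschemeι) ≫ pullback.snd p (sp k A))
    rw [Category.assoc]
    infer_instance
  let αc : CommRingCat.of A ⟶ CommRingCat.of D := Spec.preimage (zD ≫ pullback.snd p (sp k A))
  have hαc : Spec.map αc = zD ≫ pullback.snd p (sp k A) := Spec.map_preimage _
  letI algA : Algebra A D := αc.hom.toAlgebra
  letI algk : Algebra k D := (αc.hom.comp (algebraMap k A)).toAlgebra
  haveI : IsScalarTower k A D := .of_algebraMap_eq' rfl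
  have hzsnd : zD ≫ pullback.snd p (sp k A) = sm (IsScalarTower.toAlgHom k A D) := hαc.symm
  have hfinD : Module.Finite A D := by
    rw [← hαc, IsFinite.SpecMap_iff] at hfin'
    exact RingHom.finite_algebraMap.1 hfin'
  have hflatD : Module.Flat A D := by
    rw [← hαc, Flat.SpecMap_iff] at hflat'
    exact RingHom.flat_algebraMap_iff.1 hflat'
  have hfreeD : Module.Free A D := Module.free_of_flat_of_isLocalRing
  have hrankD : ∀ y, Module.rankAtStalk (R := A) D y = n := by
    intro y
    rw [← Scheme.Hom.finrank_SpecMap_algebraMap A D y]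
    have e1 : Spec.map (CommRingCat.ofHom (algebraMap A D)) = w.hom ≫ g := by
      refine hαc.trans ?_
      rw [hg, ← Category.assoc]
    rw [e1, Scheme.Hom.finrank_comp_left_of_isIso]
    exact hrank y
  obtain ⟨U, hU, hUr⟩ := exists_affine_range hX A D (zD ≫ pullback.fst p (sp k A))
  let Bc : CommRingCat.{u} := Γ(X, U)
  let B : Type u := Bc
  let u : Spec (CommRingCat.of B) ⟶ X := hU.fromSpec
  have huo : IsOpenImmersion u := inferInstanceAs (IsOpenImmersion hU.fromSpec)
  have hur : Set.range u = U := hU.range_fromSpec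
  let κ : CommRingCat.of k ⟶ CommRingCat.of B := Spec.preimage (u ≫ p)
  letI : Algebra k B := κ.hom.toAlgebra
  have hu : u ≫ p = sp k B := (Spec.map_preimage (u ≫ p)).symm
  let v : Spec (CommRingCat.of D) ⟶ Spec (CommRingCat.of B) :=
    IsOpenImmersion.lift u (zD ≫ pullback.fst p (sp k A)) (by rw [hur]; exact hUr)
  have hv : v ≫ u = zD ≫ pullback.fst p (sp k A) := IsOpenImmersion.lift_fac _ _ _
  let βc : CommRingCat.of B ⟶ CommRingCat.of D := Spec.preimage v
  have hβc : Spec.map βc = v := Spec.map_preimage _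
  have hcomm : CommRingCat.ofHom (algebraMap k B) ≫ βc = CommRingCat.ofHom (algebraMap k D) := by
    apply Spec.map_injective
    rw [Spec.map_comp, hβc]
    change v ≫ sp k B = _
    rw [← hu, ← Category.assoc, hv, Category.assoc, pullback.condition, ← Category.assoc, hzsnd,
      sm_sp]
  let β : B →ₐ[k] D := { βc.hom with commutes' := fun r => congr($(hcomm).hom r) }
  have hβ : zD ≫ pullback.fst p (sp k A) = sm β ≫ u := by
    rw [← hv, ← hβc]
    rfl
  have hsurj := surjective_productMap p u hu (IsScalarTower.toAlgHom k A D) β zD hβ hzsnd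
  obtain ⟨b, c, e, he⟩ := exists_chart n hrankD β hsurj
  refine ⟨B, inferInstance, inferInstance, u, huo, hu, b, c, ?_⟩
  let σ : Spec (CommRingCat.of D) ≅ Spec (CommRingCat.of (Q c)) :=
    Scheme.Spec.mapIso (e.toRingEquiv.toCommRingCatIso).op
  have hσ : σ.hom ≫ zc p u hu c = zD := by
    apply pullback.hom_ext
    · rw [Category.assoc, zc_fst, hβ, ← Category.assoc]
      congr 1
      change Spec.map (CommRingCat.ofHom e.toRingEquiv.toRingHom) ≫
        Spec.map (CommRingCat.ofHom (pj c).toRingHom) = _
      rw [← Spec.map_comp, ← CommRingCat.ofHom_comp]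
      have e2 : e.toRingEquiv.toRingHom.comp (pj c).toRingHom = β.toRingHom :=
        RingHom.ext fun x => he x
      rw [e2]
    · rw [Category.assoc, zc_snd, hzsnd]
      change Spec.map (CommRingCat.ofHom e.toRingEquiv.toRingHom) ≫
        Spec.map (CommRingCat.ofHom (algebraMap A (Q c))) = _
      rw [← Spec.map_comp, ← CommRingCat.ofHom_comp]
      have e2 : e.toRingEquiv.toRingHom.comp (algebraMap A (Q c)) =
          (IsScalarTower.toAlgHom k A D).toRingHom :=
        RingHom.ext fun x => e.commutes x
      rw [e2]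
  rw [← hker, ← hσ, Scheme.Hom.ker_comp_of_isIso]

end

end Pool.Agent.H869.Sch
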