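import Mathlib
import Pool.Agent.H869.Sch4

set_option autoImplicit false
set_option linter.unusedSimpArgs false
set_option linter.style.haveILetI false

/-!
Local rings of Hilbert schemes of four points.
-/

open scoped TensorProduct
open CategoryTheory Limits AlgebraicGeometry

universe u

namespace Pool.Agent.H869.Sch

open Pool.Agent.Helper226 Pool.Agent.H869.Rel

/-- The `S`-scheme `h : H ⟶ S` is the Hilbert scheme of `n` points of `p : X ⟶ S`: there is a
universal family `Z` over `H` such that every family over every `S`-scheme `T` is the pullback of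
`Z` along a unique `S`-morphism `T ⟶ H`. -/
def IsHilbertScheme {X S H : Scheme.{u}} (p : X ⟶ S) (n : ℕ) (h : H ⟶ S) : Prop :=
  ∃ Z ∈ HilbFamily p n h, ∀ (T : Scheme.{u}) (t : T ⟶ S), ∀ I ∈ HilbFamily p n t,
    ∃! f : T ⟶ H, ∃ hf : f ≫ h = t, Z.comap (bm (p := p) f hf) = I

section

variable {X S : Scheme.{u}} {p : X ⟶ S}

lemma bm_comp {T T' T'' : Scheme.{u}} {t : T ⟶ S} {t' : T' ⟶ S} {t'' : T'' ⟶ S}
    (f : T' ⟶ T) (hf : f ≫ t = t') (g : T'' ⟶ T') (hg : g ≫ t' = t'')
    (hgf : (g ≫ f) ≫ t = t'') :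
    bm (p := p) g hg ≫ bm (p := p) f hf = bm (p := p) (g ≫ f) hgf := by
  apply pullback.hom_ext
  · rw [Category.assoc, pullback.lift_fst, Category.comp_id, pullback.lift_fst, Category.comp_id,
      pullback.lift_fst, Category.comp_id]
  · rw [Category.assoc, pullback.lift_snd, ← Category.assoc, pullback.lift_snd, Category.assoc,
      pullback.lift_snd]

lemma comap_bm_comp {T T' T'' : Scheme.{u}} {t : T ⟶ S} {t' : T' ⟶ S} {t'' : T'' ⟶ S}
    (f : T' ⟶ T) (hf : f ≫ t = t') (g : T'' ⟶ T') (hg : g ≫ t' = t'')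
    (hgf : (g ≫ f) ≫ t = t'') (Z : (pullback p t).IdealSheafData) :
    (Z.comap (bm (p := p) f hf)).comap (bm (p := p) g hg) = Z.comap (bm (p := p) (g ≫ f) hgf) := by
  rw [← Scheme.IdealSheafData.comap_comp, bm_comp]

lemma comap_mem_hilbFamily {T T' : Scheme.{u}} {t : T ⟶ S} {t' : T' ⟶ S}
    (f : T' ⟶ T) (hf : f ≫ t = t') (n : ℕ) (Z : (pullback p t).IdealSheafData)
    (hZ : Z ∈ HilbFamily p n t) : Z.comap (bm (p := p) f hf) ∈ HilbFamily p n t' := by
  obtain ⟨h1, h2, h3, h4⟩ := hZ
  have hpb : IsPullback (pullback.snd (bm (p := p) f hf) Z.subschemeι)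
      (pullback.fst (bm (p := p) f hf) Z.subschemeι ≫ pullback.snd p t')
      (Z.subschemeι ≫ pullback.snd p t) f :=
    (IsPullback.of_hasPullback (bm (p := p) f hf) Z.subschemeι).flip.paste_vert
      (bm_isPullback f hf)
  have e : (Z.comap (bm (p := p) f hf)).subschemeι ≫ pullback.snd p t' =
      (Z.comapIso (bm (p := p) f hf)).hom ≫
      (pullback.fst (bm (p := p) f hf) Z.subschemeι ≫ pullback.snd p t') := by
    rw [← Category.assoc, Scheme.IdealSheafData.comapIso_hom_fst]
  have h1' : IsFinite (pullback.fst (bm (p := p) f hf) Z.subschemeι ≫ pullback.snd p t') :=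
    MorphismProperty.of_isPullback hpb h1
  have h2' : Flat (pullback.fst (bm (p := p) f hf) Z.subschemeι ≫ pullback.snd p t') :=
    MorphismProperty.of_isPullback hpb h2
  have h3' : LocallyOfFinitePresentation
      (pullback.fst (bm (p := p) f hf) Z.subschemeι ≫ pullback.snd p t') :=
    MorphismProperty.of_isPullback hpb h3
  refine ⟨?_, ?_, ?_, ?_⟩
  · rw [e]; infer_instance
  · rw [e]; infer_instance
  · rw [e]; infer_instance
  · intro y
    rw [e, Scheme.Hom.finrank_comp_left_of_isIso, Scheme.Hom.finrank_of_isPullback _ _ _ _ hpb]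
    exact h4 _

end

lemma exists_stalk_map {H : Scheme.{u}} (L : Type u) [CommRing L] [IsLocalRing L]
    (f : Spec (CommRingCat.of L) ⟶ H) (x : H) (hx : f (IsLocalRing.closedPoint L) = x) :
    ∃ γ : H.presheaf.stalk x ⟶ CommRingCat.of L, Spec.map γ ≫ H.fromSpecStalk x = f := by
  subst hx
  exact ⟨Scheme.stalkClosedPointTo f, Scheme.Spec_stalkClosedPointTo_fromSpecStalk f⟩

section main

variable {k : Type u} [Field k] {X H : Scheme.{u}} (p : X ⟶ Spec (CommRingCat.of k))
  (h : H ⟶ Spec (CommRingCat.of k))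

/-- **Main theorem.** -/
theorem ncm_stalk [Smooth p] [IsSeparated p] (hX : FinAff X) (hH : IsHilbertScheme p 4 h)
    (x : H) : NCM (H.presheaf.stalk x) := by
  obtain ⟨Z, hZ, hZu⟩ := hH
  let A : Type u := H.presheaf.stalk x
  haveI hAloc : IsLocalRing A := inferInstanceAs (IsLocalRing (H.presheaf.stalk x))
  let j : Spec (CommRingCat.of A) ⟶ H := H.fromSpecStalk x
  have hjmono : Mono j := inferInstanceAs (Mono (H.fromSpecStalk x))
  let κA : CommRingCat.of k ⟶ CommRingCat.of A := Spec.preimage (j ≫ h)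
  letI : Algebra k A := κA.hom.toAlgebra
  have hj : j ≫ h = sp k A := (Spec.map_preimage (j ≫ h)).symm
  obtain ⟨B, iB, iAB, u, hu1, hu, b, c, hc⟩ := exists_chart_family p hX (A := A) 4
    (Z.comap (bm (p := p) j hj)) (comap_mem_hilbFamily j hj 4 Z hZ)
  have hsm : Smooth (sp k B) := by
    rw [← hu]
    infer_instance
  have hsmB : Algebra.Smooth k B := by
    rw [HasRingHomProperty.Spec_iff (P := @Smooth)] at hsm
    exact (RingHom.smooth_algebraMap).1 hsm
  obtain ⟨C, iC, iAC, cu, hcu, hgood⟩ : ∃ (C : Type u) (_ : CommRing C) (_ : Algebra k C)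
      (cu : Chart k b C), IsUniv cu ∧ Good C :=
    ⟨ChartRing k b, inferInstance, inferInstance, univChart k b, isUniv_univChart b,
      good_chartRing b⟩
  obtain ⟨α, hα⟩ := hcu.ex A c
  obtain ⟨β, ⟨hβ, hβZ⟩, -⟩ := hZu (Spec (CommRingCat.of C)) (sp k C) (zc p u hu cu).ker
    (mem_hilbFamily p u hu cu)
  have claim1 : sm α ≫ β = j := by
    have hex := hZu (Spec (CommRingCat.of A)) (sp k A) (Z.comap (bm (p := p) j hj))
      (comap_mem_hilbFamily j hj 4 Z hZ)
    refine hex.unique ⟨by rw [Category.assoc, hβ, sm_sp], ?_⟩ ⟨hj, rfl⟩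
    rw [← comap_bm_comp β hβ (sm α) (sm_sp α), hβZ, ← ker_zc_map, hα, hc]
  let q : Ideal C := (IsLocalRing.maximalIdeal A).comap α.toRingHom
  have hq : q.IsPrime := Ideal.IsPrime.comap _
  let L := Localization.AtPrime q
  let ι : C →ₐ[k] L := IsScalarTower.toAlgHom k C L
  have hx : (sm ι ≫ β) (IsLocalRing.closedPoint L) = x := by
    have h1 : j (IsLocalRing.closedPoint A) = x := Scheme.fromSpecStalk_closedPoint
    rw [← claim1] at h1
    have h2 : (sm ι) (IsLocalRing.closedPoint L : PrimeSpectrum L) =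
        (sm α) (IsLocalRing.closedPoint A : PrimeSpectrum A) := by
      apply PrimeSpectrum.ext
      exact IsLocalization.AtPrime.under_maximalIdeal L q
    rw [← h1]
    change β ((sm ι) (IsLocalRing.closedPoint L : PrimeSpectrum L)) =
      β ((sm α) (IsLocalRing.closedPoint A : PrimeSpectrum A))
    rw [h2]
  obtain ⟨γ, hγ⟩ := exists_stalk_map L (sm ι ≫ β) x hx
  let γ' : A →+* L := γ.hom
  have hγ' : Spec.map (CommRingCat.ofHom γ') ≫ j = sm ι ≫ β := hγ
  have hu2 : ∀ y : q.primeCompl, IsUnit (α.toRingHom y) := by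
    rintro ⟨y, hy⟩
    by_contra hcon
    exact hy ((IsLocalRing.mem_maximalIdeal _).2 hcon)
  let αq : L →+* A := IsLocalization.lift (M := q.primeCompl) (g := α.toRingHom) hu2
  have hαq : ∀ y, αq (algebraMap C L y) = α y := fun y => IsLocalization.lift_eq _ y
  have claim2 : αq.comp γ' = RingHom.id A := by
    have h1 : Spec.map (CommRingCat.ofHom (αq.comp γ')) ≫ j = 𝟙 _ ≫ j := by
      rw [CommRingCat.ofHom_comp, Spec.map_comp, Category.assoc, hγ', ← Category.assoc,
        ← Spec.map_comp, ← CommRingCat.ofHom_comp, Category.id_comp]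
      have e : αq.comp ι.toRingHom = α.toRingHom := RingHom.ext hαq
      rw [e]
      exact claim1
    rw [cancel_mono, ← Spec.map_id] at h1
    have h2 := Spec.map_injective h1
    exact RingHom.ext fun a => congr($(h2).hom a)
  let γk : A →ₐ[k] L :=
    { γ' with
      commutes' := fun r => by
        have h1 : Spec.map (CommRingCat.ofHom γ') ≫ sp k A = sp k L := by
          rw [← hj, ← Category.assoc, hγ', Category.assoc, hβ, sm_sp]
        rw [← Spec.map_comp] at h1
        have h2 := Spec.map_injective h1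
        exact congr($(h2).hom r) }
  have claim3 : γk.comp α = ι := by
    apply hcu.uq
    apply zc_ker_injective p u hu
    rw [ker_zc_map, ker_zc_map, ← hβZ, comap_bm_comp β hβ (sm (γk.comp α)) (sm_sp _)
      (by rw [Category.assoc, hβ, sm_sp]), comap_bm_comp β hβ (sm ι) (sm_sp _)
      (by rw [Category.assoc, hβ, sm_sp])]
    have e : sm (γk.comp α) ≫ β = sm ι ≫ β := by
      have e1 : sm (γk.comp α) = Spec.map (CommRingCat.ofHom γ') ≫ sm α := by
        rw [← Spec.map_comp, ← CommRingCat.ofHom_comp]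
        rfl
      rw [e1, Category.assoc, claim1, hγ']
    congr 1
    congr 1
  have claim4 : γ'.comp αq = RingHom.id L := by
    apply IsLocalization.ringHom_ext q.primeCompl
    refine RingHom.ext fun y => ?_
    change γ' (αq (algebraMap C L y)) = algebraMap C L y
    rw [hαq]
    exact DFunLike.congr_fun claim3 y
  exact NCM.of_ringEquiv (RingEquiv.ofRingHom αq γ' claim2 claim4) (hgood q)

end main

end Pool.Agent.H869.Sch
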