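import Mathlib
import Pool.Agent.H869.Sch5

set_option autoImplicit false
set_option linter.unusedSimpArgs false
set_option linter.style.haveILetI false

/-!
Finite subsets of quasi-projective schemes are contained in affine open subsets.
-/

open CategoryTheory Limits AlgebraicGeometry

universe u

namespace Pool.Agent.H869.Sch

section avoid

variable {A : Type u} {σ : Type*} [CommRing A] [SetLike σ A] [AddSubgroupClass σ A] (𝒜 : ℕ → σ)
  [GradedRing 𝒜]

lemma exists_homog (J : HomogeneousIdeal 𝒜) (x : ProjectiveSpectrum 𝒜)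
    (hx : ¬ J ≤ x.asHomogeneousIdeal) :
    ∃ n > 0, ∃ f ∈ 𝒜 n, f ∈ J ∧ f ∉ x.asHomogeneousIdeal := by
  classical
  obtain ⟨g, hgJ, hgx⟩ := SetLike.not_le_iff_exists.1 hx
  have h1 : ∃ i, (DirectSum.decompose 𝒜 g i : A) ∉ x.asHomogeneousIdeal := by
    by_contra hcon
    push Not at hcon
    apply hgx
    rw [← DirectSum.sum_support_decompose 𝒜 g]
    exact Ideal.sum_mem _ fun i _ => hcon i
  obtain ⟨i, hi⟩ := h1
  obtain ⟨h, hhI, hhx⟩ := SetLike.not_le_iff_exists.1 x.not_irrelevant_le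
  have h2 : ∃ j > 0, (DirectSum.decompose 𝒜 h j : A) ∉ x.asHomogeneousIdeal := by
    by_contra hcon
    push Not at hcon
    apply hhx
    rw [← DirectSum.sum_support_decompose 𝒜 h]
    refine Ideal.sum_mem _ fun j _ => ?_
    rcases Nat.eq_zero_or_pos j with rfl | hj
    · have : (DirectSum.decompose 𝒜 h 0 : A) = 0 := (HomogeneousIdeal.mem_irrelevant_iff 𝒜 h).1 hhI
      rw [this]
      exact Ideal.zero_mem _
    · exact hcon j hj
  obtain ⟨j, hj0, hj⟩ := h2
  refine ⟨i + j, by omega, (DirectSum.decompose 𝒜 g i : A) * (DirectSum.decompose 𝒜 h j : A),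
    SetLike.mul_mem_graded (SetLike.coe_mem _) (SetLike.coe_mem _), ?_, ?_⟩
  · exact Ideal.mul_mem_right _ J.toIdeal (J.isHomogeneous i hgJ)
  · intro hmem
    rcases x.isPrime.mem_or_mem hmem with h | h
    · exact hi h
    · exact hj h

/-- homogeneous prime avoidance -/
lemma exists_avoid (J : HomogeneousIdeal 𝒜) (n : ℕ) : ∀ F : Finset (ProjectiveSpectrum 𝒜),
    F.card = n → (∀ x ∈ F, ¬ J ≤ x.asHomogeneousIdeal) →
    ∃ n > 0, ∃ f ∈ 𝒜 n, f ∈ J ∧ ∀ x ∈ F, f ∉ x.asHomogeneousIdeal := by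
  classical
  induction n with
  | zero =>
    intro F hF _
    rw [Finset.card_eq_zero] at hF
    subst hF
    exact ⟨1, one_pos, 0, zero_mem _, J.toIdeal.zero_mem, by simp⟩
  | succ n ih =>
    intro F hF hJ
    rcases Nat.eq_zero_or_pos n with rfl | hn
    · obtain ⟨x, rfl⟩ := Finset.card_eq_one.1 hF
      obtain ⟨m, hm, f, hf, hfJ, hfx⟩ := exists_homog 𝒜 J x (hJ x (Finset.mem_singleton_self x))
      exact ⟨m, hm, f, hf, hfJ, fun y hy => by rwa [Finset.mem_singleton.1 hy]⟩
    · have h1 : ∀ x : F, ∃ n > 0, ∃ f ∈ 𝒜 n, f ∈ J ∧ ∀ y ∈ F.erase x, f ∉ y.asHomogeneousIdeal := by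
        intro x
        refine ih (F.erase x) ?_ fun y hy => hJ y (Finset.mem_of_mem_erase hy)
        rw [Finset.card_erase_of_mem x.2, hF]
        rfl
      choose m hm f hf hfJ hfx using h1
      by_cases hex : ∃ x : F, f x ∉ x.1.asHomogeneousIdeal
      · obtain ⟨x, hx⟩ := hex
        refine ⟨m x, hm x, f x, hf x, hfJ x, fun y hy => ?_⟩
        by_cases hxy : y = x
        · rw [hxy]; exact hx
        · exact hfx x y (Finset.mem_erase.2 ⟨hxy, hy⟩)
      · push Not at hex
        obtain ⟨x0, hx0⟩ := Finset.card_pos.1 (by omega : 0 < F.card)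
        let x0' : F := ⟨x0, hx0⟩
        let S : Finset F := Finset.univ.erase x0'
        have hSne : S.Nonempty := by
          rw [← Finset.card_pos, Finset.card_erase_of_mem (Finset.mem_univ _), Finset.card_univ,
            Fintype.card_coe, hF]
          omega
        let g := ∏ y ∈ S, f y
        have hg : g ∈ 𝒜 (∑ y ∈ S, m y) := SetLike.prod_mem_graded 𝒜 m f fun y _ => hf y
        have hgx0 : g ∉ x0.asHomogeneousIdeal := by
          intro hmem
          obtain ⟨y, hy, hyx⟩ := (Ideal.IsPrime.prod_mem_iff (hp := x0.isPrime)).1 hmem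
          have hne : y ≠ x0' := (Finset.mem_erase.1 hy).1
          exact hfx y x0 (Finset.mem_erase.2 ⟨fun h => hne (Subtype.ext h.symm), hx0⟩) hyx
        have hgy : ∀ y : F, y ≠ x0' → g ∈ y.1.asHomogeneousIdeal := by
          intro y hy
          exact Ideal.mem_of_dvd _ (Finset.dvd_prod_of_mem f
            (Finset.mem_erase.2 ⟨hy, Finset.mem_univ _⟩)) (hex y)
        have hMpos : 0 < ∑ y ∈ S, m y := Finset.sum_pos (fun y _ => hm y) hSne
        refine ⟨(∑ y ∈ S, m y) * m x0', Nat.mul_pos hMpos (hm _),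
          (f x0') ^ (∑ y ∈ S, m y) + g ^ (m x0'), ?_, ?_, ?_⟩
        · refine add_mem ?_ ?_
          · have := SetLike.pow_mem_graded (∑ y ∈ S, m y) (hf x0')
            simpa [smul_eq_mul] using this
          · have := SetLike.pow_mem_graded (m x0') hg
            rwa [smul_eq_mul, mul_comm] at this
        · refine J.toIdeal.add_mem (Ideal.pow_mem_of_mem _ (hfJ _) _ hMpos) ?_
          obtain ⟨y, hy⟩ := hSne
          exact Ideal.pow_mem_of_mem _ (Ideal.mem_of_dvd _ (Finset.dvd_prod_of_mem f hy) (hfJ y)) _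
            (hm _)
        · intro y hy hmem
          by_cases hyx : y = x0
          · subst hyx
            have h3 : f x0' ^ (∑ y ∈ S, m y) ∈ y.asHomogeneousIdeal.toIdeal :=
              Ideal.pow_mem_of_mem _ (hex x0') _ hMpos
            have h4 := (Ideal.add_mem_iff_right _ h3).1 hmem
            exact hgx0 (y.isPrime.mem_of_pow_mem _ h4)
          · have h3 : g ^ (m x0') ∈ y.asHomogeneousIdeal.toIdeal :=
              Ideal.pow_mem_of_mem _ (hgy ⟨y, hy⟩ (fun h => hyx (congrArg Subtype.val h))) _ (hm _)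
            have h4 := (Ideal.add_mem_iff_left _ h3).1 hmem
            exact hfx x0' y (Finset.mem_erase.2 ⟨hyx, hy⟩) (y.isPrime.mem_of_pow_mem _ h4)

lemma exists_basicOpen (V : (Proj 𝒜).Opens) (F : Set (Proj 𝒜)) (hF : F.Finite)
    (hFV : F ⊆ V) : ∃ n > 0, ∃ f ∈ 𝒜 n, F ⊆ Proj.basicOpen 𝒜 f ∧ Proj.basicOpen 𝒜 f ≤ V := by
  classical
  let V' : Set (ProjectiveSpectrum 𝒜) := V.1
  have hVo : IsOpen V' := V.2
  let F' : Set (ProjectiveSpectrum 𝒜) := F
  have hF' : F'.Finite := hF
  have hFV' : F' ⊆ V' := hFV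
  let J : HomogeneousIdeal 𝒜 := ProjectiveSpectrum.vanishingIdeal V'ᶜ
  have h1 : ProjectiveSpectrum.zeroLocus 𝒜 (J : Set A) = V'ᶜ := by
    refine (ProjectiveSpectrum.zeroLocus_vanishingIdeal_eq_closure 𝒜 V'ᶜ).trans ?_
    exact hVo.isClosed_compl.closure_eq
  have hJ : ∀ x : ProjectiveSpectrum 𝒜, J ≤ x.asHomogeneousIdeal ↔ x ∉ V' := by
    intro x
    have h2 : x ∈ ProjectiveSpectrum.zeroLocus 𝒜 (J : Set A) ↔ x ∉ V' := by
      rw [h1]
      rfl
    exact h2
  obtain ⟨n, hn, f, hf, hfJ, hfF⟩ := exists_avoid 𝒜 J hF'.toFinset.card hF'.toFinset rfl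
    (fun x hx => by
      rw [hJ, not_not]
      exact hFV' (hF'.mem_toFinset.1 hx))
  refine ⟨n, hn, f, hf, ?_, ?_⟩
  · intro x hx
    exact hfF x (hF'.mem_toFinset.2 hx)
  · intro x hx
    by_contra hcon
    exact hx (((hJ x).2 hcon) hfJ)

end avoid

lemma finAff_of_isImmersion {A : Type u} {σ : Type*} [CommRing A] [SetLike σ A]
    [AddSubgroupClass σ A] (𝒜 : ℕ → σ) [GradedRing 𝒜] {X : Scheme.{u}} (i : X ⟶ Proj 𝒜)
    [IsImmersion i] : FinAff X := by
  intro F hF
  obtain ⟨n, hn, f, hf, h1, h2⟩ := exists_basicOpen 𝒜 i.coborderRange (i '' F) (hF.image _) (by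
    rintro _ ⟨x, hx, rfl⟩
    exact subset_coborder ⟨x, rfl⟩)
  refine ⟨i ⁻¹ᵁ Proj.basicOpen 𝒜 f, ?_, ?_⟩
  · have h3 : IsAffineOpen (Proj.basicOpen 𝒜 f) := Proj.isAffineOpen_basicOpen 𝒜 f hf hn
    have h4 : IsAffineOpen (i.coborderRange.ι ⁻¹ᵁ Proj.basicOpen 𝒜 f) :=
      h3.preimage_of_isOpenImmersion _ (by rw [Scheme.Opens.opensRange_ι]; exact h2)
    have h5 := h4.preimage i.liftCoborder
    rwa [← Scheme.Hom.comp_preimage, Scheme.Hom.liftCoborder_ι] at h5
  · intro x hx
    exact h1 ⟨x, hx, rfl⟩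

attribute [local instance] MvPolynomial.gradedAlgebra

/-- Projective space of dimension `N` over `k`. -/
noncomputable def projSpace (k : Type u) [Field k] (N : ℕ) : Scheme.{u} :=
  Proj (MvPolynomial.homogeneousSubmodule (Fin (N + 1)) k)

/-- The structure morphism of projective space. -/
noncomputable def projSpaceStr (k : Type u) [Field k] (N : ℕ) :
    projSpace k N ⟶ Spec (CommRingCat.of k) :=
  Proj.toSpecZero (MvPolynomial.homogeneousSubmodule (Fin (N + 1)) k) ≫
    Spec.map (CommRingCat.ofHom (algebraMap k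
      (MvPolynomial.homogeneousSubmodule (Fin (N + 1)) k 0)))

/-- A `k`-scheme is quasi-projective if it has a `k`-immersion into some projective space. -/
def QuasiProjective {k : Type u} [Field k] {X : Scheme.{u}} (p : X ⟶ Spec (CommRingCat.of k)) :
    Prop :=
  ∃ (N : ℕ) (i : X ⟶ projSpace k N), IsImmersion i ∧ i ≫ projSpaceStr k N = p

lemma QuasiProjective.finAff {k : Type u} [Field k] {X : Scheme.{u}}
    {p : X ⟶ Spec (CommRingCat.of k)} (h : QuasiProjective p) : FinAff X := by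
  obtain ⟨N, i, hi, -⟩ := h
  exact @finAff_of_isImmersion _ _ _ _ _ (MvPolynomial.homogeneousSubmodule (Fin (N + 1)) k) _ _ i hi

lemma QuasiProjective.isSeparated {k : Type u} [Field k] {X : Scheme.{u}}
    {p : X ⟶ Spec (CommRingCat.of k)} (h : QuasiProjective p) : IsSeparated p := by
  obtain ⟨N, i, hi, rfl⟩ := h
  have h1 : IsSeparated (projSpaceStr k N) := by
    have h2 : IsSeparated (Proj.toSpecZero (MvPolynomial.homogeneousSubmodule (Fin (N + 1)) k)) :=
      inferInstance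
    have h3 : IsSeparated (Spec.map (CommRingCat.ofHom (algebraMap k
      (MvPolynomial.homogeneousSubmodule (Fin (N + 1)) k 0)))) := inferInstance
    exact MorphismProperty.comp_mem @IsSeparated _ _ h2 h3
  infer_instance

end Pool.Agent.H869.Sch
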